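import Mathlib

/-!
# Joint cumulants

`mom μ X S = E ∏_{j ∈ S} X_j`, and `cum μ X i S` is the joint cumulant of `X_i` and the `X_j`,
`j ∈ S`, where `i ∉ S`.
-/

set_option autoImplicit false
set_option linter.unusedSectionVars false
open MeasureTheory Filter Topology ProbabilityTheory
open scoped ENNReal

namespace Pool.Agent.Helper37.BC

noncomputable section

variable {Ω ι : Type*} [MeasurableSpace Ω] [DecidableEq ι]

/-- the joint moment `E ∏_{j ∈ S} X_j` -/
def mom (μ : Measure Ω) (X : ι → Ω → ℝ) (S : Finset ι) : ℝ := ∫ ω, ∏ j ∈ S, X j ω ∂μ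

/-- the joint cumulant of `X_i` and the `X_j`, `j ∈ S` (`i ∉ S`), defined by the recursion
`E [X_i ∏_{j ∈ S} X_j] = ∑_{T ⊆ S} cum i T * E ∏_{j ∈ S \ T} X_j` -/
def cum (μ : Measure Ω) (X : ι → Ω → ℝ) (i : ι) (S : Finset ι) : ℝ :=
  mom μ X (insert i S) - ∑ T ∈ S.ssubsets.attach, cum μ X i T.1 * mom μ X (S \ T.1)
termination_by S.card
decreasing_by exact Finset.card_lt_card (Finset.mem_ssubsets.1 T.2)

theorem cum_eq (μ : Measure Ω) (X : ι → Ω → ℝ) (i : ι) (S : Finset ι) :
    cum μ X i S = mom μ X (insert i S) - ∑ T ∈ S.ssubsets, cum μ X i T * mom μ X (S \ T) := by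
  rw [cum, Finset.sum_attach S.ssubsets (fun T => cum μ X i T * mom μ X (S \ T))]

/-- the recursion, on a probability space -/
theorem mom_eq (μ : Measure Ω) [IsProbabilityMeasure μ] (X : ι → Ω → ℝ) (i : ι) (S : Finset ι) :
    mom μ X (insert i S) = ∑ T ∈ S.powerset, cum μ X i T * mom μ X (S \ T) := by
  have h : S.powerset = insert S S.ssubsets := by
    ext T
    simp only [Finset.mem_powerset, Finset.mem_insert, Finset.mem_ssubsets, ssubset_iff_subset_ne]
    constructor
    · intro h
      by_cases e : T = S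
      · exact Or.inl e
      · exact Or.inr ⟨h, e⟩
    · rintro (h | h)
      · exact h.subset
      · exact h.1
  rw [h, Finset.sum_insert (by simp), Finset.sdiff_self]
  have : mom μ X ∅ = 1 := by simp [mom]
  rw [this, mul_one, cum_eq μ X i S]
  ring

/-- all moments are finite -/
def AllMom (μ : Measure Ω) (Y : Ω → ℝ) : Prop := ∀ p : ℕ, MemLp Y p μ

section mem

variable {μ : Measure Ω} [IsProbabilityMeasure μ]

theorem AllMom.meas {Y : Ω → ℝ} (h : AllMom μ Y) : AEStronglyMeasurable Y μ := (h 0).1

theorem AllMom.int {Y : Ω → ℝ} (h : AllMom μ Y) : Integrable Y μ := by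
  have := h 1
  rwa [Nat.cast_one, memLp_one_iff_integrable] at this

theorem AllMom.two {Y : Ω → ℝ} (h : AllMom μ Y) : MemLp Y 2 μ := by
  have := h 2
  exact_mod_cast this

theorem AllMom.const (c : ℝ) : AllMom μ (fun _ => c) := fun _ => memLp_const c

theorem AllMom.add {Y Z : Ω → ℝ} (h : AllMom μ Y) (h' : AllMom μ Z) :
    AllMom μ (fun ω => Y ω + Z ω) := fun p => (h p).add (h' p)

theorem AllMom.cmul {Y : Ω → ℝ} (h : AllMom μ Y) (c : ℝ) : AllMom μ (fun ω => c * Y ω) :=
  fun p => (h p).const_mul c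

theorem AllMom.sub {Y Z : Ω → ℝ} (h : AllMom μ Y) (h' : AllMom μ Z) :
    AllMom μ (fun ω => Y ω - Z ω) := fun p => (h p).sub (h' p)

theorem AllMom.mul {Y Z : Ω → ℝ} (h : AllMom μ Y) (h' : AllMom μ Z) :
    AllMom μ (fun ω => Y ω * Z ω) := by
  intro p
  rcases Nat.eq_zero_or_pos p with rfl | hp
  · rw [Nat.cast_zero, memLp_zero_iff_aestronglyMeasurable]
    exact h.meas.mul h'.meas
  · have h1 := h (2 * p)
    have h2 := h' (2 * p)
    have : ENNReal.HolderTriple ((2 * p : ℕ) : ℝ≥0∞) ((2 * p : ℕ) : ℝ≥0∞) (p : ℝ≥0∞) := by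
      constructor
      push_cast
      rw [ENNReal.mul_inv (Or.inl (by norm_num)) (Or.inl (by norm_num)), ← add_mul,
        ENNReal.inv_two_add_inv_two, one_mul]
    exact h2.mul h1

theorem AllMom.prod {κ : Type*} {Y : κ → Ω → ℝ} (S : Finset κ) (h : ∀ j ∈ S, AllMom μ (Y j)) :
    AllMom μ (fun ω => ∏ j ∈ S, Y j ω) := by
  classical
  induction S using Finset.induction_on with
  | empty => simpa using AllMom.const (μ := μ) 1
  | insert a S ha ih =>
    simp only [Finset.prod_insert ha]
    exact (h a (Finset.mem_insert_self _ _)).mul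
      (ih fun j hj => h j (Finset.mem_insert_of_mem hj))

theorem AllMom.sum {κ : Type*} {Y : κ → Ω → ℝ} (S : Finset κ) (h : ∀ j ∈ S, AllMom μ (Y j)) :
    AllMom μ (fun ω => ∑ j ∈ S, Y j ω) := by
  classical
  induction S using Finset.induction_on with
  | empty => simpa using AllMom.const (μ := μ) 0
  | insert a S ha ih =>
    simp only [Finset.sum_insert ha]
    exact (h a (Finset.mem_insert_self _ _)).add
      (ih fun j hj => h j (Finset.mem_insert_of_mem hj))

theorem AllMom.pow {Y : Ω → ℝ} (h : AllMom μ Y) (n : ℕ) : AllMom μ (fun ω => Y ω ^ n) := by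
  have := AllMom.prod (Y := fun (_ : ℕ) => Y) (Finset.range n) (fun j _ => h)
  simpa using this

end mem

/-! ### Dependence on one variable -/

section rep

variable {μ : Measure Ω} {X : ι → Ω → ℝ}

theorem mom_congr {X' : ι → Ω → ℝ} {S : Finset ι} (h : ∀ j ∈ S, X j = X' j) :
    mom μ X S = mom μ X' S := by
  unfold mom
  congr 1
  funext ω
  exact Finset.prod_congr rfl fun j hj => by rw [h j hj]

theorem cum_congr {X' : ι → Ω → ℝ} {i : ι} : ∀ (n : ℕ) (S : Finset ι), S.card = n →
    (∀ j ∈ insert i S, X j = X' j) → cum μ X i S = cum μ X' i S := by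
  intro n
  induction n using Nat.strong_induction_on with
  | _ n ih =>
    intro S hn h
    rw [cum_eq, cum_eq, mom_congr h]
    congr 1
    refine Finset.sum_congr rfl fun T hT => ?_
    rw [Finset.mem_ssubsets] at hT
    rw [ih T.card (by rw [← hn]; exact Finset.card_lt_card hT) T rfl
      (fun j hj => h j (Finset.insert_subset_insert i hT.subset hj)),
      mom_congr (fun j hj => h j (Finset.mem_insert_of_mem (Finset.sdiff_subset hj)))]

theorem mom_update_notMem {S : Finset ι} {j : ι} (hj : j ∉ S) (Y : Ω → ℝ) :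
    mom μ (Function.update X j Y) S = mom μ X S :=
  mom_congr fun k hk => Function.update_of_ne (fun e : k = j => hj (by rw [← e]; exact hk)) _ _

theorem cum_update_notMem {S : Finset ι} {i j : ι} (hj : j ∉ insert i S) (Y : Ω → ℝ) :
    cum μ (Function.update X j Y) i S = cum μ X i S :=
  cum_congr _ S rfl fun k hk => Function.update_of_ne
    (fun e : k = j => hj (by rw [← e]; exact hk)) _ _

theorem mom_update_mem {S : Finset ι} {j : ι} (hj : j ∈ S) (Y : Ω → ℝ) :
    mom μ (Function.update X j Y) S = ∫ ω, Y ω * ∏ k ∈ S.erase j, X k ω ∂μ := by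
  unfold mom
  congr 1
  funext ω
  rw [← Finset.mul_prod_erase S _ hj, Function.update_self]
  congr 1
  refine Finset.prod_congr rfl fun k hk => ?_
  rw [Function.update_of_ne (Finset.ne_of_mem_erase hk)]

variable [IsProbabilityMeasure μ]

/-- the cumulant is a linear functional of each variable, given by a random variable with finite
moments -/
theorem cum_rep (hX : ∀ k, AllMom μ (X k)) {i j : ι} : ∀ (n : ℕ) (S : Finset ι), S.card = n →
    i ∉ S → j ∈ insert i S → ∃ Q : Ω → ℝ, AllMom μ Q ∧ ∀ Y : Ω → ℝ, AllMom μ Y →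
      cum μ (Function.update X j Y) i S = ∫ ω, Y ω * Q ω ∂μ := by
  intro n
  induction n using Nat.strong_induction_on with
  | _ n ih =>
    intro S hn hi hj
    -- the terms of the sum
    have hT : ∀ T ∈ S.ssubsets, ∃ Q : Ω → ℝ, AllMom μ Q ∧ ∀ Y : Ω → ℝ, AllMom μ Y →
        cum μ (Function.update X j Y) i T * mom μ (Function.update X j Y) (S \ T) =
          ∫ ω, Y ω * Q ω ∂μ := by
      intro T hT
      rw [Finset.mem_ssubsets] at hT
      by_cases hjT : j ∈ insert i T
      · obtain ⟨Q, hQ, h⟩ := ih T.card (by rw [← hn]; exact Finset.card_lt_card hT) T rfl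
          (fun h => hi (hT.subset h)) hjT
        have hj' : j ∉ S \ T := by
          intro h'
          rw [Finset.mem_sdiff] at h'
          rcases Finset.mem_insert.1 hjT with rfl | h''
          · exact hi h'.1
          · exact h'.2 h''
        refine ⟨fun ω => mom μ X (S \ T) * Q ω, hQ.cmul _, fun Y hY => ?_⟩
        rw [h Y hY, mom_update_notMem hj', ← integral_mul_const]
        congr 1
        funext ω
        ring
      · have hj' : j ∈ S \ T := by
          rw [Finset.mem_sdiff]
          rw [Finset.mem_insert] at hj hjT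
          push Not at hjT
          exact ⟨hj.resolve_left hjT.1, hjT.2⟩
        refine ⟨fun ω => cum μ X i T * ∏ k ∈ (S \ T).erase j, X k ω,
          (AllMom.prod _ fun k _ => hX k).cmul _, fun Y hY => ?_⟩
        rw [cum_update_notMem hjT, mom_update_mem hj', ← integral_const_mul]
        congr 1
        funext ω
        ring
    choose! Q hQ hQ' using hT
    refine ⟨fun ω => ∏ k ∈ (insert i S).erase j, X k ω - ∑ T ∈ S.ssubsets, Q T ω,
      (AllMom.prod _ fun k _ => hX k).sub (AllMom.sum _ hQ), fun Y hY => ?_⟩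
    rw [cum_eq, mom_update_mem hj, Finset.sum_congr rfl fun T hT => hQ' T hT Y hY,
      ← integral_finsetSum _ fun T hT => (hY.mul (hQ T hT)).int, ← integral_sub
        (hY.mul (AllMom.prod _ fun k _ => hX k)).int
        (AllMom.sum _ fun T hT => hY.mul (hQ T hT)).int]
    congr 1
    funext ω
    rw [mul_sub, Finset.mul_sum]

/-- multilinearity: the cumulants of a linear combination of variables vanish if those of the
variables do -/
theorem cum_lin {B : Set (Ω → ℝ)} (hB : ∀ b ∈ B, AllMom μ b) {i : ι} {S : Finset ι} (hi : i ∉ S)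
    (h0 : ∀ X : ι → Ω → ℝ, (∀ j ∈ insert i S, X j ∈ B) → (∀ j, AllMom μ (X j)) → cum μ X i S = 0)
    {κ : Type*} (A : Finset κ) (t : κ → ℝ) (b : κ → Ω → ℝ) (hb : ∀ a ∈ A, b a ∈ B) :
    cum μ (fun _ : ι => fun ω => ∑ a ∈ A, t a * b a ω) i S = 0 := by
  have hY : AllMom μ (fun ω => ∑ a ∈ A, t a * b a ω) :=
    AllMom.sum _ fun a ha => (hB _ (hb a ha)).cmul _
  have key : ∀ U : Finset ι, U ⊆ insert i S → ∀ X : ι → Ω → ℝ, (∀ j, AllMom μ (X j)) →
      (∀ j ∈ U, X j = fun ω => ∑ a ∈ A, t a * b a ω) → (∀ j ∈ insert i S, j ∉ U → X j ∈ B) →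
      cum μ X i S = 0 := by
    intro U
    induction U using Finset.induction_on with
    | empty => exact fun _ X hX _ h => h0 X (fun j hj => h j hj (Finset.notMem_empty j)) hX
    | insert j U hj ih =>
      intro hU X hX h1 h2
      have hjS : j ∈ insert i S := hU (Finset.mem_insert_self _ _)
      obtain ⟨Q, hQ, hq⟩ := cum_rep hX _ S rfl hi hjS
      have e : Function.update X j (fun ω => ∑ a ∈ A, t a * b a ω) = X := by
        rw [← h1 j (Finset.mem_insert_self _ _), Function.update_eq_self]
      rw [← e, hq _ hY]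
      have e2 : ∀ ω, (∑ a ∈ A, t a * b a ω) * Q ω = ∑ a ∈ A, t a * (b a ω * Q ω) := by
        intro ω
        rw [Finset.sum_mul]
        exact Finset.sum_congr rfl fun a _ => by ring
      simp_rw [e2]
      rw [integral_finsetSum _ fun a ha => (((hB _ (hb a ha)).mul hQ).cmul _).int]
      refine Finset.sum_eq_zero fun a ha => ?_
      rw [integral_const_mul, ← hq _ (hB _ (hb a ha)),
        ih ((Finset.subset_insert _ _).trans hU) _ (fun k => ?_) (fun k hk => ?_)
          (fun k hk hk' => ?_), mul_zero]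
      · by_cases hkj : k = j
        · rw [hkj, Function.update_self]; exact hB _ (hb a ha)
        · rw [Function.update_of_ne hkj]; exact hX k
      · rw [Function.update_of_ne (fun e => hj (by rw [← e]; exact hk))]
        exact h1 k (Finset.mem_insert_of_mem hk)
      · by_cases hkj : k = j
        · rw [hkj, Function.update_self]; exact hb a ha
        · rw [Function.update_of_ne hkj]
          exact h2 k hk (by rw [Finset.mem_insert]; push Not; exact ⟨hkj, hk'⟩)
  exact key (insert i S) le_rfl _ (fun _ => hY) (fun _ _ => rfl) fun j hj hj' => absurd hj hj'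

end rep

/-! ### One random variable -/

/-- the cumulants (with the index shifted by one) which belong to a sequence of moments -/
def kap (a : ℕ → ℝ) (n : ℕ) : ℝ :=
  a (n + 1) - ∑ k : Fin n, (n.choose k : ℝ) * kap a k * a (n - k)

theorem kap_eq (a : ℕ → ℝ) (n : ℕ) :
    kap a n = a (n + 1) - ∑ k ∈ Finset.range n, (n.choose k : ℝ) * kap a k * a (n - k) := by
  rw [kap, Finset.sum_range fun k => (n.choose k : ℝ) * kap a k * a (n - k)]

theorem kap_rec {a : ℕ → ℝ} (h0 : a 0 = 1) (n : ℕ) :
    a (n + 1) = ∑ k ∈ Finset.range (n + 1), (n.choose k : ℝ) * kap a k * a (n - k) := by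
  rw [Finset.sum_range_succ, Nat.choose_self, Nat.cast_one, one_mul, Nat.sub_self, h0, mul_one,
    kap_eq a n]
  ring

theorem mom_const {μ : Measure Ω} (Y : Ω → ℝ) (S : Finset ι) :
    mom μ (fun _ : ι => Y) S = ∫ ω, Y ω ^ S.card ∂μ := by
  unfold mom
  simp only [Finset.prod_const]

theorem cum_const {μ : Measure Ω} (Y : Ω → ℝ) {i : ι} : ∀ (n : ℕ) (S : Finset ι), S.card = n →
    i ∉ S → cum μ (fun _ : ι => Y) i S = kap (fun p => ∫ ω, Y ω ^ p ∂μ) n := by
  intro n
  induction n using Nat.strong_induction_on with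
  | _ n ih =>
    intro S hn hi
    rw [cum_eq, mom_const, Finset.card_insert_of_notMem hi, hn, kap_eq]
    congr 1
    have h1 : ∀ T ∈ S.ssubsets, cum μ (fun _ : ι => Y) i T * mom μ (fun _ : ι => Y) (S \ T) =
        kap (fun p => ∫ ω, Y ω ^ p ∂μ) T.card * ∫ ω, Y ω ^ (n - T.card) ∂μ := by
      intro T hT
      rw [Finset.mem_ssubsets] at hT
      rw [ih T.card (by rw [← hn]; exact Finset.card_lt_card hT) T rfl (fun h => hi (hT.subset h)),
        mom_const, Finset.card_sdiff_of_subset hT.subset, hn]
    rw [Finset.sum_congr rfl h1]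
    have h2 := Finset.sum_powerset_apply_card (x := S)
      (fun k => kap (fun p => ∫ ω, Y ω ^ p ∂μ) k * ∫ ω, Y ω ^ (n - k) ∂μ)
    have h3 : S.powerset = insert S S.ssubsets := by
      ext T
      simp only [Finset.mem_powerset, Finset.mem_insert, Finset.mem_ssubsets,
        ssubset_iff_subset_ne]
      constructor
      · intro h
        by_cases e : T = S
        · exact Or.inl e
        · exact Or.inr ⟨h, e⟩
      · rintro (h | h)
        · exact h.subset
        · exact h.1
    rw [h3, Finset.sum_insert (by simp), hn, Finset.sum_range_succ, Nat.choose_self, one_smul,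
      add_comm] at h2
    rw [add_right_cancel h2]
    refine Finset.sum_congr rfl fun k _ => ?_
    rw [nsmul_eq_mul]
    ring

end

end Pool.Agent.Helper37.BC
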