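import Pool.Agent.Helper37.BC.Bes
import Pool.Agent.Helper37.BC.Cum
import Pool.Graph.R_pool_sql_team_seeded_63374d34.N661.BR.Base

/-!
# Moments of stationary waves (MP_6b977f_mp)
-/

set_option autoImplicit false
set_option linter.unusedSectionVars false
open MeasureTheory Filter Topology ProbabilityTheory
open scoped ContDiff ENNReal

namespace Pool.Agent.Helper37.BC

open Pool.Agent.W745.RW (lap dx dy)
open Pool.Agent.N661.BR (MW J0 IsStationary shift meas_eval meas_shift)

noncomputable section

theorem allMom_of_pow {Ω : Type*} [MeasurableSpace Ω] {μ : Measure Ω} [IsProbabilityMeasure μ]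
    {Y : Ω → ℝ} (hm : AEStronglyMeasurable Y μ)
    (h : ∀ k : ℕ, Integrable (fun x => |Y x| ^ (k + 1)) μ) : AllMom μ Y := by
  intro p
  have h1 : MemLp Y ((p + 1 : ℕ) : ℝ≥0∞) μ := by
    rw [← integrable_norm_rpow_iff hm (by simp) (ENNReal.natCast_ne_top _)]
    refine (h p).congr (Eventually.of_forall fun x => ?_)
    show |Y x| ^ (p + 1) = ‖Y x‖ ^ (((p + 1 : ℕ) : ℝ≥0∞)).toReal
    rw [ENNReal.toReal_natCast, Real.rpow_natCast, Real.norm_eq_abs]
  refine h1.mono_exponent ?_
  exact_mod_cast Nat.le_succ p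

/-- the joint measurability of the evaluation -/
theorem meas_ev : Measurable (fun p : ℂ × MW => p.2 p.1) :=
  measurable_uncurry_of_continuous_of_measurable (u := fun (z : ℂ) (f : MW) => f z)
    (fun f => f.2.1.continuous) (fun z => meas_eval z)

variable {μ : Measure MW} [IsProbabilityMeasure μ]

theorem mp_shift (hs : IsStationary μ) (x : ℂ) : MeasurePreserving (shift x) μ μ :=
  ⟨meas_shift x, hs x⟩

theorem shift_apply (x : ℂ) (f : MW) (w : ℂ) : (shift x f) w = f (w + x) := rfl

/-- the values have finite moments -/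
theorem eval_mom (hs : IsStationary μ) (h0 : ∀ k : ℕ, Integrable (fun f : MW => f 0 ^ k) μ)
    (w : ℂ) : AllMom μ (fun f : MW => f w) := by
  have h1 : AllMom μ (fun f : MW => f 0) :=
    allMom_of_pow (meas_eval 0).aestronglyMeasurable fun k => by
      refine (h0 (k + 1)).abs.congr (Eventually.of_forall fun f => ?_)
      exact abs_pow _ _
  intro p
  have h2 := (h1 p).comp_measurePreserving (mp_shift hs w)
  refine h2.ae_eq (Eventually.of_forall fun f => ?_)
  show (shift w f) 0 = f w
  rw [shift_apply, zero_add]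

theorem int_shift (hs : IsStationary μ) {F : MW → ℝ} (hF : Measurable F) (w : ℂ) :
    ∫ f, F (shift w f) ∂μ = ∫ f, F f ∂μ := by
  conv_rhs => rw [← hs w]
  rw [integral_map (meas_shift w).aemeasurable hF.aestronglyMeasurable]

/-- the `n`-th absolute moment does not depend on the point -/
theorem abs_mom (hs : IsStationary μ) (n : ℕ) (w : ℂ) :
    ∫ f : MW, |f w| ^ n ∂μ = ∫ f : MW, |f 0| ^ n ∂μ := by
  rw [← int_shift hs (F := fun f : MW => |f 0| ^ n) (by
    exact ((meas_eval 0).abs.pow_const n)) w]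
  refine integral_congr_ae (Eventually.of_forall fun f => ?_)
  show |f w| ^ n = |(shift w f) 0| ^ n
  rw [shift_apply, zero_add]

/-- a local maximal function -/
def GB (ρ : ℝ) (f : MW) : ℝ := ⨍ x in Metric.ball (0:ℂ) (ρ + 1), |f x|

theorem ball_fin (r : ℝ) : volume (Metric.ball (0:ℂ) r) ≠ ⊤ := measure_ball_lt_top.ne

theorem ball_pos {r : ℝ} (hr : 0 < r) : volume (Metric.ball (0:ℂ) r) ≠ 0 :=
  (Metric.measure_ball_pos volume _ hr).ne'

theorem cont_ball {g : ℂ → ℝ} (hg : Continuous g) (r : ℝ) : IntegrableOn g (Metric.ball (0:ℂ) r) :=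
  (hg.continuousOn.integrableOn_compact (isCompact_closedBall (0:ℂ) r)).mono_set
    Metric.ball_subset_closedBall

theorem GB_nonneg (ρ : ℝ) (f : MW) : 0 ≤ GB ρ f :=
  integral_nonneg fun _ => abs_nonneg _

theorem GB_mom (hs : IsStationary μ) (h0 : ∀ k : ℕ, Integrable (fun f : MW => f 0 ^ k) μ)
    {ρ : ℝ} (hρ : 0 ≤ ρ) : AllMom μ (GB ρ) := by
  set B := Metric.ball (0:ℂ) (ρ + 1) with hB
  -- joint integrability
  have hj : ∀ n : ℕ, Integrable (fun p : ℂ × MW => |p.2 p.1| ^ n) ((volume.restrict B).prod μ) := by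
    intro n
    rw [integrable_prod_iff (meas_ev.abs.pow_const n).aestronglyMeasurable]
    refine ⟨Eventually.of_forall fun x => ?_, ?_⟩
    · have := ((eval_mom hs h0 x).pow n).int.abs
      refine this.congr (Eventually.of_forall fun f => ?_)
      exact abs_pow _ _
    · have e : ∀ x : ℂ, ∫ f : MW, ‖|f x| ^ n‖ ∂μ = ∫ f : MW, |f 0| ^ n ∂μ := by
        intro x
        rw [← abs_mom hs n x]
        refine integral_congr_ae (Eventually.of_forall fun f => ?_)
        show ‖|f x| ^ n‖ = |f x| ^ n
        rw [Real.norm_eq_abs, abs_of_nonneg (by positivity)]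
      simp only [e]
      have : IsFiniteMeasure (volume.restrict B) := ⟨by
        rw [Measure.restrict_apply_univ]; exact measure_ball_lt_top⟩
      exact integrable_const _
  have hmeas : AEStronglyMeasurable (GB ρ) μ := by
    have h1 := ((hj 1).swap).integral_prod_left.aestronglyMeasurable
    have h2 := h1.const_mul ((volume.real B)⁻¹)
    refine h2.congr (Eventually.of_forall fun f => ?_)
    show (volume.real B)⁻¹ * _ = GB ρ f
    unfold GB
    rw [setAverage_eq, smul_eq_mul]
    simp [hB]
  refine allMom_of_pow hmeas fun n => ?_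
  have h1 := ((hj (n + 1)).swap).integral_prod_left
  have h2 := h1.const_mul ((volume.real B)⁻¹)
  refine h2.mono' ((hmeas.norm.pow (n + 1)).congr (Eventually.of_forall fun f => rfl))
    (Eventually.of_forall fun f => ?_)
  rw [Real.norm_eq_abs, abs_of_nonneg (by positivity), abs_of_nonneg (GB_nonneg ρ f)]
  have hc : Continuous fun x : ℂ => |f x| := f.2.1.continuous.abs
  have h3 := (convexOn_pow (𝕜 := ℝ) (n + 1)).map_set_average_le (μ := volume) (t := B)
    (f := fun x : ℂ => |f x|) ((continuous_pow (n + 1)).continuousOn) isClosed_Ici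
    (ball_pos (by linarith)) (ball_fin _)
    (Eventually.of_forall fun x => Set.mem_Ici.2 (abs_nonneg _))
    (cont_ball hc _) (cont_ball (hc.pow (n + 1)) _)
  refine h3.trans (le_of_eq ?_)
  rw [setAverage_eq, smul_eq_mul]
  rfl

theorem GB_two (hs : IsStationary μ) (h2 : Integrable (fun f : MW => f 0 ^ 2) μ)
    {ρ : ℝ} (hρ : 0 ≤ ρ) : MemLp (GB ρ) 2 μ := by
  set B := Metric.ball (0:ℂ) (ρ + 1) with hB
  have hfin : IsFiniteMeasure (volume.restrict B) := ⟨by
    rw [Measure.restrict_apply_univ]; exact measure_ball_lt_top⟩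
  have h20 : Integrable (fun f : MW => |f 0| ^ 2) μ := by simpa only [sq_abs] using h2
  have h2w : ∀ x : ℂ, Integrable (fun f : MW => |f x| ^ 2) μ := by
    intro x
    have h3 := ((mp_shift hs x).integrable_comp h20.aestronglyMeasurable).2 h20
    refine h3.congr (Eventually.of_forall fun f => ?_)
    show |(shift x f) 0| ^ 2 = |f x| ^ 2
    rw [shift_apply, zero_add]
  have hj : Integrable (fun p : ℂ × MW => |p.2 p.1| ^ 2) ((volume.restrict B).prod μ) := by
    rw [integrable_prod_iff (meas_ev.abs.pow_const 2).aestronglyMeasurable]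
    refine ⟨Eventually.of_forall fun x => h2w x, ?_⟩
    have e : ∀ x : ℂ, ∫ f : MW, ‖|f x| ^ 2‖ ∂μ = ∫ f : MW, |f 0| ^ 2 ∂μ := by
      intro x
      rw [← abs_mom hs 2 x]
      refine integral_congr_ae (Eventually.of_forall fun f => ?_)
      show ‖|f x| ^ 2‖ = |f x| ^ 2
      rw [Real.norm_eq_abs, abs_of_nonneg (by positivity)]
    simp only [e]
    exact integrable_const _
  have hj1 : Integrable (fun p : ℂ × MW => |p.2 p.1|) ((volume.restrict B).prod μ) := by
    refine (hj.add (integrable_const (1:ℝ))).mono' meas_ev.abs.aestronglyMeasurable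
      (Eventually.of_forall fun p => ?_)
    rw [Real.norm_eq_abs, abs_abs]
    show |p.2 p.1| ≤ |p.2 p.1| ^ 2 + 1
    nlinarith [sq_nonneg (|p.2 p.1| - 1), abs_nonneg (p.2 p.1)]
  have hmeas : AEStronglyMeasurable (GB ρ) μ := by
    have h1 := (hj1.swap).integral_prod_left.aestronglyMeasurable
    have h2 := h1.const_mul ((volume.real B)⁻¹)
    refine h2.congr (Eventually.of_forall fun f => ?_)
    show (volume.real B)⁻¹ * _ = GB ρ f
    unfold GB
    rw [setAverage_eq, smul_eq_mul]
    simp [hB]
  rw [memLp_two_iff_integrable_sq hmeas]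
  have h1 := (hj.swap).integral_prod_left
  have h3 := h1.const_mul ((volume.real B)⁻¹)
  refine h3.mono' (hmeas.pow 2) (Eventually.of_forall fun f => ?_)
  rw [Real.norm_eq_abs, abs_of_nonneg (by positivity)]
  have hc : Continuous fun x : ℂ => |f x| := f.2.1.continuous.abs
  have h3 := (convexOn_pow (𝕜 := ℝ) 2).map_set_average_le (μ := volume) (t := B)
    (f := fun x : ℂ => |f x|) ((continuous_pow 2).continuousOn) isClosed_Ici
    (ball_pos (by linarith)) (ball_fin _)
    (Eventually.of_forall fun x => Set.mem_Ici.2 (abs_nonneg _))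
    (cont_ball hc _) (cont_ball (hc.pow 2) _)
  refine h3.trans (le_of_eq ?_)
  rw [setAverage_eq, smul_eq_mul]
  rfl

theorem GB_bound {ρ : ℝ} (hρ : 0 ≤ ρ) : ∃ C : ℝ, 0 ≤ C ∧ ∀ (f : MW) (y : ℂ), ‖y‖ ≤ ρ →
    |f y| ≤ C * GB ρ f := by
  set B := Metric.ball (0:ℂ) (ρ + 1) with hB
  have hV : 0 < volume.real B := by
    rw [measureReal_def]
    exact ENNReal.toReal_pos (ball_pos (by linarith)) (ball_fin _)
  have hF := FF_pos (le_refl (1:ℝ))
  refine ⟨1 / (Real.pi * FF 1) * volume.real B, by positivity, fun f y hy => ?_⟩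
  have h1 := KK_rep f.2.1 f.2.2 (le_refl (1:ℝ)) y
  have hc : Continuous fun x : ℂ => |f x| := f.2.1.continuous.abs
  have e1 : ∀ x : ℂ, KK 1 x * f (y + x) = (fun x => KK 1 (x - y) * f x) (x + y) := by
    intro x
    simp [add_comm]
  have h2 : ∫ x, KK 1 (x - y) * f x = f y := by
    rw [← h1]
    simp_rw [e1]
    rw [integral_add_right_eq_self (fun x => KK 1 (x - y) * f x) y]
  have h3 : ∀ x : ℂ, |KK 1 (x - y) * f x| ≤ B.indicator (fun x => 1 / (Real.pi * FF 1) * |f x|) x := by
    intro x
    by_cases hx : x ∈ B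
    · rw [Set.indicator_of_mem hx, abs_mul]
      exact mul_le_mul_of_nonneg_right (KK_bound le_rfl _) (abs_nonneg _)
    · rw [Set.indicator_of_notMem hx]
      have : KK 1 (x - y) = 0 := by
        unfold KK
        rw [Set.indicator_of_notMem]
        intro h
        rw [mem_ball_zero_iff] at h
        apply hx
        rw [hB, mem_ball_zero_iff]
        calc ‖x‖ = ‖(x - y) + y‖ := by rw [sub_add_cancel]
          _ ≤ ‖x - y‖ + ‖y‖ := norm_add_le _ _
          _ < ρ + 1 := by linarith
      rw [this, zero_mul, abs_zero]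
  have h4 : Integrable (B.indicator fun x => 1 / (Real.pi * FF 1) * |f x|) :=
    (integrable_indicator_iff Metric.isOpen_ball.measurableSet).2
      (cont_ball (continuous_const.mul hc) _)
  calc |f y| = ‖∫ x, KK 1 (x - y) * f x‖ := by rw [h2, Real.norm_eq_abs]
    _ ≤ ∫ x, B.indicator (fun x => 1 / (Real.pi * FF 1) * |f x|) x :=
        norm_integral_le_of_norm_le h4 (Eventually.of_forall h3)
    _ = 1 / (Real.pi * FF 1) * ∫ x in B, |f x| := by
        rw [integral_indicator Metric.isOpen_ball.measurableSet, integral_const_mul]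
    _ = _ := by
        unfold GB
        rw [setAverage_eq, smul_eq_mul]
        have : volume.real B ≠ 0 := hV.ne'
        simp only [hB] at this ⊢
        field_simp

/-- the joint moments of the values are continuous -/
theorem mom_cont (hs : IsStationary μ) (h0 : ∀ k : ℕ, Integrable (fun f : MW => f 0 ^ k) μ)
    {ι : Type*} [Fintype ι] [DecidableEq ι] (S : Finset ι) :
    Continuous fun z : ι → ℂ => mom μ (fun (j : ι) (f : MW) => f (z j)) S := by
  rw [continuous_iff_continuousAt]
  intro z₀
  obtain ⟨C, hC, hb⟩ := GB_bound (ρ := ‖z₀‖ + 1) (by positivity)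
  unfold mom
  refine continuousAt_of_dominated (bound := fun f => ∏ _j ∈ S, (C * GB (‖z₀‖ + 1) f)) ?_ ?_ ?_ ?_
  · exact Eventually.of_forall fun z =>
      (Finset.measurable_prod S fun j _ => meas_eval (z j)).aestronglyMeasurable
  · filter_upwards [Metric.ball_mem_nhds z₀ one_pos] with z hz
    refine Eventually.of_forall fun f => ?_
    rw [Real.norm_eq_abs, Finset.abs_prod]
    refine Finset.prod_le_prod (fun _ _ => abs_nonneg _) fun j _ => hb f (z j) ?_
    rw [mem_ball_iff_norm] at hz
    calc ‖z j‖ ≤ ‖z‖ := norm_le_pi_norm z j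
      _ = ‖(z - z₀) + z₀‖ := by rw [sub_add_cancel]
      _ ≤ ‖z - z₀‖ + ‖z₀‖ := norm_add_le _ _
      _ ≤ ‖z₀‖ + 1 := by linarith
  · exact (AllMom.prod S fun _ _ => (GB_mom hs h0 (by positivity)).cmul C).int
  · exact Eventually.of_forall fun f => (continuous_finsetProd S fun j _ =>
      f.2.1.continuous.comp (continuous_apply j)).continuousAt

theorem cum_cont (hs : IsStationary μ) (h0 : ∀ k : ℕ, Integrable (fun f : MW => f 0 ^ k) μ)
    {ι : Type*} [Fintype ι] [DecidableEq ι] (i : ι) : ∀ (n : ℕ) (S : Finset ι), S.card = n →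
    Continuous fun z : ι → ℂ => cum μ (fun (j : ι) (f : MW) => f (z j)) i S := by
  intro n
  induction n using Nat.strong_induction_on with
  | _ n ih =>
    intro S hn
    simp_rw [cum_eq _ _ i S]
    refine (mom_cont hs h0 _).sub (continuous_finsetSum _ fun T hT => ?_)
    rw [Finset.mem_ssubsets] at hT
    exact (ih T.card (by rw [← hn]; exact Finset.card_lt_card hT) T rfl).mul (mom_cont hs h0 _)

end

end Pool.Agent.Helper37.BC
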