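import Pool.Agent.Helper37.BC.Circ

/-!
# Reproducing kernels for the Helmholtz equation in the plane (MP_6b977f_mp)
-/

set_option autoImplicit false
open MeasureTheory Filter Topology Complex
open scoped ContDiff

namespace Pool.Agent.Helper37.BC

open Pool.Agent.W745.RW (lap dx dy)
open Pool.Agent.N661.BR (MW J0)

noncomputable section

theorem polar {g : ℂ → ℝ} (hg : Continuous g) {R : ℝ} (hR : 0 ≤ R) :
    ∫ y in Metric.ball (0:ℂ) R, g y =
      ∫ r in (0:ℝ)..R, r * ∫ θ in (0:ℝ)..(2 * Real.pi), g (r * ee θ) := by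
  have hpi : -Real.pi ≤ Real.pi := by linarith [Real.pi_pos]
  rw [← integral_indicator Metric.isOpen_ball.measurableSet, ← Complex.integral_comp_polarCoord_symm]
  have hsub : Set.Ioo 0 R ×ˢ Set.Ioo (-Real.pi) Real.pi ⊆ polarCoord.target := by
    rw [polarCoord_target]
    exact Set.prod_mono Set.Ioo_subset_Ioi_self le_rfl
  have e1 : ∀ p ∈ polarCoord.target, (p.1 • (Metric.ball (0:ℂ) R).indicator g
      (Complex.polarCoord.symm p) : ℝ) = (Set.Ioo 0 R ×ˢ Set.Ioo (-Real.pi) Real.pi).indicator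
        (fun p : ℝ × ℝ => p.1 * g (p.1 * ee p.2)) p := by
    intro p hp
    rw [polarCoord_target] at hp
    obtain ⟨h1, h2⟩ := hp
    have h1' : (0:ℝ) < p.1 := h1
    have e : Complex.polarCoord.symm p = p.1 * ee p.2 := by
      rw [Complex.polarCoord_symm_apply]
      unfold ee
      push_cast
      rfl
    have hn : ‖Complex.polarCoord.symm p‖ = p.1 := by
      rw [e, norm_mul, ee_norm, mul_one, Complex.norm_real, Real.norm_eq_abs, abs_of_pos h1']
    by_cases hr : p.1 < R
    · rw [Set.indicator_of_mem (show Complex.polarCoord.symm p ∈ Metric.ball (0:ℂ) R by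
          rw [mem_ball_zero_iff, hn]; exact hr),
        Set.indicator_of_mem (show p ∈ Set.Ioo 0 R ×ˢ Set.Ioo (-Real.pi) Real.pi from
          ⟨⟨h1', hr⟩, h2⟩), e, smul_eq_mul]
    · rw [Set.indicator_of_notMem (show Complex.polarCoord.symm p ∉ Metric.ball (0:ℂ) R by
          rw [mem_ball_zero_iff, hn]; exact hr),
        Set.indicator_of_notMem (show p ∉ Set.Ioo 0 R ×ˢ Set.Ioo (-Real.pi) Real.pi from
          fun h => hr h.1.2), smul_zero]
  have ht : MeasurableSet polarCoord.target := by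
    rw [polarCoord_target]; exact measurableSet_Ioi.prod measurableSet_Ioo
  rw [setIntegral_congr_fun ht e1, setIntegral_indicator
    (measurableSet_Ioo.prod measurableSet_Ioo), Set.inter_eq_right.2 hsub]
  have hc : Continuous fun p : ℝ × ℝ => p.1 * g (p.1 * ee p.2) :=
    continuous_fst.mul (hg.comp (by have := ee_cont; fun_prop))
  have hi : IntegrableOn (fun p : ℝ × ℝ => p.1 * g (p.1 * ee p.2))
      (Set.Ioo 0 R ×ˢ Set.Ioo (-Real.pi) Real.pi) (volume.prod volume) :=
    ((hc.continuousOn).integrableOn_compact (isCompact_Icc.prod isCompact_Icc)).mono_set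
      (Set.prod_mono Set.Ioo_subset_Icc_self Set.Ioo_subset_Icc_self)
  have e2 : (volume : Measure (ℝ × ℝ)) = volume.prod volume := rfl
  rw [e2, setIntegral_prod _ hi, intervalIntegral.integral_of_le hR,
    ← integral_Ioc_eq_integral_Ioo]
  refine integral_congr_ae (Eventually.of_forall fun r => ?_)
  show ∫ y in Set.Ioo (-Real.pi) Real.pi, r * g (r * ee y) = _
  rw [integral_const_mul]
  congr 1
  have hper : Function.Periodic (fun θ : ℝ => g (r * ee θ)) (2 * Real.pi) := by
    intro θ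
    show g (r * ee (θ + 2 * Real.pi)) = g (r * ee θ)
    have : ee (θ + 2 * Real.pi) = ee θ := by unfold ee; simp
    rw [this]
  have h3 := hper.intervalIntegral_add_eq (-Real.pi) 0
  rw [zero_add, show -Real.pi + 2 * Real.pi = Real.pi by ring] at h3
  rw [← h3, intervalIntegral.integral_of_le hpi, ← integral_Ioc_eq_integral_Ioo]

theorem J0_cont : Continuous J0 :=
  continuous_iff_continuousAt.2 fun r => (J0_deriv r).continuousAt

/-- `2 ∫_0^r s J₀(s)² ds` -/
def FF (r : ℝ) : ℝ := r ^ 2 * (J0 r ^ 2 + J0' r ^ 2)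

theorem FF_deriv (r : ℝ) : HasDerivAt FF (2 * (r * J0 r ^ 2)) r := by
  have h1 := (hasDerivAt_pow 2 r).fun_mul
    (((J0_deriv r).fun_pow 2).fun_add ((J0'_deriv r).fun_pow 2))
  refine h1.congr_deriv ?_
  have h2 := J0_ode r
  simp only [Nat.cast_ofNat, Nat.add_one_sub_one, pow_one]
  linear_combination 2 * r * J0' r * h2

theorem int_J0 (R : ℝ) : ∫ r in (0:ℝ)..R, r * J0 r ^ 2 = FF R / 2 := by
  have h1 := intervalIntegral.integral_eq_sub_of_hasDerivAt (a := 0) (b := R)
    (fun r _ => FF_deriv r)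
    ((continuous_const.mul (continuous_id'.mul (J0_cont.pow 2))).intervalIntegrable _ _)
  rw [intervalIntegral.integral_const_mul] at h1
  have : FF 0 = 0 := by unfold FF; ring
  rw [this] at h1
  linarith

/-- the energy -/
def GG (r : ℝ) : ℝ := r * (J0 r ^ 2 + J0' r ^ 2) + J0 r * J0' r

theorem GG_deriv (r : ℝ) (hr : 0 < r) : HasDerivAt GG (-(J0 r * J0' r / r)) r := by
  have h1 := ((hasDerivAt_id' r).fun_mul
    (((J0_deriv r).fun_pow 2).fun_add ((J0'_deriv r).fun_pow 2))).fun_add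
    ((J0_deriv r).fun_mul (J0'_deriv r))
  refine h1.congr_deriv ?_
  have h2 := J0_ode r
  simp only [Nat.cast_ofNat, Nat.add_one_sub_one, pow_one]
  have h3 : J0'' r = -(J0' r) / r - J0 r := by
    field_simp
    linarith
  rw [h3]
  field_simp
  ring

theorem GG_le (r : ℝ) : GG r ≤ (r + 1 / 2) * (J0 r ^ 2 + J0' r ^ 2) := by
  unfold GG
  nlinarith [sq_nonneg (J0 r - J0' r)]

theorem GG_ge (r : ℝ) : (r - 1 / 2) * (J0 r ^ 2 + J0' r ^ 2) ≤ GG r := by
  unfold GG
  nlinarith [sq_nonneg (J0 r + J0' r)]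

theorem mono_GG : MonotoneOn (fun r => GG r * (1 - 1 / (2 * r))) (Set.Ici 1) := by
  have hd : ∀ r : ℝ, 0 < r → HasDerivAt (fun r => GG r * (1 - 1 / (2 * r)))
      (-(J0 r * J0' r / r) * (1 - 1 / (2 * r)) + GG r * (1 / (2 * r ^ 2))) r := by
    intro r hr
    have h1 : HasDerivAt (fun r : ℝ => 1 - 1 / (2 * r)) (1 / (2 * r ^ 2)) r := by
      have h2 := ((hasDerivAt_inv hr.ne').const_mul (1 / 2)).const_sub 1
      refine (h2.congr_deriv ?_).congr_of_eventuallyEq (Eventually.of_forall fun x => ?_)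
      · field_simp
      · show 1 - 1 / (2 * x) = 1 - 1 / 2 * x⁻¹
        rw [one_div, mul_inv]
        ring
    exact (GG_deriv r hr).fun_mul h1
  refine monotoneOn_of_deriv_nonneg (convex_Ici 1)
    (fun x hx => (hd x (lt_of_lt_of_le one_pos hx)).continuousAt.continuousWithinAt)
    (fun x hx => ?_) fun x hx => ?_
  · rw [interior_Ici] at hx
    exact (hd x (lt_trans one_pos hx)).differentiableAt.differentiableWithinAt
  · rw [interior_Ici] at hx
    have hx1 : (1:ℝ) < x := hx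
    rw [(hd x (lt_trans one_pos hx)).deriv]
    have h3 : -(J0 x * J0' x / x) * (1 - 1 / (2 * x)) + GG x * (1 / (2 * x ^ 2)) =
        (x * (J0 x - J0' x) ^ 2 / 2 + J0 x * J0' x) / x ^ 2 := by
      unfold GG
      field_simp
      ring
    rw [h3]
    refine div_nonneg ?_ (by positivity)
    nlinarith [sq_nonneg (J0 x - J0' x), sq_nonneg (J0 x + J0' x),
      mul_nonneg (sub_nonneg.2 hx1.le) (sq_nonneg (J0 x - J0' x))]

theorem J0_one : 0 < J0 1 := by
  have h1 : ∀ α : ℝ, Real.cos 1 ≤ Real.cos (1 * Real.cos α) := by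
    intro α
    rw [one_mul, ← Real.cos_abs (Real.cos α)]
    exact Real.cos_le_cos_of_nonneg_of_le_pi (abs_nonneg _) (by linarith [Real.pi_gt_three])
      (Real.abs_cos_le_one α)
  have h2 : ∫ α in (0:ℝ)..(2 * Real.pi), Real.cos 1 ≤
      ∫ α in (0:ℝ)..(2 * Real.pi), Real.cos (1 * Real.cos α) :=
    intervalIntegral.integral_mono_on (by positivity) intervalIntegrable_const
      (Continuous.intervalIntegrable (by fun_prop) _ _) fun α _ => h1 α
  rw [intervalIntegral.integral_const, sub_zero, smul_eq_mul] at h2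
  unfold J0
  have h3 := Real.cos_one_pos
  have : 0 < 2 * Real.pi * Real.cos 1 := by positivity
  have h4 : 0 < ∫ α in (0:ℝ)..(2 * Real.pi), Real.cos (1 * Real.cos α) := lt_of_lt_of_le this h2
  positivity

/-- the lower bound for the mass of the Bessel function -/
theorem FF_lower : ∃ c : ℝ, 0 < c ∧ ∀ r : ℝ, 1 ≤ r → c * r ≤ FF r := by
  have h1 : 0 < GG 1 := by
    unfold GG
    have := J0_one
    nlinarith [sq_nonneg (J0 1 + 2 * J0' 1), mul_pos this this]
  refine ⟨GG 1 / 3, by positivity, fun r hr => ?_⟩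
  have h2 := mono_GG (Set.mem_Ici.2 le_rfl) (Set.mem_Ici.2 hr) hr
  simp only [mul_one] at h2
  have h3 : 0 ≤ 1 - 1 / (2 * r) := by
    rw [sub_nonneg, div_le_one (by positivity)]
    linarith
  have h4 : 1 - 1 / (2 * r) ≤ 1 := by
    have : 0 ≤ 1 / (2 * r) := by positivity
    linarith
  have h5 := GG_ge r
  have h5' : 0 ≤ GG r := le_trans (mul_nonneg (by linarith) (by positivity)) h5
  have h6 : GG 1 * (1 - 1 / 2) ≤ GG r := h2.trans (by nlinarith)
  have h7 := GG_le r
  unfold FF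
  have h8 : (r + 1 / 2) * (J0 r ^ 2 + J0' r ^ 2) ≤ (3 / 2 * r) * (J0 r ^ 2 + J0' r ^ 2) :=
    mul_le_mul_of_nonneg_right (by linarith) (by positivity)
  have h9 : GG 1 * (1 / 3) ≤ r * (J0 r ^ 2 + J0' r ^ 2) := by linarith
  nlinarith [mul_le_mul_of_nonneg_left h9 (by linarith : (0:ℝ) ≤ r)]

/-- the reproducing kernel of the disc of radius `R` -/
def KK (R : ℝ) (y : ℂ) : ℝ := (Metric.ball (0:ℂ) R).indicator (fun y => J0 ‖y‖ / (Real.pi * FF R)) y

theorem FF_pos {R : ℝ} (hR : 1 ≤ R) : 0 < FF R := by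
  obtain ⟨c, hc, h⟩ := FF_lower
  exact lt_of_lt_of_le (by positivity) (h R hR)

theorem J0_le (r : ℝ) : |J0 r| ≤ 1 := by
  unfold J0
  rw [abs_mul, abs_of_nonneg (by positivity : 0 ≤ 1 / (2 * Real.pi))]
  have h1 : ‖∫ α in (0:ℝ)..(2 * Real.pi), Real.cos (r * Real.cos α)‖ ≤ 1 * |2 * Real.pi - 0| :=
    intervalIntegral.norm_integral_le_of_norm_le_const fun x _ => Real.abs_cos_le_one _
  rw [sub_zero, one_mul, abs_of_nonneg (by positivity), Real.norm_eq_abs] at h1
  calc 1 / (2 * Real.pi) * |∫ α in (0:ℝ)..(2 * Real.pi), Real.cos (r * Real.cos α)| ≤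
      1 / (2 * Real.pi) * (2 * Real.pi) := by gcongr
    _ = 1 := by field_simp

theorem KK_meas (R : ℝ) : Measurable (KK R) :=
  ((J0_cont.comp continuous_norm).div_const _).measurable.indicator Metric.isOpen_ball.measurableSet

theorem KK_bound {R : ℝ} (hR : 1 ≤ R) (y : ℂ) : |KK R y| ≤ 1 / (Real.pi * FF R) := by
  unfold KK
  have := FF_pos hR
  by_cases h : y ∈ Metric.ball (0:ℂ) R
  · rw [Set.indicator_of_mem h, abs_div, abs_of_pos (a := Real.pi * FF R) (by positivity)]
    gcongr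
    exact J0_le _
  · rw [Set.indicator_of_notMem h, abs_zero]
    positivity

/-- **the reproducing property** -/
theorem KK_rep {f : ℂ → ℝ} (hf : ContDiff ℝ ∞ f) (hl : ∀ y, lap f y + f y = 0) {R : ℝ} (hR : 1 ≤ R)
    (z : ℂ) : ∫ y, KK R y * f (z + y) = f z := by
  have h0 := FF_pos hR
  have hc : Continuous fun y : ℂ => J0 ‖y‖ * f (z + y) :=
    (J0_cont.comp continuous_norm).mul (hf.continuous.comp (by fun_prop))
  have h1 : ∀ y : ℂ, KK R y * f (z + y) = (Metric.ball (0:ℂ) R).indicator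
      (fun y => (1 / (Real.pi * FF R)) * (J0 ‖y‖ * f (z + y))) y := by
    intro y
    unfold KK
    by_cases h : y ∈ Metric.ball (0:ℂ) R
    · rw [Set.indicator_of_mem h, Set.indicator_of_mem h]; ring
    · rw [Set.indicator_of_notMem h, Set.indicator_of_notMem h, zero_mul]
  simp_rw [h1]
  rw [integral_indicator Metric.isOpen_ball.measurableSet, integral_const_mul,
    polar hc (by linarith)]
  have h2 : ∫ r in (0:ℝ)..R, r * ∫ θ in (0:ℝ)..(2 * Real.pi), J0 ‖(r:ℂ) * ee θ‖ * f (z + r * ee θ) =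
      ∫ r in (0:ℝ)..R, (2 * Real.pi * f z) * (r * J0 r ^ 2) := by
    refine intervalIntegral.integral_congr fun r hr => ?_
    rw [Set.uIcc_of_le (by linarith)] at hr
    have hn : ∀ θ : ℝ, ‖(r:ℂ) * ee θ‖ = r := fun θ => by
      rw [norm_mul, ee_norm, mul_one, Complex.norm_real, Real.norm_eq_abs, abs_of_nonneg hr.1]
    show r * ∫ θ in (0:ℝ)..(2 * Real.pi), J0 ‖(r:ℂ) * ee θ‖ * f (z + r * ee θ) = _
    simp_rw [hn]
    rw [intervalIntegral.integral_const_mul]
    have := AA_eq hf hl z hr.1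
    unfold AA at this
    rw [this]
    ring
  rw [h2, intervalIntegral.integral_const_mul, int_J0]
  have := Real.pi_ne_zero
  field_simp

/-- the `L²` norm of the kernel -/
theorem KK_sq {R : ℝ} (hR : 1 ≤ R) : ∫ y, KK R y ^ 2 = 1 / (Real.pi * FF R) := by
  have h0 := FF_pos hR
  have h1 : ∀ y : ℂ, KK R y ^ 2 = (Metric.ball (0:ℂ) R).indicator
      (fun y => (1 / (Real.pi * FF R)) ^ 2 * J0 ‖y‖ ^ 2) y := by
    intro y
    unfold KK
    by_cases h : y ∈ Metric.ball (0:ℂ) R
    · rw [Set.indicator_of_mem h, Set.indicator_of_mem h]; ring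
    · rw [Set.indicator_of_notMem h, Set.indicator_of_notMem h]; ring
  simp_rw [h1]
  have hc : Continuous fun y : ℂ => J0 ‖y‖ ^ 2 := (J0_cont.comp continuous_norm).pow 2
  rw [integral_indicator Metric.isOpen_ball.measurableSet, integral_const_mul,
    polar hc (by linarith)]
  have h2 : ∫ r in (0:ℝ)..R, r * ∫ θ in (0:ℝ)..(2 * Real.pi), J0 ‖(r:ℂ) * ee θ‖ ^ 2 =
      ∫ r in (0:ℝ)..R, (2 * Real.pi) * (r * J0 r ^ 2) := by
    refine intervalIntegral.integral_congr fun r hr => ?_
    rw [Set.uIcc_of_le (by linarith)] at hr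
    have hn : ∀ θ : ℝ, ‖(r:ℂ) * ee θ‖ = r := fun θ => by
      rw [norm_mul, ee_norm, mul_one, Complex.norm_real, Real.norm_eq_abs, abs_of_nonneg hr.1]
    show r * ∫ θ in (0:ℝ)..(2 * Real.pi), J0 ‖(r:ℂ) * ee θ‖ ^ 2 = _
    simp_rw [hn]
    rw [intervalIntegral.integral_const, sub_zero, smul_eq_mul]
    ring
  rw [h2, intervalIntegral.integral_const_mul, int_J0]
  have := Real.pi_ne_zero
  field_simp

end

end Pool.Agent.Helper37.BC
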