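import Pool.Graph.R_pool_sql_team_seeded_63374d34.N661.BR.Defs

/-!
# Circular means of solutions of the Helmholtz equation (MP_6b977f_mp)
-/

set_option autoImplicit false
open MeasureTheory Filter Topology Complex
open scoped ContDiff

namespace Pool.Agent.Helper37.BC

open Pool.Agent.W745.RW (lap dx dy)
open Pool.Agent.N661.BR (MW J0)

noncomputable section

/-- differentiation under the integral sign, for continuous derivatives -/
theorem deriv_int {F F' : ℝ → ℝ → ℝ} (hF : ∀ r θ, HasDerivAt (fun r => F r θ) (F' r θ) r)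
    (hc : Continuous (Function.uncurry F')) (hcF : ∀ r, Continuous (F r)) (a b r : ℝ) :
    HasDerivAt (fun r => ∫ θ in a..b, F r θ) (∫ θ in a..b, F' r θ) r := by
  obtain ⟨C, hC⟩ := ((isCompact_closedBall r 1).prod (isCompact_uIcc (a := a) (b := b))).exists_bound_of_continuousOn
    hc.continuousOn
  refine (intervalIntegral.hasDerivAt_integral_of_dominated_loc_of_deriv_le (F := F) (F' := F')
    (bound := fun _ => C) (Metric.ball_mem_nhds r one_pos) ?_ ?_ ?_ ?_ ?_ ?_).2
  · exact Eventually.of_forall fun x => (hcF x).aestronglyMeasurable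
  · exact (hcF r).intervalIntegrable _ _
  · exact (hc.comp (by fun_prop : Continuous fun θ : ℝ => (r, θ))).aestronglyMeasurable
  · refine Eventually.of_forall fun θ hθ x hx => ?_
    exact hC (x, θ) ⟨Metric.ball_subset_closedBall hx, Set.uIoc_subset_uIcc hθ⟩
  · exact intervalIntegrable_const
  · exact Eventually.of_forall fun θ _ x _ => hF x θ

/-- unit vectors -/
def ee (θ : ℝ) : ℂ := (Real.cos θ : ℂ) + (Real.sin θ : ℂ) * I
def nn (θ : ℝ) : ℂ := -(Real.sin θ : ℂ) + (Real.cos θ : ℂ) * I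

theorem ee_cont : Continuous ee := by unfold ee; fun_prop
theorem nn_cont : Continuous nn := by unfold nn; fun_prop

theorem ee_deriv (θ : ℝ) : HasDerivAt ee (nn θ) θ := by
  unfold ee nn
  have h1 : HasDerivAt (fun θ : ℝ => (Real.cos θ : ℂ)) ((-Real.sin θ : ℝ) : ℂ) θ :=
    (Real.hasDerivAt_cos θ).ofReal_comp
  have h2 : HasDerivAt (fun θ : ℝ => (Real.sin θ : ℂ)) ((Real.cos θ : ℝ) : ℂ) θ :=
    (Real.hasDerivAt_sin θ).ofReal_comp
  exact (h1.fun_add (h2.mul_const I)).congr_deriv (by push_cast; ring)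

theorem nn_deriv (θ : ℝ) : HasDerivAt nn (-ee θ) θ := by
  unfold ee nn
  have h1 : HasDerivAt (fun θ : ℝ => (Real.cos θ : ℂ)) ((-Real.sin θ : ℝ) : ℂ) θ :=
    (Real.hasDerivAt_cos θ).ofReal_comp
  have h2 : HasDerivAt (fun θ : ℝ => (Real.sin θ : ℂ)) ((Real.cos θ : ℝ) : ℂ) θ :=
    (Real.hasDerivAt_sin θ).ofReal_comp
  exact (h2.fun_neg.fun_add (h1.mul_const I)).congr_deriv (by push_cast; ring)

theorem ee_exp (θ : ℝ) : ee θ = Complex.exp (θ * I) := by
  unfold ee
  rw [Complex.exp_mul_I]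
  push_cast
  ring

theorem ee_norm (θ : ℝ) : ‖ee θ‖ = 1 := by
  rw [ee_exp, Complex.norm_exp_ofReal_mul_I]

theorem ee_per : ee (2 * Real.pi) = ee 0 := by
  unfold ee; simp

theorem nn_per : nn (2 * Real.pi) = nn 0 := by
  unfold nn; simp

variable {f : ℂ → ℝ}

/-- the first derivative -/
def D1 (f : ℂ → ℝ) : ℂ → ℂ →L[ℝ] ℝ := fderiv ℝ f
/-- the second derivative -/
def D2 (f : ℂ → ℝ) : ℂ → ℂ →L[ℝ] ℂ →L[ℝ] ℝ := fderiv ℝ (fderiv ℝ f)

theorem D1_smooth (hf : ContDiff ℝ ∞ f) : ContDiff ℝ ∞ (D1 f) := hf.fderiv_right (by norm_cast)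
theorem D2_smooth (hf : ContDiff ℝ ∞ f) : ContDiff ℝ ∞ (D2 f) :=
  (D1_smooth hf).fderiv_right (by norm_cast)

theorem D1_has (hf : ContDiff ℝ ∞ f) (y : ℂ) : HasFDerivAt f (D1 f y) y :=
  (hf.differentiable (by simp) y).hasFDerivAt
theorem D2_has (hf : ContDiff ℝ ∞ f) (y : ℂ) : HasFDerivAt (D1 f) (D2 f y) y :=
  ((D1_smooth hf).differentiable (by simp) y).hasFDerivAt

theorem lap_D2 (hf : ContDiff ℝ ∞ f) (y : ℂ) : lap f y = D2 f y 1 1 + D2 f y I I := by
  unfold lap
  have key : ∀ v : ℂ, fderiv ℝ (fun z => fderiv ℝ f z v) y v = D2 f y v v := by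
    intro v
    have h1 : HasFDerivAt (fun z => fderiv ℝ f z v) ((D2 f y).flip v) y := by
      have := (D2_has hf y).clm_apply (hasFDerivAt_const v y)
      refine this.congr_fderiv ?_
      ext w
      simp
    rw [h1.fderiv]
    rfl
  exact congrArg₂ (· + ·) (key 1) (key I)

theorem D2_rot (y : ℂ) (θ : ℝ) : D2 f y (ee θ) (ee θ) + D2 f y (nn θ) (nn θ) =
    D2 f y 1 1 + D2 f y I I := by
  have he : ee θ = Real.cos θ • (1 : ℂ) + Real.sin θ • I := by unfold ee; simp
  have hn : nn θ = (-Real.sin θ) • (1 : ℂ) + Real.cos θ • I := by unfold nn; simp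
  rw [he, hn]
  simp only [map_add, map_smul, add_apply, smul_apply,
    smul_eq_mul]
  have := Real.sin_sq_add_cos_sq θ
  linear_combination (D2 f y 1 1 + D2 f y I I) * this

/-- the circular mean, times `2π` -/
def AA (f : ℂ → ℝ) (z : ℂ) (r : ℝ) : ℝ := ∫ θ in (0:ℝ)..(2 * Real.pi), f (z + r * ee θ)
def AA1 (f : ℂ → ℝ) (z : ℂ) (r : ℝ) : ℝ := ∫ θ in (0:ℝ)..(2 * Real.pi), D1 f (z + r * ee θ) (ee θ)
def AA2 (f : ℂ → ℝ) (z : ℂ) (r : ℝ) : ℝ :=
  ∫ θ in (0:ℝ)..(2 * Real.pi), D2 f (z + r * ee θ) (ee θ) (ee θ)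

theorem ray (z : ℂ) (θ r : ℝ) : HasDerivAt (fun r : ℝ => z + (r : ℂ) * ee θ) (ee θ) r := by
  have h := ((Complex.ofRealCLM.hasDerivAt (x := r)).mul_const (ee θ)).const_add z
  simpa using h

theorem AA_deriv (hf : ContDiff ℝ ∞ f) (z : ℂ) (r : ℝ) : HasDerivAt (AA f z) (AA1 f z r) r := by
  refine deriv_int (F := fun r θ => f (z + r * ee θ)) (F' := fun r θ => D1 f (z + r * ee θ) (ee θ))
    (fun r θ => ?_) ?_ (fun r => ?_) _ _ r
  · exact (D1_has hf _).comp_hasDerivAt r (ray z θ r)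
  · have h1 : Continuous fun p : ℝ × ℝ => D1 f (z + p.1 * ee p.2) :=
      (D1_smooth hf).continuous.comp (by have := ee_cont; fun_prop)
    exact h1.clm_apply (ee_cont.comp continuous_snd)
  · exact hf.continuous.comp (by have := ee_cont; fun_prop)

theorem AA1_deriv (hf : ContDiff ℝ ∞ f) (z : ℂ) (r : ℝ) : HasDerivAt (AA1 f z) (AA2 f z r) r := by
  refine deriv_int (F := fun r θ => D1 f (z + r * ee θ) (ee θ))
    (F' := fun r θ => D2 f (z + r * ee θ) (ee θ) (ee θ)) (fun r θ => ?_) ?_ (fun r => ?_) _ _ r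
  · have h1 : HasDerivAt (fun r : ℝ => D1 f (z + r * ee θ)) (D2 f (z + r * ee θ) (ee θ)) r :=
      (D2_has hf _).comp_hasDerivAt r (ray z θ r)
    have := h1.clm_apply (hasDerivAt_const r (ee θ))
    simpa using this
  · have h1 : Continuous fun p : ℝ × ℝ => D2 f (z + p.1 * ee p.2) :=
      (D2_smooth hf).continuous.comp (by have := ee_cont; fun_prop)
    exact (h1.clm_apply (ee_cont.comp continuous_snd)).clm_apply (ee_cont.comp continuous_snd)
  · have h1 : Continuous fun θ : ℝ => D1 f (z + r * ee θ) :=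
      (D1_smooth hf).continuous.comp (by have := ee_cont; fun_prop)
    exact h1.clm_apply ee_cont

/-- the Bessel equation -/
theorem AA_ode (hf : ContDiff ℝ ∞ f) (hl : ∀ y, lap f y + f y = 0) (z : ℂ) (r : ℝ) :
    r * AA2 f z r + AA1 f z r + r * AA f z r = 0 := by
  -- the integral of the derivative in `θ`
  have hd : ∀ θ : ℝ, HasDerivAt (fun θ : ℝ => D1 f (z + r * ee θ) (nn θ))
      (r * D2 f (z + r * ee θ) (nn θ) (nn θ) - D1 f (z + r * ee θ) (ee θ)) θ := by
    intro θ
    have h0 : HasDerivAt (fun θ : ℝ => z + (r : ℂ) * ee θ) (r * nn θ) θ :=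
      ((ee_deriv θ).const_mul (r : ℂ)).const_add z
    have h1 : HasDerivAt (fun θ : ℝ => D1 f (z + r * ee θ)) (D2 f (z + r * ee θ) (r * nn θ)) θ :=
      (D2_has hf _).comp_hasDerivAt θ h0
    have h2 := h1.clm_apply (nn_deriv θ)
    refine h2.congr_deriv ?_
    have e : (r : ℂ) * nn θ = r • nn θ := by simp
    rw [e, map_smul, smul_apply, map_neg]
    simp only [smul_eq_mul]
    ring
  have cD1 : Continuous fun θ : ℝ => D1 f (z + r * ee θ) :=
    (D1_smooth hf).continuous.comp (by have := ee_cont; fun_prop)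
  have cD2 : Continuous fun θ : ℝ => D2 f (z + r * ee θ) :=
    (D2_smooth hf).continuous.comp (by have := ee_cont; fun_prop)
  have c1 : Continuous fun θ : ℝ => D1 f (z + r * ee θ) (ee θ) := cD1.clm_apply ee_cont
  have c2 : Continuous fun θ : ℝ => D2 f (z + r * ee θ) (nn θ) (nn θ) :=
    (cD2.clm_apply nn_cont).clm_apply nn_cont
  have c3 : Continuous fun θ : ℝ => D2 f (z + r * ee θ) (ee θ) (ee θ) :=
    (cD2.clm_apply ee_cont).clm_apply ee_cont
  have c0 : Continuous fun θ : ℝ => f (z + r * ee θ) :=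
    hf.continuous.comp (by have := ee_cont; fun_prop)
  have h1 : ∫ θ in (0:ℝ)..(2 * Real.pi),
      (r * D2 f (z + r * ee θ) (nn θ) (nn θ) - D1 f (z + r * ee θ) (ee θ)) = 0 := by
    rw [intervalIntegral.integral_eq_sub_of_hasDerivAt (fun θ _ => hd θ)
      (((c2.const_mul r).sub c1).intervalIntegrable _ _), ee_per, nn_per, sub_self]
  have h2 : ∀ θ : ℝ, D2 f (z + r * ee θ) (nn θ) (nn θ) =
      - f (z + r * ee θ) - D2 f (z + r * ee θ) (ee θ) (ee θ) := by
    intro θ
    have a1 := D2_rot (f := f) (z + r * ee θ) θ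
    have a2 := lap_D2 hf (z + r * ee θ)
    have a3 := hl (z + r * ee θ)
    linarith
  simp_rw [h2] at h1
  have h3 : ∫ θ in (0:ℝ)..(2 * Real.pi),
      (r * (- f (z + r * ee θ) - D2 f (z + r * ee θ) (ee θ) (ee θ)) -
        D1 f (z + r * ee θ) (ee θ)) = -(r * AA2 f z r + AA1 f z r + r * AA f z r) := by
    unfold AA AA1 AA2
    have e1 : ∀ θ : ℝ, (r * (- f (z + r * ee θ) - D2 f (z + r * ee θ) (ee θ) (ee θ)) -
        D1 f (z + r * ee θ) (ee θ)) = (-r) * D2 f (z + r * ee θ) (ee θ) (ee θ) -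
        D1 f (z + r * ee θ) (ee θ) - r * f (z + r * ee θ) := fun θ => by ring
    simp_rw [e1]
    have i1 := (c3.const_mul (-r)).intervalIntegrable (μ := volume) 0 (2 * Real.pi)
    have i2 := c1.intervalIntegrable (μ := volume) 0 (2 * Real.pi)
    have i3 := (c0.const_mul r).intervalIntegrable (μ := volume) 0 (2 * Real.pi)
    rw [intervalIntegral.integral_sub (i1.sub i2) i3, intervalIntegral.integral_sub i1 i2,
      intervalIntegral.integral_const_mul, intervalIntegral.integral_const_mul]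
    ring
  rw [h3] at h1
  linarith

/-- a plane wave -/
theorem wave_smooth : ContDiff ℝ ∞ (fun y : ℂ => Real.cos y.re) := by
  exact Real.contDiff_cos.comp Complex.reCLM.contDiff

theorem wave_eq (y : ℂ) : lap (fun y : ℂ => Real.cos y.re) y + Real.cos y.re = 0 := by
  have h1 : dx (fun y : ℂ => Real.cos y.re) = fun y => -Real.sin y.re := by
    funext z
    have : HasFDerivAt (fun y : ℂ => Real.cos y.re) (-Real.sin z.re • Complex.reCLM) z :=
      (Real.hasDerivAt_cos z.re).comp_hasFDerivAt z Complex.reCLM.hasFDerivAt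
    show fderiv ℝ _ z 1 = _
    rw [this.fderiv]
    simp
  have h2 : dy (fun y : ℂ => Real.cos y.re) = fun y => 0 := by
    funext z
    have : HasFDerivAt (fun y : ℂ => Real.cos y.re) (-Real.sin z.re • Complex.reCLM) z :=
      (Real.hasDerivAt_cos z.re).comp_hasFDerivAt z Complex.reCLM.hasFDerivAt
    show fderiv ℝ _ z I = _
    rw [this.fderiv]
    simp
  unfold lap
  rw [h1, h2]
  have h3 : dx (fun y : ℂ => -Real.sin y.re) y = -Real.cos y.re := by
    have : HasFDerivAt (fun y : ℂ => Real.sin y.re) (Real.cos y.re • Complex.reCLM) y :=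
      (Real.hasDerivAt_sin y.re).comp_hasFDerivAt y Complex.reCLM.hasFDerivAt
    show fderiv ℝ _ y 1 = _
    rw [this.fun_neg.fderiv]
    simp
  have h4 : dy (fun _ : ℂ => (0 : ℝ)) y = 0 := by
    show fderiv ℝ (fun _ : ℂ => (0 : ℝ)) y I = 0
    simp
  rw [h3, h4]
  ring

theorem J0_AA (r : ℝ) : J0 r = 1 / (2 * Real.pi) * AA (fun y : ℂ => Real.cos y.re) 0 r := by
  unfold J0 AA
  congr 1
  refine intervalIntegral.integral_congr fun θ _ => ?_
  unfold ee
  simp only [zero_add, Complex.re_ofReal_mul, Complex.add_re, Complex.ofReal_re, Complex.mul_re,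
    Complex.I_re, Complex.I_im, Complex.ofReal_im, mul_zero, zero_mul, sub_zero, add_zero]

/-- first and second derivatives of the Bessel function -/
def J0' (r : ℝ) : ℝ := 1 / (2 * Real.pi) * AA1 (fun y : ℂ => Real.cos y.re) 0 r
def J0'' (r : ℝ) : ℝ := 1 / (2 * Real.pi) * AA2 (fun y : ℂ => Real.cos y.re) 0 r

theorem J0_deriv (r : ℝ) : HasDerivAt J0 (J0' r) r := by
  have := (AA_deriv wave_smooth 0 r).const_mul (1 / (2 * Real.pi))
  refine this.congr_of_eventuallyEq (Eventually.of_forall fun x => J0_AA x)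

theorem J0'_deriv (r : ℝ) : HasDerivAt J0' (J0'' r) r :=
  (AA1_deriv wave_smooth 0 r).const_mul (1 / (2 * Real.pi))

theorem J0_ode (r : ℝ) : r * J0'' r + J0' r + r * J0 r = 0 := by
  have := AA_ode wave_smooth wave_eq 0 r
  rw [J0_AA]
  unfold J0' J0''
  linear_combination (1 / (2 * Real.pi)) * this

theorem J0_zero : J0 0 = 1 := by
  unfold J0
  simp
  field_simp

/-- uniqueness for the Bessel equation -/
theorem ode_unique {w w' w'' : ℝ → ℝ} (h1 : ∀ r, HasDerivAt w (w' r) r)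
    (h2 : ∀ r, HasDerivAt w' (w'' r) r) (h : ∀ r, r * w'' r + w' r + r * w r = 0)
    (h0 : w 0 = 0) (r : ℝ) (hr : 0 ≤ r) : w r = 0 := by
  have e0 : w' 0 = 0 := by have := h 0; simpa using this
  have hE : ∀ r, HasDerivAt (fun r => w r ^ 2 + w' r ^ 2) (2 * w r * w' r + 2 * w' r * w'' r) r := by
    intro r
    exact (((h1 r).fun_pow 2).fun_add ((h2 r).fun_pow 2)).congr_deriv (by simp)
  have hanti : AntitoneOn (fun r => w r ^ 2 + w' r ^ 2) (Set.Ici 0) := by
    refine antitoneOn_of_deriv_nonpos (convex_Ici 0)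
      (fun x _ => (hE x).continuousAt.continuousWithinAt)
      (fun x _ => (hE x).differentiableAt.differentiableWithinAt) fun x hx => ?_
    rw [interior_Ici] at hx
    have hx' : (0 : ℝ) < x := hx
    rw [(hE x).deriv]
    have h3 := h x
    have h4 : x * (2 * w x * w' x + 2 * w' x * w'' x) = -2 * w' x ^ 2 := by
      linear_combination 2 * w' x * h3
    by_contra hc
    push Not at hc
    have := mul_pos hx' hc
    rw [h4] at this
    nlinarith [sq_nonneg (w' x)]
  have h5 := hanti (Set.mem_Ici.2 le_rfl) (Set.mem_Ici.2 hr) hr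
  simp only [h0, e0] at h5
  have h6 : w r ^ 2 ≤ 0 := by nlinarith [sq_nonneg (w' r)]
  exact pow_eq_zero_iff (two_ne_zero) |>.1 (le_antisymm h6 (sq_nonneg _))

/-- **the mean value property** -/
theorem AA_eq (hf : ContDiff ℝ ∞ f) (hl : ∀ y, lap f y + f y = 0) (z : ℂ) {r : ℝ} (hr : 0 ≤ r) :
    AA f z r = 2 * Real.pi * J0 r * f z := by
  have key := ode_unique (w := fun r => AA f z r - 2 * Real.pi * f z * J0 r)
    (w' := fun r => AA1 f z r - 2 * Real.pi * f z * J0' r)
    (w'' := fun r => AA2 f z r - 2 * Real.pi * f z * J0'' r)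
    (fun r => (AA_deriv hf z r).sub ((J0_deriv r).const_mul _))
    (fun r => (AA1_deriv hf z r).sub ((J0'_deriv r).const_mul _))
    (fun r => by
      have a1 := AA_ode hf hl z r
      have a2 := J0_ode r
      linear_combination a1 - 2 * Real.pi * f z * a2)
    (by
      rw [J0_zero]
      unfold AA
      simp) r hr
  have : AA f z r - 2 * Real.pi * f z * J0 r = 0 := key
  linarith

end

end Pool.Agent.Helper37.BC
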