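import Pool.Graph.R_pool_sql_team_seeded_63374d34.N661.BR.Defs
import Pool.Agent.Helper37.BC.Cum

/-!
# Truncated correlation functions of random waves: definitions (MP_6b977f_mp)

The joint cumulants `cum` are defined in `Pool.Agent.Helper37.BC.Cum`.
-/

set_option autoImplicit false
open MeasureTheory Filter Topology ProbabilityTheory
open scoped ContDiff ENNReal

namespace Pool.Agent.Helper37.BC

open Pool.Agent.N661.BR (MW lin)

noncomputable section

/-- the truncated correlation function of the law `μ` on `MW`: the joint cumulant of the values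
`f (z 0), …, f (z n)` -/
def trunc (μ : Measure MW) {n : ℕ} (z : Fin (n + 1) → ℂ) : ℝ :=
  cum μ (fun (j : Fin (n + 1)) (f : MW) => f (z j)) 0 (Finset.univ.erase 0)

/-- the mean square decay condition: `R⁻¹ ∫_{|y| < R} u(y)² dy` has the lower limit `0`
as `R → ∞` -/
def Decays (u : ℂ → ℝ) : Prop :=
  ∀ ε : ℝ, 0 < ε → ∃ᶠ R in atTop, ∫ y in Metric.ball (0:ℂ) R, u y ^ 2 ≤ ε * R

/-- the truncated `n + 1` point function decays faster than the Bessel function, in mean square,
when one of the points tends to infinity -/
def Clusters (μ : Measure MW) (n : ℕ) : Prop :=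
  ∀ᵐ z : Fin n → ℂ, Decays fun y => trunc μ (Fin.snoc z y : Fin (n + 1) → ℂ)

/-- the excess correlation of `f(y)` with `exp(iX)`, `X = ∑ t j f (w j)`:
`E[f(y) exp(iX)] - i E[f(y) X] E[exp(iX)]`; it is zero for a centred Gaussian law -/
def excess (μ : Measure MW) {k : ℕ} (w : Fin k → ℂ) (t : Fin k → ℝ) (y : ℂ) : ℂ :=
  (∫ f : MW, (f y : ℂ) * Complex.exp (Complex.I * (lin w t f : ℝ)) ∂μ) -
    Complex.I * ((∫ f : MW, f y * lin w t f ∂μ : ℝ) : ℂ) *
      ∫ f : MW, Complex.exp (Complex.I * (lin w t f : ℝ)) ∂μ

/-- all moments of `f(0)` are finite -/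
def FiniteMoments (μ : Measure MW) : Prop := ∀ k : ℕ, Integrable (fun f : MW => f 0 ^ k) μ

/-- the correlations at infinity are Gaussian: for every finite linear combination `X` of values,
the excess correlation of `f(y)` with `exp(iX)` decays faster than the Bessel function, in mean
square, as `y → ∞` -/
def FarGaussian (μ : Measure MW) : Prop :=
  ∀ (k : ℕ) (w : Fin k → ℂ) (t : Fin k → ℝ), Decays fun y => ‖excess μ w t y‖

/-- all moments are finite, and all but finitely many truncated functions cluster -/
def HighClustering (μ : Measure MW) : Prop :=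
  FiniteMoments μ ∧ ∀ᶠ n in atTop, Clusters μ n

end

end Pool.Agent.Helper37.BC
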