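import Pool.Agent.Helper37.BC.Gau
import Pool.Graph.R_pool_sql_team_seeded_63374d34.N661.BR.Lin

/-!
# Stationary waves with Gaussian correlations at infinity (MP_6b977f_mp)
-/

set_option autoImplicit false
set_option linter.unusedSectionVars false
open MeasureTheory Filter Topology ProbabilityTheory
open scoped ContDiff ENNReal

namespace Pool.Agent.Helper37.BC

open Pool.Agent.W745.RW (lap dx dy)
open Pool.Agent.N661.BR (MW J0 IsStationary shift meas_eval meas_shift IsGaussianLaw lin meas_lin)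
open Complex (I)

noncomputable section

variable {μ : Measure MW} [IsProbabilityMeasure μ]

theorem eval_two (hs : IsStationary μ) (h2 : Integrable (fun f : MW => f 0 ^ 2) μ) (w : ℂ) :
    MemLp (fun f : MW => f w) 2 μ := by
  rw [memLp_two_iff_integrable_sq (meas_eval w).aestronglyMeasurable]
  have h3 := ((mp_shift hs w).integrable_comp h2.aestronglyMeasurable).2 h2
  refine h3.congr (Eventually.of_forall fun f => ?_)
  show (shift w f) 0 ^ 2 = f w ^ 2
  rw [shift_apply, zero_add]

theorem lin_two (hs : IsStationary μ) (h2 : Integrable (fun f : MW => f 0 ^ 2) μ) {k : ℕ}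
    (w : Fin k → ℂ) (t : Fin k → ℝ) : MemLp (lin w t) 2 μ := by
  unfold lin
  exact memLp_finsetSum _ fun j _ => (eval_two hs h2 (w j)).const_mul _

/-- the two real random variables -/
def Q1 (μ : Measure MW) {k : ℕ} (w : Fin k → ℂ) (t : Fin k → ℝ) (f : MW) : ℝ :=
  Real.cos (lin w t f) + (∫ g : MW, Real.sin (lin w t g) ∂μ) * lin w t f
def Q2 (μ : Measure MW) {k : ℕ} (w : Fin k → ℂ) (t : Fin k → ℝ) (f : MW) : ℝ :=
  Real.sin (lin w t f) - (∫ g : MW, Real.cos (lin w t g) ∂μ) * lin w t f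

theorem cos_two {k : ℕ} (w : Fin k → ℂ) (t : Fin k → ℝ) :
    MemLp (fun f : MW => Real.cos (lin w t f)) 2 μ :=
  MemLp.of_bound (Real.measurable_cos.comp (meas_lin w t)).aestronglyMeasurable 1
    (Eventually.of_forall fun _ => Real.abs_cos_le_one _)

theorem sin_two {k : ℕ} (w : Fin k → ℂ) (t : Fin k → ℝ) :
    MemLp (fun f : MW => Real.sin (lin w t f)) 2 μ :=
  MemLp.of_bound (Real.measurable_sin.comp (meas_lin w t)).aestronglyMeasurable 1
    (Eventually.of_forall fun _ => Real.abs_sin_le_one _)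

theorem Q1_two (hs : IsStationary μ) (h2 : Integrable (fun f : MW => f 0 ^ 2) μ) {k : ℕ}
    (w : Fin k → ℂ) (t : Fin k → ℝ) : MemLp (Q1 μ w t) 2 μ :=
  (cos_two w t).add ((lin_two hs h2 w t).const_mul _)

theorem Q2_two (hs : IsStationary μ) (h2 : Integrable (fun f : MW => f 0 ^ 2) μ) {k : ℕ}
    (w : Fin k → ℂ) (t : Fin k → ℝ) : MemLp (Q2 μ w t) 2 μ :=
  (sin_two w t).sub ((lin_two hs h2 w t).const_mul _)

theorem exp_eq (x : ℝ) : Complex.exp (I * (x : ℝ)) = ((Real.cos x : ℝ) : ℂ) + ((Real.sin x : ℝ) : ℂ) * I := by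
  rw [mul_comm, Complex.exp_mul_I]
  push_cast
  rfl

theorem excess_eq (hs : IsStationary μ) (h2 : Integrable (fun f : MW => f 0 ^ 2) μ) {k : ℕ}
    (w : Fin k → ℂ) (t : Fin k → ℝ) (y : ℂ) :
    excess μ w t y = (UU μ (Q1 μ w t) y : ℝ) + (UU μ (Q2 μ w t) y : ℝ) * I := by
  have ic := (cos_two (μ := μ) w t).integrable (by norm_num)
  have is := (sin_two (μ := μ) w t).integrable (by norm_num)
  have ifc : Integrable (fun f : MW => f y * Real.cos (lin w t f)) μ :=
    MemLp.integrable_mul (eval_two hs h2 y) (cos_two w t)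
  have ifs : Integrable (fun f : MW => f y * Real.sin (lin w t f)) μ :=
    MemLp.integrable_mul (eval_two hs h2 y) (sin_two w t)
  have ifl : Integrable (fun f : MW => f y * lin w t f) μ :=
    MemLp.integrable_mul (eval_two hs h2 y) (lin_two hs h2 w t)
  have e1 : ∫ f : MW, (f y : ℂ) * Complex.exp (I * (lin w t f : ℝ)) ∂μ =
      ((∫ f : MW, f y * Real.cos (lin w t f) ∂μ : ℝ) : ℂ) +
        ((∫ f : MW, f y * Real.sin (lin w t f) ∂μ : ℝ) : ℂ) * I := by
    have j1 : Integrable (fun f : MW => ((f y * Real.cos (lin w t f) : ℝ) : ℂ)) μ := ifc.ofReal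
    have j2 : Integrable (fun f : MW => ((f y * Real.sin (lin w t f) : ℝ) : ℂ) * I) μ :=
      ifs.ofReal.mul_const I
    rw [← integral_complex_ofReal, ← integral_complex_ofReal, ← integral_mul_const,
      ← integral_add j1 j2]
    refine integral_congr_ae (Eventually.of_forall fun f => ?_)
    simp only [exp_eq]
    push_cast
    ring
  have e2 : ∫ f : MW, Complex.exp (I * (lin w t f : ℝ)) ∂μ =
      ((∫ f : MW, Real.cos (lin w t f) ∂μ : ℝ) : ℂ) +
        ((∫ f : MW, Real.sin (lin w t f) ∂μ : ℝ) : ℂ) * I := by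
    have j1 : Integrable (fun f : MW => ((Real.cos (lin w t f) : ℝ) : ℂ)) μ := ic.ofReal
    have j2 : Integrable (fun f : MW => ((Real.sin (lin w t f) : ℝ) : ℂ) * I) μ :=
      is.ofReal.mul_const I
    rw [← integral_complex_ofReal, ← integral_complex_ofReal, ← integral_mul_const,
      ← integral_add j1 j2]
    refine integral_congr_ae (Eventually.of_forall fun f => ?_)
    simp only [exp_eq]
  have e3 : UU μ (Q1 μ w t) y = ∫ f : MW, f y * Real.cos (lin w t f) ∂μ +
      (∫ g : MW, Real.sin (lin w t g) ∂μ) * ∫ f : MW, f y * lin w t f ∂μ := by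
    unfold UU Q1
    rw [← integral_const_mul, ← integral_add ifc (ifl.const_mul _)]
    refine integral_congr_ae (Eventually.of_forall fun f => ?_)
    show f y * (Real.cos (lin w t f) + _ * lin w t f) = _
    ring
  have e4 : UU μ (Q2 μ w t) y = ∫ f : MW, f y * Real.sin (lin w t f) ∂μ -
      (∫ g : MW, Real.cos (lin w t g) ∂μ) * ∫ f : MW, f y * lin w t f ∂μ := by
    unfold UU Q2
    rw [← integral_const_mul, ← integral_sub ifs (ifl.const_mul _)]
    refine integral_congr_ae (Eventually.of_forall fun f => ?_)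
    show f y * (Real.sin (lin w t f) - _ * lin w t f) = _
    ring
  unfold excess
  rw [e1, e2, e3, e4]
  push_cast
  linear_combination (-(∫ f : MW, f y * lin w t f ∂μ : ℝ) : ℂ) *
    ((∫ g : MW, Real.sin (lin w t g) ∂μ : ℝ) : ℂ) * Complex.I_sq

/-- excess correlations which decay faster than the Bessel function vanish -/
theorem excess_zero (hs : IsStationary μ) (h2 : Integrable (fun f : MW => f 0 ^ 2) μ) {k : ℕ}
    (w : Fin k → ℂ) (t : Fin k → ℝ) (hd : Decays fun y => ‖excess μ w t y‖) (y : ℂ) :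
    excess μ w t y = 0 := by
  have hn : ∀ y, ‖excess μ w t y‖ ^ 2 = UU μ (Q1 μ w t) y ^ 2 + UU μ (Q2 μ w t) y ^ 2 := by
    intro y
    rw [excess_eq hs h2, ← Complex.normSq_eq_norm_sq, Complex.normSq_add_mul_I]
  have c1 := UU_cont hs h2 (Q1_two hs h2 w t)
  have c2 := UU_cont hs h2 (Q2_two hs h2 w t)
  have d1 : Dec (UU μ (Q1 μ w t)) := by
    intro ε hε
    refine (hd ε hε).mono fun R hR => le_trans ?_ hR
    simp only [hn]
    exact setIntegral_mono (cont_ball (c1.pow 2) R) (cont_ball ((c1.pow 2).add (c2.pow 2)) R)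
      fun x => by
        show UU μ (Q1 μ w t) x ^ 2 ≤ UU μ (Q1 μ w t) x ^ 2 + UU μ (Q2 μ w t) x ^ 2
        linarith [sq_nonneg (UU μ (Q2 μ w t) x)]
  have d2 : Dec (UU μ (Q2 μ w t)) := by
    intro ε hε
    refine (hd ε hε).mono fun R hR => le_trans ?_ hR
    simp only [hn]
    exact setIntegral_mono (cont_ball (c2.pow 2) R) (cont_ball ((c1.pow 2).add (c2.pow 2)) R)
      fun x => by
        show UU μ (Q2 μ w t) x ^ 2 ≤ UU μ (Q1 μ w t) x ^ 2 + UU μ (Q2 μ w t) x ^ 2
        linarith [sq_nonneg (UU μ (Q1 μ w t) x)]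
  rw [excess_eq hs h2, UU_zero hs h2 (Q1_two hs h2 w t) d1,
    UU_zero hs h2 (Q2_two hs h2 w t) d2]
  simp

theorem lin_smul {k : ℕ} (w : Fin k → ℂ) (t : Fin k → ℝ) (s : ℝ) (f : MW) :
    lin w (fun j => s * t j) f = s * lin w t f := by
  unfold lin
  rw [Finset.mul_sum]
  exact Finset.sum_congr rfl fun j _ => by ring

/-- the derivative of the characteristic function -/
theorem phi_deriv {X Y : MW → ℝ} (hY : MemLp Y 2 μ) (hmX : Measurable X)
    (hmY : Measurable Y) (s : ℝ) :
    HasDerivAt (fun s : ℝ => ∫ f : MW, Complex.exp (I * ((X f + s * Y f : ℝ) : ℂ)) ∂μ)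
      (∫ f : MW, I * (Y f : ℂ) * Complex.exp (I * ((X f + s * Y f : ℝ) : ℂ)) ∂μ) s := by
  have hm : ∀ s : ℝ, Measurable fun f : MW => Complex.exp (I * ((X f + s * Y f : ℝ) : ℂ)) := by
    intro s
    exact Complex.measurable_exp.comp ((Complex.measurable_ofReal.comp
      (hmX.add (hmY.const_mul s))).const_mul I)
  refine (hasDerivAt_integral_of_dominated_loc_of_deriv_le (μ := μ)
    (F := fun (s : ℝ) (f : MW) => Complex.exp (I * ((X f + s * Y f : ℝ) : ℂ)))
    (F' := fun (s : ℝ) (f : MW) => I * (Y f : ℂ) * Complex.exp (I * ((X f + s * Y f : ℝ) : ℂ)))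
    (bound := fun f => |Y f|) (Metric.ball_mem_nhds s one_pos) ?_ ?_ ?_ ?_ ?_ ?_).2
  · exact Eventually.of_forall fun s => (hm s).aestronglyMeasurable
  · refine (integrable_const (1:ℝ)).mono' (hm s).aestronglyMeasurable
      (Eventually.of_forall fun f => ?_)
    rw [mul_comm, Complex.norm_exp_ofReal_mul_I]
  · exact (((Complex.measurable_ofReal.comp hmY).const_mul I).mul (hm s)).aestronglyMeasurable
  · refine Eventually.of_forall fun f s' _ => ?_
    rw [norm_mul, norm_mul, Complex.norm_I, one_mul, Complex.norm_real, mul_comm I,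
      Complex.norm_exp_ofReal_mul_I, mul_one, Real.norm_eq_abs]
  · exact (hY.integrable (by norm_num)).abs
  · refine Eventually.of_forall fun f s' _ => ?_
    have h1 : HasDerivAt (fun s : ℝ => ((X f + s * Y f : ℝ) : ℂ)) ((Y f : ℝ) : ℂ) s' := by
      have := (((hasDerivAt_id' s').mul_const (Y f)).const_add (X f)).ofReal_comp
      simpa using this
    have h2 := (h1.const_mul I).cexp
    refine h2.congr_deriv ?_
    ring

/-- **one linear combination** -/
theorem gauss_of_excess (hs : IsStationary μ) (h2 : Integrable (fun f : MW => f 0 ^ 2) μ) {k : ℕ}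
    (w : Fin k → ℂ) (t : Fin k → ℝ)
    (hd : ∀ s : ℝ, Decays fun y => ‖excess μ w (fun j => s * t j) y‖) :
    μ.map (lin w t) = gaussianReal 0 (∫ f, lin w t f ^ 2 ∂μ).toNNReal := by
  have hX := lin_two hs h2 w t
  have hmX := meas_lin w t
  set X : MW → ℝ := lin w t with hXdef
  set v : ℝ := ∫ f, X f ^ 2 ∂μ with hv
  have hv0 : 0 ≤ v := integral_nonneg fun f => sq_nonneg _
  set φ : ℝ → ℂ := fun s => ∫ f : MW, Complex.exp (I * ((0 + s * X f : ℝ) : ℂ)) ∂μ with hφ
  have hφd : ∀ s, HasDerivAt φ (∫ f : MW, I * (X f : ℂ) *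
      Complex.exp (I * ((0 + s * X f : ℝ) : ℂ)) ∂μ) s := fun s =>
    phi_deriv (X := fun _ => 0) hX measurable_const hmX s
  -- Stein's identity
  have key : ∀ s : ℝ, ∫ f : MW, (X f : ℂ) * Complex.exp (I * ((0 + s * X f : ℝ) : ℂ)) ∂μ =
      I * (s * v : ℝ) * φ s := by
    intro s
    have hz := fun j => excess_zero hs h2 w _ (hd s) (w j)
    have e1 : ∀ j, ∫ f : MW, (f (w j) : ℂ) * Complex.exp (I * ((0 + s * X f : ℝ) : ℂ)) ∂μ =
        I * ((∫ f : MW, f (w j) * (s * X f) ∂μ : ℝ) : ℂ) * φ s := by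
      intro j
      have h3 := hz j
      unfold excess at h3
      simp only [lin_smul] at h3
      simp only [hφ, zero_add]
      linear_combination h3
    have hint : ∀ j, Integrable (fun f : MW => (f (w j) : ℂ) *
        Complex.exp (I * ((0 + s * X f : ℝ) : ℂ))) μ := by
      intro j
      refine ((eval_two hs h2 (w j)).integrable (by norm_num)).norm.mono' ?_
        (Eventually.of_forall fun f => ?_)
      · exact ((Complex.measurable_ofReal.comp (meas_eval (w j))).mul
          (Complex.measurable_exp.comp ((Complex.measurable_ofReal.comp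
          (measurable_const.add (hmX.const_mul s))).const_mul I))).aestronglyMeasurable
      · rw [norm_mul, mul_comm I, Complex.norm_exp_ofReal_mul_I, mul_one, Complex.norm_real]
    have hint2 : ∀ j, Integrable (fun f : MW => f (w j) * (s * X f)) μ := fun j =>
      MemLp.integrable_mul (eval_two hs h2 (w j)) (hX.const_mul s)
    have e2 : ∀ f : MW, (X f : ℂ) * Complex.exp (I * ((0 + s * X f : ℝ) : ℂ)) =
        ∑ j, (t j : ℂ) * ((f (w j) : ℂ) * Complex.exp (I * ((0 + s * X f : ℝ) : ℂ))) := by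
      intro f
      have : (X f : ℂ) = ∑ j, (t j : ℂ) * (f (w j) : ℂ) := by
        rw [hXdef]; unfold lin; push_cast; rfl
      rw [this, Finset.sum_mul]
      exact Finset.sum_congr rfl fun j _ => by ring
    have e3 : s * v = ∑ j, t j * ∫ f : MW, f (w j) * (s * X f) ∂μ := by
      rw [hv, ← integral_const_mul]
      have : ∀ f : MW, s * X f ^ 2 = ∑ j, t j * (f (w j) * (s * X f)) := by
        intro f
        have : X f = ∑ j, t j * f (w j) := rfl
        rw [sq]
        nth_rewrite 1 [this]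
        rw [Finset.sum_mul, Finset.mul_sum]
        exact Finset.sum_congr rfl fun j _ => by ring
      simp_rw [this]
      rw [integral_finsetSum _ fun j _ => (hint2 j).const_mul _]
      exact Finset.sum_congr rfl fun j _ => integral_const_mul _ _
    simp_rw [e2]
    rw [integral_finsetSum _ fun j _ => (hint j).const_mul _, e3, Complex.ofReal_sum,
      Finset.mul_sum, Finset.sum_mul]
    refine Finset.sum_congr rfl fun j _ => ?_
    rw [integral_const_mul, e1, Complex.ofReal_mul]
    ring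
  have hφd' : ∀ s, HasDerivAt φ (-(s * v : ℝ) * φ s) s := by
    intro s
    refine (hφd s).congr_deriv ?_
    have e : ∀ f : MW, I * (X f : ℂ) * Complex.exp (I * ((0 + s * X f : ℝ) : ℂ)) =
        I * ((X f : ℂ) * Complex.exp (I * ((0 + s * X f : ℝ) : ℂ))) := fun f => by ring
    simp_rw [e]
    rw [integral_const_mul, key]
    linear_combination ((s * v : ℝ) : ℂ) * φ s * Complex.I_sq
  have hconst : ∀ s, HasDerivAt (fun s : ℝ => φ s * Complex.exp (((v * s ^ 2 / 2 : ℝ)) : ℂ)) 0 s := by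
    intro s
    have h1 : HasDerivAt (fun s : ℝ => ((v * s ^ 2 / 2 : ℝ) : ℂ)) ((s * v : ℝ) : ℂ) s := by
      have h3 : HasDerivAt (fun s : ℝ => v * s ^ 2 / 2) (s * v) s := by
        refine (((hasDerivAt_pow 2 s).const_mul v).div_const 2).congr_deriv ?_
        simp
        ring
      exact h3.ofReal_comp
    refine ((hφd' s).fun_mul h1.cexp).congr_deriv ?_
    ring
  have hφ0 : φ 0 = 1 := by simp [hφ]
  have hval : ∀ s : ℝ, φ s = Complex.exp (-((v * s ^ 2 / 2 : ℝ) : ℂ)) := by
    intro s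
    have h1 := is_const_of_deriv_eq_zero (fun s => (hconst s).differentiableAt)
      (fun s => (hconst s).deriv) s 0
    rw [hφ0] at h1
    simp only [ne_eq, OfNat.ofNat_ne_zero, not_false_eq_true, zero_pow, mul_zero, zero_div,
      Complex.ofReal_zero, Complex.exp_zero, mul_one] at h1
    rw [Complex.exp_neg]
    exact eq_inv_of_mul_eq_one_left h1
  have : IsProbabilityMeasure (μ.map X) := Measure.isProbabilityMeasure_map hmX.aemeasurable
  refine Measure.ext_of_charFun ?_
  funext s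
  rw [charFun_apply_real, charFun_gaussianReal, integral_map hmX.aemeasurable (by fun_prop)]
  have h1 : ∫ f : MW, Complex.exp (s * (X f : ℝ) * I) ∂μ = φ s := by
    simp only [hφ]
    congr 1
    funext f
    congr 1
    push_cast
    ring
  rw [h1, hval]
  congr 1
  rw [Real.coe_toNNReal _ hv0]
  push_cast
  ring

/-- the excess correlations of Gaussian laws vanish -/
theorem excess_gauss (hs : IsStationary μ) (h2 : Integrable (fun f : MW => f 0 ^ 2) μ)
    (hG : IsGaussianLaw μ) {k : ℕ} (w : Fin k → ℂ) (t : Fin k → ℝ) (y : ℂ) :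
    excess μ w t y = 0 := by
  have hX := lin_two hs h2 w t
  have hmX := meas_lin w t
  have hY := eval_two hs h2 y
  have hmY := meas_eval y
  set X : MW → ℝ := lin w t with hXdef
  have h1 := phi_deriv hY hmX hmY 0
  -- the value
  have hval : ∀ s : ℝ, ∫ f : MW, Complex.exp (I * ((X f + s * f y : ℝ) : ℂ)) ∂μ =
      Complex.exp (-(((∫ f, X f ^ 2 ∂μ) + 2 * s * (∫ f : MW, f y * X f ∂μ) +
        s ^ 2 * (∫ f : MW, f y ^ 2 ∂μ)) / 2 : ℝ)) := by
    intro s
    have hg := hG (k + 1) (Fin.snoc w y : Fin (k + 1) → ℂ) (Fin.snoc t s : Fin (k + 1) → ℝ)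
    have e1 : ∀ f : MW, lin (Fin.snoc w y : Fin (k + 1) → ℂ) (Fin.snoc t s : Fin (k + 1) → ℝ) f =
        X f + s * f y := by
      intro f
      show ∑ j, _ = _
      rw [Fin.sum_univ_castSucc]
      simp only [Fin.snoc_castSucc, Fin.snoc_last]
      rfl
    have hl : lin (Fin.snoc w y : Fin (k + 1) → ℂ) (Fin.snoc t s : Fin (k + 1) → ℝ) =
        fun f => X f + s * f y := funext e1
    rw [hl] at hg
    have hm : Measurable fun f : MW => X f + s * f y := hmX.add (hmY.const_mul s)
    have e2 : ∫ f : MW, (X f + s * f y) ^ 2 ∂μ = (∫ f, X f ^ 2 ∂μ) +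
        2 * s * (∫ f : MW, f y * X f ∂μ) + s ^ 2 * (∫ f : MW, f y ^ 2 ∂μ) := by
      have e3 : ∀ f : MW, (X f + s * f y) ^ 2 = X f ^ 2 + 2 * s * (f y * X f) + s ^ 2 * f y ^ 2 :=
        fun f => by ring
      simp_rw [e3]
      have i1 : Integrable (fun f => X f ^ 2) μ := hX.integrable_sq
      have i2 : Integrable (fun f : MW => 2 * s * (f y * X f)) μ :=
        (MemLp.integrable_mul hY hX).const_mul _
      have i3 : Integrable (fun f : MW => s ^ 2 * f y ^ 2) μ := hY.integrable_sq.const_mul _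
      have i12 : Integrable (fun f : MW => X f ^ 2 + 2 * s * (f y * X f)) μ := i1.add i2
      rw [integral_add i12 i3, integral_add i1 i2, integral_const_mul, integral_const_mul]
    have e4 : ∫ f : MW, Complex.exp (I * ((X f + s * f y : ℝ) : ℂ)) ∂μ =
        charFun (μ.map fun f : MW => X f + s * f y) 1 := by
      rw [charFun_apply_real, integral_map hm.aemeasurable (by fun_prop)]
      congr 1
      funext f
      congr 1
      push_cast
      ring
    rw [e4, hg, charFun_gaussianReal, Real.coe_toNNReal _ (integral_nonneg fun f => sq_nonneg _),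
      e2]
    congr 1
    push_cast
    ring
  have h3 : HasDerivAt (fun s : ℝ => Complex.exp (-(((∫ f, X f ^ 2 ∂μ) +
      2 * s * (∫ f : MW, f y * X f ∂μ) + s ^ 2 * (∫ f : MW, f y ^ 2 ∂μ)) / 2 : ℝ)))
      (-((∫ f : MW, f y * X f ∂μ : ℝ) : ℂ) * ∫ f : MW, Complex.exp (I * ((X f : ℝ) : ℂ)) ∂μ) 0 := by
    have h4 : HasDerivAt (fun s : ℝ => ((∫ f, X f ^ 2 ∂μ) + 2 * s * (∫ f : MW, f y * X f ∂μ) +
        s ^ 2 * (∫ f : MW, f y ^ 2 ∂μ)) / 2) (∫ f : MW, f y * X f ∂μ) 0 := by
      have a1 : HasDerivAt (fun s : ℝ => 2 * s * (∫ f : MW, f y * X f ∂μ))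
          (2 * (∫ f : MW, f y * X f ∂μ)) 0 := by
        refine (((hasDerivAt_id' (0:ℝ)).const_mul 2).mul_const _).congr_deriv ?_
        ring
      have a2 : HasDerivAt (fun s : ℝ => s ^ 2 * (∫ f : MW, f y ^ 2 ∂μ)) 0 0 := by
        refine ((hasDerivAt_pow 2 (0:ℝ)).mul_const _).congr_deriv ?_
        simp
      refine (((a1.const_add (∫ f, X f ^ 2 ∂μ)).fun_add a2).div_const 2).congr_deriv ?_
      ring
    have h5 := h4.ofReal_comp.fun_neg.cexp
    have h6 := hval 0
    simp only [zero_mul, add_zero] at h6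
    rw [h6]
    refine h5.congr_deriv ?_
    ring
  have h7 : (fun s : ℝ => ∫ f : MW, Complex.exp (I * ((X f + s * f y : ℝ) : ℂ)) ∂μ) =
      fun s : ℝ => Complex.exp (-(((∫ f, X f ^ 2 ∂μ) + 2 * s * (∫ f : MW, f y * X f ∂μ) +
      s ^ 2 * (∫ f : MW, f y ^ 2 ∂μ)) / 2 : ℝ)) := funext hval
  rw [h7] at h1
  have h8 := h1.unique h3
  simp only [zero_mul, add_zero] at h8
  have h9 : ∫ f : MW, I * (f y : ℂ) * Complex.exp (I * ((X f : ℝ) : ℂ)) ∂μ =
      I * ∫ f : MW, (f y : ℂ) * Complex.exp (I * ((X f : ℝ) : ℂ)) ∂μ := by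
    rw [← integral_const_mul]
    congr 1
    funext f
    ring
  rw [h9] at h8
  unfold excess
  rw [← hXdef]
  have h10 : (∫ f : MW, (f y : ℂ) * Complex.exp (I * ((X f : ℝ) : ℂ)) ∂μ) =
      -I * (I * ∫ f : MW, (f y : ℂ) * Complex.exp (I * ((X f : ℝ) : ℂ)) ∂μ) := by
    linear_combination (∫ f : MW, (f y : ℂ) * Complex.exp (I * ((X f : ℝ) : ℂ)) ∂μ) *
      Complex.I_sq
  rw [h10, h8]
  ring

/-- **Gaussian laws are characterised by the correlations at infinity** -/
theorem gaussian_iff (hs : IsStationary μ) (h2 : Integrable (fun f : MW => f 0 ^ 2) μ) :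
    IsGaussianLaw μ ↔ ∀ (k : ℕ) (w : Fin k → ℂ) (t : Fin k → ℝ),
      Decays fun y => ‖excess μ w t y‖ := by
  constructor
  · intro hG k w t ε hε
    refine Eventually.frequently ?_
    filter_upwards [eventually_ge_atTop 0] with R hR
    simp only [excess_gauss hs h2 hG w t, norm_zero]
    simp
    positivity
  · intro h k w t
    exact gauss_of_excess hs h2 w t fun s => h k w _

end

end Pool.Agent.Helper37.BC
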