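import Pool.Agent.Helper37.BC.Gau

/-!
# Integrable truncated functions (MP_6b977f_mp)
-/

set_option autoImplicit false
set_option linter.unusedSectionVars false
open MeasureTheory Filter Topology ProbabilityTheory
open scoped ContDiff ENNReal

namespace Pool.Agent.Helper37.BC

open Pool.Agent.W745.RW (lap dx dy)
open Pool.Agent.N661.BR (MW J0 IsStationary shift meas_eval meas_shift IsGaussianLaw lin)

noncomputable section

variable {μ : Measure MW} [IsProbabilityMeasure μ]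

theorem mom_bound (hs : IsStationary μ) (h0 : FiniteMoments μ) {ι : Type*} [DecidableEq ι]
    (S : Finset ι) : ∃ B : ℝ, 0 ≤ B ∧ ∀ z : ι → ℂ,
      |mom μ (fun (j : ι) (f : MW) => f (z j)) S| ≤ B := by
  rcases S.eq_empty_or_nonempty with rfl | hS
  · refine ⟨1, zero_le_one, fun z => ?_⟩
    simp [mom]
  · refine ⟨S.card * ∫ f : MW, |f 0| ^ S.card ∂μ,
      mul_nonneg (Nat.cast_nonneg _) (integral_nonneg fun f => by positivity), fun z => ?_⟩
    have hi : ∀ j ∈ S, Integrable (fun f : MW => |f (z j)| ^ S.card) μ := fun j _ => by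
      refine ((eval_mom hs h0 (z j)).pow S.card).int.abs.congr (Eventually.of_forall fun f => ?_)
      exact abs_pow _ _
    have h1 : ∀ f : MW, ‖∏ j ∈ S, f (z j)‖ ≤ ∑ j ∈ S, |f (z j)| ^ S.card := by
      intro f
      rw [Real.norm_eq_abs, Finset.abs_prod]
      obtain ⟨j₀, hj₀, hmax⟩ := S.exists_max_image (fun j => |f (z j)|) hS
      calc ∏ j ∈ S, |f (z j)| ≤ ∏ _j ∈ S, |f (z j₀)| :=
            Finset.prod_le_prod (fun _ _ => abs_nonneg _) hmax
        _ = |f (z j₀)| ^ S.card := by rw [Finset.prod_const]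
        _ ≤ _ := Finset.single_le_sum (f := fun j => |f (z j)| ^ S.card)
            (fun _ _ => by positivity) hj₀
    have h2 := norm_integral_le_of_norm_le (integrable_finsetSum S hi) (Eventually.of_forall h1)
    rw [integral_finsetSum S hi, Real.norm_eq_abs] at h2
    refine h2.trans (le_of_eq ?_)
    simp only [abs_mom hs]
    rw [Finset.sum_const, nsmul_eq_mul]

theorem cum_bound (hs : IsStationary μ) (h0 : FiniteMoments μ) {ι : Type*} [DecidableEq ι]
    (i : ι) : ∀ (n : ℕ) (S : Finset ι), S.card = n → ∃ B : ℝ, 0 ≤ B ∧ ∀ z : ι → ℂ,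
      |cum μ (fun (j : ι) (f : MW) => f (z j)) i S| ≤ B := by
  intro n
  induction n using Nat.strong_induction_on with
  | _ n ih =>
    intro S hn
    have hT : ∀ T ∈ S.ssubsets, ∃ B : ℝ, 0 ≤ B ∧ ∀ z : ι → ℂ,
        |cum μ (fun (j : ι) (f : MW) => f (z j)) i T| ≤ B := fun T hT =>
      ih T.card (by rw [← hn]; exact Finset.card_lt_card (Finset.mem_ssubsets.1 hT)) T rfl
    choose! B1 hB1 hB1' using hT
    have hT2 : ∀ T : Finset ι, ∃ B : ℝ, 0 ≤ B ∧ ∀ z : ι → ℂ,
        |mom μ (fun (j : ι) (f : MW) => f (z j)) T| ≤ B := fun T => mom_bound hs h0 T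
    choose B2 hB2 hB2' using hT2
    refine ⟨B2 (insert i S) + ∑ T ∈ S.ssubsets, B1 T * B2 (S \ T),
      add_nonneg (hB2 _) (Finset.sum_nonneg fun T hT => mul_nonneg (hB1 T hT) (hB2 _)),
      fun z => ?_⟩
    rw [cum_eq]
    refine (abs_sub _ _).trans (add_le_add (hB2' _ z) ?_)
    refine (Finset.abs_sum_le_sum_abs _ _).trans (Finset.sum_le_sum fun T hT => ?_)
    rw [abs_mul]
    exact mul_le_mul (hB1' T hT z) (hB2' _ z) (abs_nonneg _) (hB1 T hT)

theorem trunc_bound (hs : IsStationary μ) (h0 : FiniteMoments μ) (n : ℕ) :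
    ∃ B : ℝ, 0 ≤ B ∧ ∀ z : Fin (n + 1) → ℂ, |trunc μ z| ≤ B :=
  cum_bound hs h0 0 _ _ rfl

theorem cum_mom_congr {Ω Ω' ι : Type*} [MeasurableSpace Ω] [MeasurableSpace Ω'] [DecidableEq ι]
    {ν : Measure Ω} {ν' : Measure Ω'} {X : ι → Ω → ℝ} {X' : ι → Ω' → ℝ}
    (h : ∀ S, mom ν X S = mom ν' X' S) (i : ι) : ∀ (n : ℕ) (S : Finset ι), S.card = n →
      cum ν X i S = cum ν' X' i S := by
  intro n
  induction n using Nat.strong_induction_on with
  | _ n ih =>
    intro S hn
    rw [cum_eq, cum_eq, h]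
    congr 1
    refine Finset.sum_congr rfl fun T hT => ?_
    rw [h, ih T.card (by rw [← hn]; exact Finset.card_lt_card (Finset.mem_ssubsets.1 hT)) T rfl]

/-- translation invariance -/
theorem trunc_shift (hs : IsStationary μ) {n : ℕ} (z : Fin (n + 1) → ℂ) (a : ℂ) :
    trunc μ (fun j => z j + a) = trunc μ z := by
  refine cum_mom_congr (fun S => ?_) 0 _ _ rfl
  unfold mom
  rw [← int_shift hs (F := fun f : MW => ∏ j ∈ S, f (z j))
    (Finset.measurable_prod S fun j _ => meas_eval (z j)) a]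
  rfl

/-- functions in `L⁴` decay in mean square -/
theorem decays_of_L4 {u : ℂ → ℝ} (hc : Continuous u) (h : ∫⁻ y, ENNReal.ofReal (u y ^ 4) < ⊤) :
    Decays u := by
  have hi : Integrable (fun y => u y ^ 4) := by
    refine ⟨(hc.pow 4).aestronglyMeasurable, ?_⟩
    rwa [hasFiniteIntegral_iff_ofReal (Eventually.of_forall fun y => by positivity)]
  intro ε hε
  have hpi := Real.pi_pos
  -- a large radius
  have h1 := (aecover_ball (μ := (volume : Measure ℂ)) (x := (0:ℂ))
    (tendsto_id (α := ℝ) (x := atTop))).integral_tendsto_of_countably_generated hi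
  have h2 : ∀ᶠ R in atTop, (∫ y, u y ^ 4) - ε ^ 2 / (2 * Real.pi) <
      ∫ y in Metric.ball (0:ℂ) (id R), u y ^ 4 :=
    h1.eventually (lt_mem_nhds (by have : 0 < ε ^ 2 / (2 * Real.pi) := by positivity
                                   linarith))
  obtain ⟨R₀, hR₀, hR₀'⟩ := (h2.and (eventually_ge_atTop 1)).exists
  simp only [id] at hR₀
  set A : ℝ := ∫ y in Metric.ball (0:ℂ) R₀, u y ^ 2 with hA
  have hA0 : 0 ≤ A := integral_nonneg fun y => sq_nonneg _
  refine Eventually.frequently ?_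
  filter_upwards [eventually_ge_atTop R₀, eventually_ge_atTop (4 * A / ε)] with R hR hR'
  have hRpos : 0 < R := by linarith
  have hsub : Metric.ball (0:ℂ) R₀ ⊆ Metric.ball (0:ℂ) R := Metric.ball_subset_ball hR
  have hm0 : MeasurableSet (Metric.ball (0:ℂ) R₀) := Metric.isOpen_ball.measurableSet
  have hm : MeasurableSet (Metric.ball (0:ℂ) R) := Metric.isOpen_ball.measurableSet
  have i2 : IntegrableOn (fun y => u y ^ 2) (Metric.ball (0:ℂ) R) := cont_ball (hc.pow 2) R
  -- splitting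
  have e1 : ∫ y in Metric.ball (0:ℂ) R, u y ^ 2 =
      A + ∫ y in Metric.ball (0:ℂ) R \ Metric.ball (0:ℂ) R₀, u y ^ 2 := by
    rw [hA, ← setIntegral_union Set.disjoint_sdiff_right (hm.diff hm0) (i2.mono_set hsub)
      (i2.mono_set Set.sdiff_subset), Set.union_sdiff_cancel hsub]
  set lam : ℝ := ε / (2 * Real.pi * R) with hlam
  have hlam0 : 0 < lam := by positivity
  have e2 : ∀ y, u y ^ 2 ≤ lam + u y ^ 4 / (4 * lam) := by
    intro y
    have : 0 ≤ (u y ^ 2 - 2 * lam) ^ 2 / (4 * lam) := by positivity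
    have e : (u y ^ 2 - 2 * lam) ^ 2 / (4 * lam) = u y ^ 4 / (4 * lam) - u y ^ 2 + lam := by
      field_simp
      ring
    linarith
  have e3 : ∫ y in Metric.ball (0:ℂ) R \ Metric.ball (0:ℂ) R₀, u y ^ 2 ≤
      ∫ y in Metric.ball (0:ℂ) R \ Metric.ball (0:ℂ) R₀, (lam + u y ^ 4 / (4 * lam)) :=
    setIntegral_mono (i2.mono_set Set.sdiff_subset)
      (((integrableOn_const (ball_fin R)).add (hi.div_const (4 * lam)).integrableOn).mono_set
        Set.sdiff_subset) e2
  have e4 : ∫ y in Metric.ball (0:ℂ) R \ Metric.ball (0:ℂ) R₀, (lam + u y ^ 4 / (4 * lam)) =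
      volume.real (Metric.ball (0:ℂ) R \ Metric.ball (0:ℂ) R₀) * lam +
        (∫ y in Metric.ball (0:ℂ) R \ Metric.ball (0:ℂ) R₀, u y ^ 4) / (4 * lam) := by
    have a1 : IntegrableOn (fun _ : ℂ => lam) (Metric.ball (0:ℂ) R \ Metric.ball (0:ℂ) R₀) :=
      (integrableOn_const (ball_fin R)).mono_set Set.sdiff_subset
    have a2 : IntegrableOn (fun y => u y ^ 4 / (4 * lam))
        (Metric.ball (0:ℂ) R \ Metric.ball (0:ℂ) R₀) := (hi.div_const (4 * lam)).integrableOn
    have a3 : ∫ y in Metric.ball (0:ℂ) R \ Metric.ball (0:ℂ) R₀, u y ^ 4 / (4 * lam) =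
        (∫ y in Metric.ball (0:ℂ) R \ Metric.ball (0:ℂ) R₀, u y ^ 4) / (4 * lam) :=
      integral_div _ _
    rw [integral_add a1 a2, a3, setIntegral_const, smul_eq_mul]
  have e5 : volume.real (Metric.ball (0:ℂ) R \ Metric.ball (0:ℂ) R₀) ≤ Real.pi * R ^ 2 := by
    refine (measureReal_mono Set.sdiff_subset (ball_fin R)).trans (le_of_eq ?_)
    rw [measureReal_def, Complex.volume_ball, ENNReal.toReal_mul, ENNReal.toReal_pow,
      ENNReal.toReal_ofReal hRpos.le]
    simp
    ring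
  have e6 : ∫ y in Metric.ball (0:ℂ) R \ Metric.ball (0:ℂ) R₀, u y ^ 4 ≤ ε ^ 2 / (2 * Real.pi) := by
    have a1 : ∫ y in Metric.ball (0:ℂ) R \ Metric.ball (0:ℂ) R₀, u y ^ 4 ≤
        ∫ y in (Metric.ball (0:ℂ) R₀)ᶜ, u y ^ 4 :=
      setIntegral_mono_set hi.integrableOn (Eventually.of_forall fun y => by positivity)
        (Eventually.of_forall fun y hy => hy.2)
    have a2 := integral_add_compl hm0 hi
    linarith
  have e7 : volume.real (Metric.ball (0:ℂ) R \ Metric.ball (0:ℂ) R₀) * lam ≤ ε * R / 2 := by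
    calc _ ≤ Real.pi * R ^ 2 * lam := mul_le_mul_of_nonneg_right e5 hlam0.le
      _ = ε * R / 2 := by rw [hlam]; field_simp
  have e8 : (∫ y in Metric.ball (0:ℂ) R \ Metric.ball (0:ℂ) R₀, u y ^ 4) / (4 * lam) ≤
      ε * R / 4 := by
    calc _ ≤ ε ^ 2 / (2 * Real.pi) / (4 * lam) := by gcongr
      _ = ε * R / 4 := by rw [hlam]; field_simp
  have e9 : A ≤ ε * R / 4 := by
    rw [div_le_iff₀ hε] at hR'
    linarith
  rw [e1]
  linarith

/-- **integrability of the truncated functions implies the mean square decay** -/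
theorem clusters_of_memLp (hs : IsStationary μ) (h0 : FiniteMoments μ) {m : ℕ} {p : ℝ≥0∞}
    (hp0 : p ≠ 0) (hp : p ≤ 4)
    (h : MemLp (fun y : Fin (m + 1) → ℂ => trunc μ (Fin.cons 0 y : Fin (m + 2) → ℂ)) p volume) :
    Clusters μ (m + 1) := by
  obtain ⟨B, hB, hb⟩ := trunc_bound hs h0 (m + 1)
  have hptop : p ≠ ⊤ := ne_top_of_le_ne_top (by norm_num) hp
  have hpr0 : 0 < p.toReal := ENNReal.toReal_pos hp0 hptop
  have hpr4 : p.toReal ≤ 4 := by
    have := ENNReal.toReal_mono (by norm_num) hp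
    simpa using this
  set g : (Fin (m + 1) → ℂ) → ℝ := fun y => trunc μ (Fin.cons 0 y : Fin (m + 2) → ℂ) with hg
  have hgc : Continuous g := (trunc_cont hs h0).comp
    (Continuous.finCons continuous_const continuous_id)
  -- the fourth power is integrable
  have h4 : ∫⁻ y, ENNReal.ofReal (g y ^ 4) < ⊤ := by
    have h1 := lintegral_rpow_enorm_lt_top_of_eLpNorm_lt_top hp0 hptop h.2
    have h2 : ∀ y, ENNReal.ofReal (g y ^ 4) ≤
        ENNReal.ofReal (B ^ (4 - p.toReal)) * ‖g y‖ₑ ^ p.toReal := by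
      intro y
      have e1 : ‖g y‖ₑ ^ p.toReal = ENNReal.ofReal (|g y| ^ p.toReal) := by
        rw [← Real.norm_eq_abs, ← ENNReal.ofReal_rpow_of_nonneg (norm_nonneg _) hpr0.le,
          ofReal_norm]
      rw [e1, ← ENNReal.ofReal_mul (by positivity)]
      refine ENNReal.ofReal_le_ofReal ?_
      have e2 : g y ^ 4 = |g y| ^ (4 - p.toReal) * |g y| ^ p.toReal := by
        rw [← Real.rpow_add_of_nonneg (abs_nonneg _) (by linarith) hpr0.le, sub_add_cancel]
        have : |g y| ^ (4:ℝ) = |g y| ^ (4:ℕ) := by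
          rw [← Real.rpow_natCast]; norm_num
        rw [this, ← abs_pow, abs_of_nonneg (by positivity)]
      rw [e2]
      refine mul_le_mul_of_nonneg_right ?_ (by positivity)
      exact Real.rpow_le_rpow (abs_nonneg _) (hb _) (by linarith)
    refine lt_of_le_of_lt (lintegral_mono h2) ?_
    rw [lintegral_const_mul' _ _ ENNReal.ofReal_ne_top]
    exact ENNReal.mul_lt_top ENNReal.ofReal_lt_top h1
  -- Fubini
  have hgm : Measurable fun q : ℂ × (Fin m → ℂ) =>
      ENNReal.ofReal (g (Fin.snoc q.2 q.1 : Fin (m + 1) → ℂ) ^ 4) :=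
    (((hgc.comp (Continuous.finSnoc continuous_snd continuous_fst)).pow 4).measurable).ennreal_ofReal
  have h5 : ∫⁻ q : ℂ × (Fin m → ℂ),
      ENNReal.ofReal (g (Fin.snoc q.2 q.1 : Fin (m + 1) → ℂ) ^ 4) ≠ ⊤ := by
    have e := (volume_preserving_piFinSuccAbove (fun _ : Fin (m + 1) => ℂ) (Fin.last m)).symm
    have e2 := e.lintegral_comp_emb (MeasurableEquiv.measurableEmbedding _)
      (fun y => ENNReal.ofReal (g y ^ 4))
    have e3 : ∀ q : ℂ × (Fin m → ℂ),
        (MeasurableEquiv.piFinSuccAbove (fun _ : Fin (m + 1) => ℂ) (Fin.last m)).symm q =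
          (Fin.snoc q.2 q.1 : Fin (m + 1) → ℂ) := by
      intro q
      rw [MeasurableEquiv.piFinSuccAbove_symm_apply]
      exact Fin.insertNth_last' q.1 q.2
    simp only [e3] at e2
    rw [e2]
    exact h4.ne
  have h6 : ∀ᵐ y' : Fin m → ℂ, ∫⁻ y : ℂ,
      ENNReal.ofReal (g (Fin.snoc y' y : Fin (m + 1) → ℂ) ^ 4) < ⊤ := by
    have e1 : ∫⁻ y' : Fin m → ℂ, ∫⁻ y : ℂ,
        ENNReal.ofReal (g (Fin.snoc y' y : Fin (m + 1) → ℂ) ^ 4) ≠ ⊤ := by
      rw [← lintegral_prod_symm _ hgm.aemeasurable]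
      exact h5
    exact ae_lt_top (hgm.comp measurable_swap).lintegral_prod_right' e1
  -- all base points
  set L : (Fin (m + 1) → ℂ) →ₗ[ℝ] (Fin m → ℂ) :=
    { toFun := fun z j => z j.succ - z 0
      map_add' := fun x y => by funext j; simp; ring
      map_smul' := fun c x => by funext j; simp; ring } with hL
  have hLs : Function.Surjective L := by
    intro y
    refine ⟨Fin.cons 0 y, ?_⟩
    funext j
    simp [hL]
  have hset : MeasurableSet {y' : Fin m → ℂ | ∫⁻ y : ℂ,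
      ENNReal.ofReal (g (Fin.snoc y' y : Fin (m + 1) → ℂ) ^ 4) < ⊤} :=
    measurableSet_lt ((hgm.comp measurable_swap).lintegral_prod_right') measurable_const
  have h7 : ∀ᵐ z : Fin (m + 1) → ℂ, L z ∈ {y' : Fin m → ℂ | ∫⁻ y : ℂ,
      ENNReal.ofReal (g (Fin.snoc y' y : Fin (m + 1) → ℂ) ^ 4) < ⊤} :=
    (ae_comp_linearMap_mem_iff L volume volume hLs hset).2 h6
  filter_upwards [h7] with z hz
  have hz' : ∫⁻ y : ℂ, ENNReal.ofReal (g (Fin.snoc (L z) y : Fin (m + 1) → ℂ) ^ 4) < ⊤ := hz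
  refine decays_of_L4 ((trunc_cont hs h0).comp
    (Continuous.finSnoc continuous_const continuous_id)) ?_
  have e1 : ∀ y : ℂ, trunc μ (Fin.snoc z y : Fin (m + 2) → ℂ) =
      g (Fin.snoc (L z) (y + -z 0) : Fin (m + 1) → ℂ) := by
    intro y
    rw [← trunc_shift hs (Fin.snoc z y : Fin (m + 2) → ℂ) (-z 0)]
    simp only [hg]
    congr 1
    funext j
    refine Fin.cases ?_ (fun j => ?_) j
    · rw [Fin.cons_zero]
      have : (0 : Fin (m + 2)) = Fin.castSucc (0 : Fin (m + 1)) := rfl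
      rw [this, Fin.snoc_castSucc]
      ring
    · rw [Fin.cons_succ]
      refine Fin.lastCases ?_ (fun k => ?_) j
      · rw [Fin.snoc_last, Fin.succ_last, Fin.snoc_last]
      · rw [Fin.snoc_castSucc, Fin.succ_castSucc, Fin.snoc_castSucc]
        simp only [hL, LinearMap.coe_mk, AddHom.coe_mk]
        ring
  simp_rw [e1]
  rw [lintegral_add_right_eq_self (fun y : ℂ =>
    ENNReal.ofReal (g (Fin.snoc (L z) y : Fin (m + 1) → ℂ) ^ 4)) (-z 0)]
  exact hz'

end

end Pool.Agent.Helper37.BC
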