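import Pool.Agent.Helper37.BC.Wick
import Pool.Agent.Helper37.BC.L4
import Pool.Graph.R_pool_sql_team_seeded_63374d34.N661.BR.Fin4
import Pool.Graph.R_pool_sql_team_seeded_63374d34.N40.BRSTAT

/-!
# Characterisations of the random wave (MP_6b977f_mp): assembly
-/

set_option autoImplicit false
set_option linter.unusedSectionVars false
open MeasureTheory Filter Topology ProbabilityTheory
open scoped ContDiff ENNReal

namespace Pool.Agent.Helper37.BC

open Pool.Agent.W745.RW (lap dx dy)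
open Pool.Agent.N661.BR

noncomputable section

variable {μ : Measure MW} [IsProbabilityMeasure μ]

/-- the first characterisation of Gaussian waves -/
theorem gaussian_iff_far (hs : IsStationary μ) (h2 : Integrable (fun f : MW => f 0 ^ 2) μ) :
    IsGaussianLaw μ ↔ FarGaussian μ := gaussian_iff hs h2

/-- the second characterisation of Gaussian waves -/
theorem gaussian_iff_high (hs : IsStationary μ) : IsGaussianLaw μ ↔ HighClustering μ := by
  constructor
  · intro hG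
    exact ⟨gauss_moments hG, (eventually_ge_atTop 2).mono fun n hn => clusters_gauss hs hG hn⟩
  · rintro ⟨h0, hc⟩
    obtain ⟨N, hN⟩ := eventually_atTop.1 hc
    exact gauss_of_trunc hs h0 (N := N) fun n hn z => trunc_zero hs h0 (hN n hn) z

/-- a local limit is stationary, and its second moments are those of the random wave if no mass is
lost -/
theorem limit_facts {Ω : Set ℂ} {lam : ℕ → ℝ} {u : ℕ → ℂ → ℝ} {χ : ℝ → ℝ}
    (hΩ : IsOpen Ω) (hb : Bornology.IsBounded Ω) (hne : Ω.Nonempty)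
    (hpos : ∀ n, 0 < lam n) (hlam : Tendsto lam atTop atTop) (hu : ∀ n, ContDiffOn ℝ ∞ (u n) Ω)
    (heq : ∀ n, ∀ z ∈ Ω, lap (u n) z + lam n * u n z = 0) (hqe : IsQuantumErgodic Ω lam u)
    (hχ : IsCutoff χ) (hμ : IsLocalLimit χ Ω lam u μ) :
    IsStationary μ ∧ Integrable (fun f : MW => f 0 ^ 2) μ ∧
      (∫ f : MW, f 0 ^ 2 ∂μ = 1 → ∀ w w' : ℂ, ∫ f : MW, f w * f w' ∂μ = J0 ‖w - w'‖) := by
  obtain ⟨hQ, hmass, hG⟩ := limit_all hΩ hb hne hpos hlam hu heq hqe hχ inferInstance hμ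
  obtain ⟨h, u', hS, hA⟩ := limit_apx allParts hΩ hb hne hpos hlam hu heq hqe hχ inferInstance hμ
  have hs : IsStationary μ := Pool.Agent.N40.BRSTAT.STAT Ω hΩ hb hne h u' hS μ inferInstance hA
  have h2 : Integrable (fun f : MW => f 0 ^ 2) μ := by
    refine ⟨((meas_eval 0).pow_const 2).aestronglyMeasurable, ?_⟩
    rw [hasFiniteIntegral_iff_ofReal (Eventually.of_forall fun f => by positivity)]
    exact lt_of_le_of_lt hmass ENNReal.one_lt_top
  refine ⟨hs, h2, fun hvar w w' => ?_⟩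
  have hi := sq_int hs h2
  have h1 : ∀ w : ℂ, ∫ f : MW, f w ^ 2 ∂μ = 1 := by
    intro w
    rw [← hvar, ← int_shift hs (F := fun f : MW => f 0 ^ 2) ((meas_eval 0).pow_const 2) w]
    refine integral_congr_ae (Eventually.of_forall fun f => ?_)
    show f w ^ 2 = (shift w f) 0 ^ 2
    rw [shift_apply, zero_add]
  have hii : ∀ w w' : ℂ, Integrable (fun f : MW => f w * f w') μ := prod_int hi
  have k1 := two_le hG Pool.Agent.N141.BRUNIF.UNIF hi hii h1 1 1 w w'
  have k2 := two_le hG Pool.Agent.N141.BRUNIF.UNIF hi hii h1 1 (-1) w w'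
  linarith

/-- with the covariance of the random wave, Gaussian means random wave -/
theorem wave_iff (hs : IsStationary μ) (h2 : Integrable (fun f : MW => f 0 ^ 2) μ)
    (hcov : ∀ w w' : ℂ, ∫ f : MW, f w * f w' ∂μ = J0 ‖w - w'‖) :
    IsRandomWave μ ↔ IsGaussianLaw μ := by
  have hi := sq_int hs h2
  have e : ∀ (k : ℕ) (w : Fin k → ℂ) (t : Fin k → ℝ), ∫ f, lin w t f ^ 2 ∂μ =
      ∑ i, ∑ j, t i * t j * J0 ‖w i - w j‖ := by
    intro k w t
    simp only [lin_pow2]
    rw [integral_finsetSum _ fun i _ => integrable_finsetSum _ fun j _ =>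
      (prod_int hi (w i) (w j)).const_mul _]
    refine Finset.sum_congr rfl fun i _ => ?_
    rw [integral_finsetSum _ fun j _ => (prod_int hi (w i) (w j)).const_mul _]
    refine Finset.sum_congr rfl fun j _ => ?_
    rw [integral_const_mul, hcov]
  unfold IsRandomWave IsGaussianLaw
  simp only [e]

/-- mixtures -/
theorem mixture_wave
    (hQ : ∀ v : ℤ →₀ ℝ, Bal v → ∀ l : ℤ,
      ∫⁻ f : MW, ENNReal.ofReal (‖QV v l 1 f 0‖ ^ 2) ∂μ ≤ ENNReal.ofReal (KV v l))
    (hmass : ∫⁻ f : MW, ENNReal.ofReal (f 0 ^ 2) ∂μ ≤ 1)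
    (hvar : ∫ f : MW, f 0 ^ 2 ∂μ = 1)
    {S : Type*} [MeasurableSpace S] {P : Measure S} [IsProbabilityMeasure P]
    {κ : Kernel S MW} [IsMarkovKernel κ] (hκ : P.bind κ = μ) (m : S → ℝ) (ν : S → Measure ℝ)
    (hν : ∀ᵐ s ∂P, IsProbabilityMeasure (ν s) ∧ parallel (ν s) = 0 ∧
      ∀ w w' : ℂ, ∫ f : MW, f w * f w' ∂(κ s) = m s * cov (ν s) (w - w'))
    (h : ∀ᵐ s ∂P, IsStationary (κ s) ∧ (FarGaussian (κ s) ∨ HighClustering (κ s))) :
    IsRandomWave μ := by
  have hν2 : ∀ᵐ s ∂P, IsProbabilityMeasure (ν s) ∧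
      ∀ w w' : ℂ, ∫ f : MW, f w * f w' ∂(κ s) = m s * cov (ν s) (w - w') :=
    hν.mono fun s hs => ⟨hs.1, hs.2.2⟩
  obtain ⟨k1, _⟩ := mix_sec' hκ (ne_top_of_le_ne_top ENNReal.one_ne_top hmass) hν2
  refine divisible_case allParts hQ hvar hκ m ν hν ?_
  filter_upwards [k1, h] with s h1 hs
  refine Or.inr ?_
  rcases hs.2 with h3 | h3
  · exact (gaussian_iff_far hs.1 h1).2 h3
  · exact (gaussian_iff_high hs.1).2 h3

end

end Pool.Agent.Helper37.BC
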