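import Pool.Agent.Helper37.BC.Cum

/-!
# The theorem of Marcinkiewicz

A random variable with finite moments, all but finitely many cumulants of which vanish, is
normal.
-/

set_option autoImplicit false
set_option linter.unusedSectionVars false
open MeasureTheory Filter Topology ProbabilityTheory
open scoped ENNReal Nat

namespace Pool.Agent.Helper37.BC

noncomputable section

/-- growth of the moments -/
theorem mom_growth {a : ℕ → ℝ} (h0 : a 0 = 1) {N : ℕ} (hN : ∀ n, N ≤ n → kap a n = 0) (r : ℝ)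
    (hr : 0 < r) : ∃ C : ℝ, 0 ≤ C ∧ ∀ n, |a n| * r ^ n / n ! ≤ C := by
  set S : ℝ := ∑ k ∈ Finset.range N, |kap a k| * r ^ (k + 1) / k ! with hS
  have hS0 : 0 ≤ S := Finset.sum_nonneg fun k _ => by positivity
  set s : ℕ → ℝ := fun n => |a n| * r ^ n / n ! with hs
  have hs0 : ∀ n, 0 ≤ s n := fun n => by simp only [hs]; positivity
  obtain ⟨n₀, hn₀⟩ := exists_nat_ge S
  set C : ℝ := ∑ k ∈ Finset.range (n₀ + 1), s k with hC
  have hC0 : 0 ≤ C := Finset.sum_nonneg fun k _ => hs0 k
  refine ⟨C, hC0, fun n => ?_⟩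
  show s n ≤ C
  induction n using Nat.strong_induction_on with
  | _ n ih =>
    by_cases hn : n ≤ n₀
    · exact Finset.single_le_sum (f := s) (fun k _ => hs0 k) (Finset.mem_range.2 (by omega))
    · obtain ⟨m, rfl⟩ : ∃ m, n = m + 1 := ⟨n - 1, by omega⟩
      have h1 : |a (m + 1)| ≤ ∑ k ∈ Finset.range (m + 1),
          (m.choose k : ℝ) * |kap a k| * |a (m - k)| := by
        rw [kap_rec h0 m]
        refine (Finset.abs_sum_le_sum_abs _ _).trans (le_of_eq ?_)
        refine Finset.sum_congr rfl fun k _ => ?_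
        rw [abs_mul, abs_mul, Nat.abs_cast]
      have h2 : ∀ k ∈ Finset.range (m + 1), (m.choose k : ℝ) * |kap a k| * |a (m - k)| *
          (r ^ (m + 1) / m !) ≤ (|kap a k| * r ^ (k + 1) / k !) * C := by
        intro k hk
        have hk' : k ≤ m := by have := Finset.mem_range.1 hk; omega
        have e1 : ((m.choose k : ℕ) : ℝ) = (m ! : ℝ) / (k ! * (m - k)!) := Nat.cast_choose ℝ hk'
        have e2 : r ^ (m + 1) = r ^ (k + 1) * r ^ (m - k) := by
          rw [← pow_add]; congr 1; omega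
        have e3 : (m.choose k : ℝ) * |kap a k| * |a (m - k)| * (r ^ (m + 1) / m !) =
            (|kap a k| * r ^ (k + 1) / k !) * s (m - k) := by
          rw [e1, e2]
          simp only [hs]
          have : (m ! : ℝ) ≠ 0 := by positivity
          field_simp
        rw [e3]
        exact mul_le_mul_of_nonneg_left (ih _ (by omega)) (by positivity)
      have h3 : |a (m + 1)| * (r ^ (m + 1) / m !) ≤ S * C := by
        calc |a (m + 1)| * (r ^ (m + 1) / m !) ≤ (∑ k ∈ Finset.range (m + 1),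
              (m.choose k : ℝ) * |kap a k| * |a (m - k)|) * (r ^ (m + 1) / m !) := by
              gcongr
          _ = ∑ k ∈ Finset.range (m + 1), (m.choose k : ℝ) * |kap a k| * |a (m - k)| *
              (r ^ (m + 1) / m !) := Finset.sum_mul _ _ _
          _ ≤ ∑ k ∈ Finset.range (m + 1), (|kap a k| * r ^ (k + 1) / k !) * C :=
              Finset.sum_le_sum h2
          _ = (∑ k ∈ Finset.range (m + 1), |kap a k| * r ^ (k + 1) / k !) * C :=
              (Finset.sum_mul _ _ _).symm
          _ ≤ S * C := by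
              refine mul_le_mul_of_nonneg_right ?_ hC0
              rw [hS]
              rcases le_total (m + 1) N with hm | hm
              · exact Finset.sum_le_sum_of_subset_of_nonneg (Finset.range_mono hm)
                  fun k _ _ => by positivity
              · refine le_of_eq (Finset.sum_subset (Finset.range_mono hm) fun k _ hk => ?_).symm
                rw [Finset.mem_range, not_lt] at hk
                rw [hN k hk]
                simp
      have h4 : s (m + 1) * (m + 1) = |a (m + 1)| * (r ^ (m + 1) / m !) := by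
        simp only [hs]
        rw [Nat.factorial_succ]
        push_cast
        field_simp
      have h5 : S ≤ (m : ℝ) + 1 := by
        have : (n₀ : ℝ) ≤ (m : ℝ) + 1 := by
          have : n₀ ≤ m + 1 := by omega
          exact_mod_cast this
        linarith
      have h6 : s (m + 1) * (m + 1) ≤ C * (m + 1) := by
        rw [h4]
        calc _ ≤ S * C := h3
          _ ≤ (m + 1) * C := mul_le_mul_of_nonneg_right h5 hC0
          _ = _ := mul_comm _ _
      exact le_of_mul_le_mul_right h6 (by positivity)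

variable {Ω : Type*} [MeasurableSpace Ω] {μ : Measure Ω} [IsProbabilityMeasure μ] {Y : Ω → ℝ}

/-- exponential moments -/
theorem exp_int (hY : AllMom μ Y) {N : ℕ}
    (hN : ∀ n, N ≤ n → kap (fun p => ∫ ω, Y ω ^ p ∂μ) n = 0) (t : ℝ) :
    Integrable (fun ω => Real.exp (t * |Y ω|)) μ := by
  have hm : AEMeasurable Y μ := hY.meas.aemeasurable
  -- it suffices to treat `cosh`
  have key : Integrable (fun ω => Real.cosh (t * Y ω)) μ := by
    refine ⟨(Real.continuous_cosh.measurable.comp_aemeasurable (hm.const_mul t)).aestronglyMeasurable, ?_⟩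
    rw [hasFiniteIntegral_iff_ofReal (Eventually.of_forall fun ω => (Real.cosh_pos _).le)]
    have e1 : ∀ ω, ENNReal.ofReal (Real.cosh (t * Y ω)) =
        ∑' n : ℕ, ENNReal.ofReal ((t * Y ω) ^ (2 * n) / (2 * n)!) := by
      intro ω
      rw [Real.cosh_eq_tsum, ENNReal.ofReal_tsum_of_nonneg
        (fun n => by rw [pow_mul]; positivity) (Real.hasSum_cosh _).summable]
    simp_rw [e1]
    rw [lintegral_tsum fun n => (((hm.const_mul t).pow_const _).div_const _).ennreal_ofReal]
    obtain ⟨C, hC, hb⟩ := mom_growth (a := fun p => ∫ ω, Y ω ^ p ∂μ) (by simp) hN (2 * |t| + 1)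
      (by positivity)
    have e2 : ∀ n : ℕ, ∫⁻ ω, ENNReal.ofReal ((t * Y ω) ^ (2 * n) / (2 * n)!) ∂μ ≤
        ENNReal.ofReal (C * (1 / 4) ^ n) := by
      intro n
      have hi : Integrable (fun ω => (t * Y ω) ^ (2 * n) / (2 * n)!) μ :=
        ((hY.cmul t).pow (2 * n)).int.div_const _
      rw [← ofReal_integral_eq_lintegral_ofReal hi
        (Eventually.of_forall fun ω => by
          show 0 ≤ (t * Y ω) ^ (2 * n) / (2 * n)!
          rw [pow_mul]; positivity)]
      refine ENNReal.ofReal_le_ofReal ?_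
      have e3 : ∀ ω, (t * Y ω) ^ (2 * n) / (2 * n)! = (t ^ (2 * n) / (2 * n)!) * Y ω ^ (2 * n) := by
        intro ω
        rw [mul_pow]
        ring
      simp_rw [e3]
      rw [integral_const_mul]
      have h1 := hb (2 * n)
      have h2 : 0 ≤ ∫ ω, Y ω ^ (2 * n) ∂μ := integral_nonneg fun ω => by
        show 0 ≤ Y ω ^ (2 * n)
        rw [pow_mul]; positivity
      simp only [abs_of_nonneg h2] at h1
      have h3 : t ^ (2 * n) * 4 ^ n ≤ (2 * |t| + 1) ^ (2 * n) := by
        have : t ^ (2 * n) * 4 ^ n = (2 * |t|) ^ (2 * n) := by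
          rw [mul_pow, pow_mul, pow_mul |t|, sq_abs, pow_mul 2]
          norm_num
          ring
        rw [this]
        gcongr
        linarith
      have h4 : t ^ (2 * n) * 4 ^ n * ((∫ ω, Y ω ^ (2 * n) ∂μ) / (2 * n)!) ≤
          (2 * |t| + 1) ^ (2 * n) * ((∫ ω, Y ω ^ (2 * n) ∂μ) / (2 * n)!) := by gcongr
      rw [one_div, inv_pow, ← div_eq_mul_inv, le_div_iff₀ (by positivity)]
      calc t ^ (2 * n) / (2 * n)! * (∫ ω, Y ω ^ (2 * n) ∂μ) * 4 ^ n =
          t ^ (2 * n) * 4 ^ n * ((∫ ω, Y ω ^ (2 * n) ∂μ) / (2 * n)!) := by ring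
        _ ≤ _ := h4
        _ = (∫ ω, Y ω ^ (2 * n) ∂μ) * (2 * |t| + 1) ^ (2 * n) / (2 * n)! := by ring
        _ ≤ C := h1
    refine lt_of_le_of_lt (ENNReal.tsum_le_tsum e2) ?_
    have h5 : Summable fun n : ℕ => C * (1 / 4 : ℝ) ^ n :=
      (summable_geometric_of_lt_one (by norm_num) (by norm_num)).mul_left C
    rw [← ENNReal.ofReal_tsum_of_nonneg (fun n => by positivity) h5]
    exact ENNReal.ofReal_lt_top
  refine (key.const_mul 2).mono' ((Real.measurable_exp.comp_aemeasurable
    (hm.abs.const_mul t)).aestronglyMeasurable) (Eventually.of_forall fun ω => ?_)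
  rw [Real.norm_eq_abs, abs_of_pos (Real.exp_pos _)]
  have h1 : t * |Y ω| ≤ |t * Y ω| := by
    rw [abs_mul]
    exact mul_le_mul_of_nonneg_right (le_abs_self t) (abs_nonneg _)
  refine (Real.exp_le_exp.2 h1).trans ?_
  rw [← Real.cosh_abs (t * Y ω), Real.cosh_eq]
  have := Real.exp_pos (-|t * Y ω|)
  linarith

/-- the power series of the moment generating function and of its derivative -/
theorem mgf_series (hY : AllMom μ Y) (hexp : ∀ t : ℝ, Integrable (fun ω => Real.exp (t * |Y ω|)) μ)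
    (z : ℂ) : HasSum (fun n : ℕ => z ^ n * ((∫ ω, Y ω ^ n ∂μ : ℝ) : ℂ) / n !)
      (complexMGF Y μ z) ∧
    HasSum (fun n : ℕ => z ^ n * ((∫ ω, Y ω ^ (n + 1) ∂μ : ℝ) : ℂ) / n !)
      (∫ ω, (Y ω : ℂ) * Complex.exp (z * Y ω) ∂μ) := by
  have hm : AEMeasurable Y μ := hY.meas.aemeasurable
  have hmC : AEMeasurable (fun ω => (Y ω : ℂ)) μ := Complex.measurable_ofReal.comp_aemeasurable hm
  have hser : ∀ x : ℝ, HasSum (fun n : ℕ => x ^ n / n !) (Real.exp x) := fun x => by
    have := NormedSpace.expSeries_div_hasSum_exp x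
    rwa [← Real.exp_eq_exp_ℝ] at this
  have hserC : ∀ x : ℂ, HasSum (fun n : ℕ => x ^ n / n !) (Complex.exp x) := fun x => by
    have := NormedSpace.expSeries_div_hasSum_exp x
    rwa [← Complex.exp_eq_exp_ℂ] at this
  constructor
  · have h := hasSum_integral_of_dominated_convergence (μ := μ)
      (F := fun (n : ℕ) ω => (z * (Y ω : ℂ)) ^ n / n !) (f := fun ω => Complex.exp (z * Y ω))
      (fun n ω => (‖z‖ * |Y ω|) ^ n / n !)
      (fun n => (((hmC.const_mul z).pow_const n).div_const _).aestronglyMeasurable)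
      (fun n => Eventually.of_forall fun ω => by
        rw [norm_div, norm_pow, norm_mul, Complex.norm_real, Complex.norm_natCast]
        exact le_rfl)
      (Eventually.of_forall fun ω => (hser _).summable)
      (by
        have e : ∀ ω, ∑' n : ℕ, (‖z‖ * |Y ω|) ^ n / n ! = Real.exp (‖z‖ * |Y ω|) := fun ω =>
          (hser _).tsum_eq
        simp_rw [e]
        exact hexp _)
      (Eventually.of_forall fun ω => hserC _)
    refine h.congr_fun fun n => ?_
    rw [← integral_complex_ofReal, ← integral_const_mul, ← integral_div]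
    refine integral_congr_ae (Eventually.of_forall fun ω => ?_)
    push_cast
    ring
  · have h := hasSum_integral_of_dominated_convergence (μ := μ)
      (F := fun (n : ℕ) ω => (Y ω : ℂ) * ((z * (Y ω : ℂ)) ^ n / n !))
      (f := fun ω => (Y ω : ℂ) * Complex.exp (z * Y ω))
      (fun n ω => |Y ω| * ((‖z‖ * |Y ω|) ^ n / n !))
      (fun n => (hmC.mul (((hmC.const_mul z).pow_const n).div_const _)).aestronglyMeasurable)
      (fun n => Eventually.of_forall fun ω => by
        rw [norm_mul, norm_div, norm_pow, norm_mul, Complex.norm_real, Complex.norm_natCast]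
        exact le_rfl)
      (Eventually.of_forall fun ω => (hser _).summable.mul_left _)
      (by
        have e : ∀ ω, ∑' n : ℕ, |Y ω| * ((‖z‖ * |Y ω|) ^ n / n !) =
            |Y ω| * Real.exp (‖z‖ * |Y ω|) := fun ω => by
          rw [tsum_mul_left, (hser _).tsum_eq]
        simp_rw [e]
        refine (hexp (‖z‖ + 1)).mono' ((hm.abs.mul (Real.measurable_exp.comp_aemeasurable
          (hm.abs.const_mul _))).aestronglyMeasurable) (Eventually.of_forall fun ω => ?_)
        rw [Real.norm_eq_abs, abs_of_nonneg (by positivity), add_mul, one_mul, Real.exp_add,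
          mul_comm]
        refine mul_le_mul_of_nonneg_left ?_ (Real.exp_pos _).le
        have := Real.add_one_le_exp (|Y ω|)
        linarith)
      (Eventually.of_forall fun ω => (hserC _).mul_left _)
    refine h.congr_fun fun n => ?_
    rw [← integral_complex_ofReal, ← integral_const_mul, ← integral_div]
    refine integral_congr_ae (Eventually.of_forall fun ω => ?_)
    push_cast
    ring

/-- the polynomial `∑ c_k z^{k+1} / (k+1)!` -/
def PP (c : ℕ → ℝ) (N : ℕ) (z : ℂ) : ℂ :=
  ∑ k ∈ Finset.range N, (c k : ℂ) * z ^ (k + 1) / (k + 1)!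

def PP' (c : ℕ → ℝ) (N : ℕ) (z : ℂ) : ℂ := ∑ k ∈ Finset.range N, (c k : ℂ) * z ^ k / k !

theorem PP_deriv (c : ℕ → ℝ) (N : ℕ) (z : ℂ) : HasDerivAt (PP c N) (PP' c N z) z := by
  unfold PP PP'
  refine HasDerivAt.fun_sum fun k _ => ?_
  have h := ((hasDerivAt_pow (k + 1) z).const_mul (c k : ℂ)).div_const ((k + 1)! : ℂ)
  refine h.congr_deriv ?_
  rw [Nat.factorial_succ]
  push_cast
  have h1 : (k : ℂ) + 1 ≠ 0 := by
    have : ((k + 1 : ℕ) : ℂ) ≠ 0 := by exact_mod_cast (Nat.succ_ne_zero k)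
    push_cast at this
    exact this
  have h2 : ((k ! : ℕ) : ℂ) ≠ 0 := by exact_mod_cast Nat.factorial_ne_zero k
  field_simp

/-- the moment generating function is the exponential of a polynomial -/
theorem mgf_eq (hY : AllMom μ Y) (hexp : ∀ t : ℝ, Integrable (fun ω => Real.exp (t * |Y ω|)) μ)
    {N : ℕ} (hN : ∀ n, N ≤ n → kap (fun p => ∫ ω, Y ω ^ p ∂μ) n = 0) (z : ℂ) :
    complexMGF Y μ z = Complex.exp (PP (kap (fun p => ∫ ω, Y ω ^ p ∂μ)) N z) := by
  set a : ℕ → ℝ := fun p => ∫ ω, Y ω ^ p ∂μ with ha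
  have ha0 : a 0 = 1 := by simp [ha]
  have hm : AEMeasurable Y μ := hY.meas.aemeasurable
  -- the derivative
  have hset : integrableExpSet Y μ = Set.univ := by
    ext t
    refine ⟨fun _ => trivial, fun _ => ?_⟩
    show Integrable (fun ω => Real.exp (t * Y ω)) μ
    refine (hexp |t|).mono' ((Real.measurable_exp.comp_aemeasurable
      (hm.const_mul t)).aestronglyMeasurable) (Eventually.of_forall fun ω => ?_)
    rw [Real.norm_eq_abs, abs_of_pos (Real.exp_pos _), ← abs_mul]
    exact Real.exp_le_exp.2 (le_abs_self _)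
  have hd : ∀ z : ℂ, HasDerivAt (complexMGF Y μ) (PP' (kap a) N z * complexMGF Y μ z) z := by
    intro z
    have h1 := hasDerivAt_complexMGF (X := Y) (μ := μ) (z := z) (by rw [hset]; simp)
    refine h1.congr_deriv ?_
    obtain ⟨s1, s2⟩ := mgf_series hY hexp z
    -- the product series
    have s3 : HasSum (fun n : ℕ => ∑ k ∈ Finset.range N, if k ≤ n then
        z ^ n * ((kap a k : ℝ) : ℂ) * (a (n - k) : ℂ) / (k ! * (n - k)!) else 0)
        (PP' (kap a) N z * complexMGF Y μ z) := by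
      unfold PP'
      rw [Finset.sum_mul]
      refine hasSum_sum fun k _ => ?_
      have h2 : HasSum (fun j : ℕ => (kap a k : ℂ) * z ^ k / k ! * (z ^ j * (a j : ℂ) / j !))
          ((kap a k : ℂ) * z ^ k / k ! * complexMGF Y μ z) := s1.mul_left _
      have h3 : Function.Injective (fun j : ℕ => j + k) := fun x y h => by simpa using h
      rw [← h3.hasSum_iff (f := fun n => if k ≤ n then
        z ^ n * ((kap a k : ℝ) : ℂ) * (a (n - k) : ℂ) / (k ! * (n - k)!) else 0)]
      · refine h2.congr_fun fun j => ?_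
        simp only [Function.comp_apply, if_pos (Nat.le_add_left k j), Nat.add_sub_cancel, pow_add]
        have e1 : ((k ! : ℕ) : ℂ) ≠ 0 := by exact_mod_cast Nat.factorial_ne_zero k
        have e2 : ((j ! : ℕ) : ℂ) ≠ 0 := by exact_mod_cast Nat.factorial_ne_zero j
        field_simp
      · intro n hn
        rw [if_neg]
        intro hk
        exact hn ⟨n - k, by simp only; omega⟩
    refine s2.unique (s3.congr_fun fun n => ?_)
    have e0 : (∫ ω, Y ω ^ (n + 1) ∂μ) = a (n + 1) := rfl
    rw [e0, kap_rec ha0 n]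
    -- extend or restrict the range of summation
    have e1 : ∀ k, (if k ≤ n then z ^ n * ((kap a k : ℝ) : ℂ) * (a (n - k) : ℂ) /
        (k ! * (n - k)!) else 0) =
        if k ≤ n then z ^ n * (((n.choose k : ℝ) * kap a k * a (n - k) : ℝ) : ℂ) / n ! else 0 := by
      intro k
      by_cases hk : k ≤ n
      · rw [if_pos hk, if_pos hk, Nat.cast_choose ℝ hk]
        push_cast
        have e1 : ((k ! : ℕ) : ℂ) ≠ 0 := by exact_mod_cast Nat.factorial_ne_zero k
        have e2 : (((n - k)! : ℕ) : ℂ) ≠ 0 := by exact_mod_cast Nat.factorial_ne_zero _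
        have e3 : ((n ! : ℕ) : ℂ) ≠ 0 := by exact_mod_cast Nat.factorial_ne_zero _
        field_simp
      · rw [if_neg hk, if_neg hk]
    rw [Finset.sum_congr rfl fun k _ => e1 k]
    have e2 : ∑ k ∈ Finset.range N, (if k ≤ n then
        z ^ n * (((n.choose k : ℝ) * kap a k * a (n - k) : ℝ) : ℂ) / n ! else 0) =
        ∑ k ∈ Finset.range (n + 1),
          z ^ n * (((n.choose k : ℝ) * kap a k * a (n - k) : ℝ) : ℂ) / n ! := by
      have e3 : ∑ k ∈ Finset.range (n + 1),
          z ^ n * (((n.choose k : ℝ) * kap a k * a (n - k) : ℝ) : ℂ) / n ! =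
          ∑ k ∈ Finset.range (max N (n + 1)), (if k ≤ n then
            z ^ n * (((n.choose k : ℝ) * kap a k * a (n - k) : ℝ) : ℂ) / n ! else 0) := by
        rw [← Finset.sum_subset (Finset.range_mono (le_max_right N (n + 1))) fun k _ hk => ?_]
        · refine Finset.sum_congr rfl fun k hk => ?_
          rw [if_pos (by have := Finset.mem_range.1 hk; omega)]
        · rw [if_neg (by rw [Finset.mem_range] at hk; omega)]
      rw [e3]
      refine Finset.sum_subset (Finset.range_mono (le_max_left N (n + 1))) fun k _ hk => ?_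
      rw [Finset.mem_range, not_lt] at hk
      rw [hN k hk]
      simp
    rw [e2]
    push_cast
    rw [Finset.mul_sum, Finset.sum_div]
  -- the quotient is constant
  have hq : ∀ z : ℂ, HasDerivAt (fun z => complexMGF Y μ z * Complex.exp (-PP (kap a) N z)) 0 z := by
    intro z
    have h1 := (hd z).fun_mul ((PP_deriv (kap a) N z).fun_neg.cexp)
    refine h1.congr_deriv ?_
    ring
  have h1 := is_const_of_deriv_eq_zero (fun z => (hq z).differentiableAt) (fun z => (hq z).deriv) z 0
  have h2 : complexMGF Y μ 0 * Complex.exp (-PP (kap a) N 0) = 1 := by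
    have e1 : complexMGF Y μ 0 = 1 := by simp [complexMGF]
    have e2 : PP (kap a) N 0 = 0 := by
      unfold PP
      exact Finset.sum_eq_zero fun k _ => by simp
    rw [e1, e2]
    simp
  rw [h2, Complex.exp_neg] at h1
  have h3 := Complex.exp_ne_zero (PP (kap a) N z)
  field_simp at h1
  exact h1

/-! ### The degree of the polynomial -/

theorem PP_re (c : ℕ → ℝ) (N : ℕ) (ρ θ : ℝ) : (PP c N (ρ * Complex.exp (θ * Complex.I))).re =
    ∑ k ∈ Finset.range N, c k * ρ ^ (k + 1) / (k + 1)! * Real.cos ((k + 1) * θ) := by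
  unfold PP
  rw [Complex.re_sum]
  refine Finset.sum_congr rfl fun k _ => ?_
  have e : (c k : ℂ) * (ρ * Complex.exp (θ * Complex.I)) ^ (k + 1) / ((k + 1)! : ℕ) =
      ((c k * ρ ^ (k + 1) / (k + 1)! : ℝ) : ℂ) * Complex.exp ((((k + 1) * θ : ℝ) : ℂ) * Complex.I) := by
    rw [mul_pow, ← Complex.exp_nat_mul]
    push_cast
    ring_nf
  rw [e, Complex.re_ofReal_mul, Complex.exp_ofReal_mul_I_re]

theorem PP_real (c : ℕ → ℝ) (N : ℕ) (x : ℝ) : PP c N x =
    ((∑ k ∈ Finset.range N, c k * x ^ (k + 1) / (k + 1)! : ℝ) : ℂ) := by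
  unfold PP
  push_cast
  rfl

/-- the inequality satisfied by the polynomial -/
theorem PP_ineq {c : ℕ → ℝ} {N : ℕ} (h : ∀ z, complexMGF Y μ z = Complex.exp (PP c N z))
    (ρ θ : ℝ) : ∑ k ∈ Finset.range N, c k * ρ ^ (k + 1) / (k + 1)! * Real.cos ((k + 1) * θ) ≤
      ∑ k ∈ Finset.range N, c k * ρ ^ (k + 1) / (k + 1)! * Real.cos θ ^ (k + 1) := by
  have h1 := norm_complexMGF_le_mgf (X := Y) (μ := μ) (z := ρ * Complex.exp (θ * Complex.I))
  have e1 : ((ρ : ℂ) * Complex.exp (θ * Complex.I)).re = ρ * Real.cos θ := by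
    rw [Complex.re_ofReal_mul, Complex.exp_ofReal_mul_I_re]
  rw [h, e1, Complex.norm_exp, PP_re, ← re_complexMGF_ofReal, h, PP_real, ← Complex.ofReal_exp,
    Complex.ofReal_re, Real.exp_le_exp] at h1
  refine h1.trans (le_of_eq (Finset.sum_congr rfl fun k _ => ?_))
  rw [mul_pow]
  ring

/-- the coefficients of order larger than two vanish -/
theorem top_zero {c : ℕ → ℝ} {K : ℕ} (hK : 2 ≤ K)
    (h : ∀ ρ θ : ℝ, ∑ k ∈ Finset.range (K + 1), c k * ρ ^ (k + 1) / (k + 1)! *
      Real.cos ((k + 1) * θ) ≤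
      ∑ k ∈ Finset.range (K + 1), c k * ρ ^ (k + 1) / (k + 1)! * Real.cos θ ^ (k + 1)) :
    c K = 0 := by
  -- the leading coefficient
  have lead : ∀ θ : ℝ, 0 ≤ c K * (Real.cos θ ^ (K + 1) - Real.cos ((K + 1) * θ)) := by
    intro θ
    have lim : Tendsto (fun ρ : ℝ => (∑ k ∈ Finset.range (K + 1), c k * ρ ^ (k + 1) / (k + 1)! *
        (Real.cos θ ^ (k + 1) - Real.cos ((k + 1) * θ))) / ρ ^ (K + 1)) atTop
        (𝓝 (c K / (K + 1)! * (Real.cos θ ^ (K + 1) - Real.cos ((K + 1) * θ)))) := by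
      have h1 : ∀ k ∈ Finset.range K, Tendsto (fun ρ : ℝ => c k / (k + 1)! *
          (Real.cos θ ^ (k + 1) - Real.cos ((k + 1) * θ)) * (ρ ^ (k + 1) / ρ ^ (K + 1))) atTop
          (𝓝 0) := by
        intro k hk
        have hk' : k + 1 < K + 1 := by have := Finset.mem_range.1 hk; omega
        have := (tendsto_pow_div_pow_atTop_zero (𝕜 := ℝ) hk').const_mul (c k / (k + 1)! *
          (Real.cos θ ^ (k + 1) - Real.cos ((k + 1) * θ)))
        rwa [mul_zero] at this
      have h2 := tendsto_finsetSum _ h1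
      rw [Finset.sum_const_zero] at h2
      have h3 := h2.add_const (c K / (K + 1)! * (Real.cos θ ^ (K + 1) - Real.cos ((K + 1) * θ)))
      rw [zero_add] at h3
      refine h3.congr' ?_
      filter_upwards [eventually_gt_atTop (0 : ℝ)] with ρ hρ
      rw [Finset.sum_range_succ, add_div, Finset.sum_div]
      congr 1
      · refine Finset.sum_congr rfl fun k _ => ?_
        ring
      · have : ρ ^ (K + 1) ≠ 0 := by positivity
        field_simp
    have h4 : 0 ≤ c K / (K + 1)! * (Real.cos θ ^ (K + 1) - Real.cos ((K + 1) * θ)) := by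
      refine ge_of_tendsto lim ?_
      filter_upwards [eventually_gt_atTop (0 : ℝ)] with ρ hρ
      refine div_nonneg ?_ (by positivity)
      have h5 := h ρ θ
      rw [← sub_nonneg, ← Finset.sum_sub_distrib] at h5
      refine h5.trans (le_of_eq (Finset.sum_congr rfl fun k _ => ?_))
      ring
    have h6 : c K * (Real.cos θ ^ (K + 1) - Real.cos ((K + 1) * θ)) =
        (K + 1)! * (c K / (K + 1)! * (Real.cos θ ^ (K + 1) - Real.cos ((K + 1) * θ))) := by
      field_simp
    rw [h6]
    positivity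
  have hK1 : (3 : ℝ) ≤ (K : ℝ) + 1 := by
    have : (2 : ℝ) ≤ K := by exact_mod_cast hK
    linarith
  have hpos : (0 : ℝ) < (K : ℝ) + 1 := by linarith
  -- the two angles
  have a1 := lead (Real.pi / ((K : ℝ) + 1))
  have a2 := lead (2 * Real.pi / ((K : ℝ) + 1))
  have e1 : ((K : ℝ) + 1) * (Real.pi / ((K : ℝ) + 1)) = Real.pi := by field_simp
  have e2 : ((K : ℝ) + 1) * (2 * Real.pi / ((K : ℝ) + 1)) = 2 * Real.pi := by field_simp
  rw [e1, Real.cos_pi] at a1
  rw [e2, Real.cos_two_pi] at a2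
  have b1 : 0 ≤ Real.cos (Real.pi / ((K : ℝ) + 1)) := by
    refine Real.cos_nonneg_of_neg_pi_div_two_le_of_le ?_ ?_
    · have : 0 ≤ Real.pi / ((K : ℝ) + 1) := by positivity
      linarith [Real.pi_pos]
    · rw [div_le_div_iff₀ hpos (by norm_num)]
      nlinarith [Real.pi_pos]
  have c1 : 0 ≤ c K := by
    by_contra hc
    push Not at hc
    have : 0 < Real.cos (Real.pi / ((K : ℝ) + 1)) ^ (K + 1) - -1 := by
      have := pow_nonneg b1 (K + 1)
      linarith
    nlinarith
  have b2 : |Real.cos (2 * Real.pi / ((K : ℝ) + 1))| < 1 := by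
    have p1 : 0 < 2 * Real.pi / ((K : ℝ) + 1) := by positivity
    have p2 : 2 * Real.pi / ((K : ℝ) + 1) < Real.pi := by
      rw [div_lt_iff₀ hpos]
      nlinarith [Real.pi_pos]
    rw [abs_lt]
    constructor
    · have := Real.cos_lt_cos_of_nonneg_of_le_pi p1.le le_rfl p2
      rwa [Real.cos_pi] at this
    · have := Real.cos_lt_cos_of_nonneg_of_le_pi le_rfl p2.le p1
      rwa [Real.cos_zero] at this
  have b3 : Real.cos (2 * Real.pi / ((K : ℝ) + 1)) ^ (K + 1) < 1 := by
    refine (le_abs_self _).trans_lt ?_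
    rw [abs_pow]
    exact pow_lt_one₀ (abs_nonneg _) b2 (by omega)
  nlinarith

/-- **Marcinkiewicz**: if all but finitely many cumulants vanish, the law is normal -/
theorem marcin (hY : AllMom μ Y) (h0 : ∫ ω, Y ω ∂μ = 0) {N : ℕ}
    (hN : ∀ n, N ≤ n → kap (fun p => ∫ ω, Y ω ^ p ∂μ) n = 0) :
    μ.map Y = gaussianReal 0 (∫ ω, Y ω ^ 2 ∂μ).toNNReal := by
  set c : ℕ → ℝ := kap (fun p => ∫ ω, Y ω ^ p ∂μ) with hc
  have hexp := exp_int hY hN
  have hall : ∀ n, 2 ≤ n → c n = 0 := by
    by_contra hne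
    push Not at hne
    -- the largest index
    obtain ⟨n₁, h1, h2⟩ := hne
    have hex : ∃ K, 2 ≤ K ∧ c K ≠ 0 ∧ ∀ n, K < n → c n = 0 := by
      by_contra hno
      push Not at hno
      have : ∀ j : ℕ, ∃ n, j ≤ n ∧ 2 ≤ n ∧ c n ≠ 0 := by
        intro j
        induction j with
        | zero => exact ⟨n₁, Nat.zero_le _, h1, h2⟩
        | succ j ih =>
          obtain ⟨n, hn1, hn2, hn3⟩ := ih
          obtain ⟨n', hn4, hn5⟩ := hno n hn2 hn3
          exact ⟨n', by omega, by omega, hn5⟩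
      obtain ⟨n, hn1, hn2, hn3⟩ := this N
      exact hn3 (hN n hn1)
    obtain ⟨K, hK1, hK2, hK3⟩ := hex
    exact hK2 (top_zero hK1 (PP_ineq (mgf_eq hY hexp fun n hn => hK3 n (by omega))))
  have hm := mgf_eq hY hexp (N := 2) hall
  have c0 : c 0 = 0 := by
    rw [hc, kap_eq]
    simpa using h0
  have c1 : c 1 = ∫ ω, Y ω ^ 2 ∂μ := by
    rw [hc, kap_eq]
    simp only [Finset.sum_range_one, Nat.choose_zero_right]
    have : kap (fun p => ∫ ω, Y ω ^ p ∂μ) 0 = 0 := c0
    rw [this]
    simp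
  have hv : 0 ≤ ∫ ω, Y ω ^ 2 ∂μ := integral_nonneg fun ω => sq_nonneg _
  have key : complexMGF Y μ = complexMGF id (gaussianReal 0 (∫ ω, Y ω ^ 2 ∂μ).toNNReal) := by
    funext z
    rw [hm, complexMGF_id_gaussianReal]
    congr 1
    unfold PP
    have e0 : kap (fun p => ∫ ω, Y ω ^ p ∂μ) 0 = 0 := c0
    have e1 : kap (fun p => ∫ ω, Y ω ^ p ∂μ) 1 = ∫ ω, Y ω ^ 2 ∂μ := c1
    rw [Finset.sum_range_succ, Finset.sum_range_one, e0, e1]
    have e2 : (((∫ ω, Y ω ^ 2 ∂μ).toNNReal : NNReal) : ℝ) = ∫ ω, Y ω ^ 2 ∂μ :=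
      Real.coe_toNNReal _ hv
    rw [show ((((∫ ω, Y ω ^ 2 ∂μ).toNNReal : NNReal) : ℝ) : ℂ) =
      ((∫ ω, Y ω ^ 2 ∂μ : ℝ) : ℂ) by rw [e2]]
    simp
  have := Measure.ext_of_complexMGF_eq hY.meas.aemeasurable aemeasurable_id key
  rwa [Measure.map_id] at this

end

end Pool.Agent.Helper37.BC
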