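import Pool.Agent.Helper37.BC.Van
import Pool.Agent.Helper37.BC.Mar
import Pool.Agent.Helper37.BC.Defs

/-!
# Clustering stationary waves are Gaussian (MP_6b977f_mp)
-/

set_option autoImplicit false
set_option linter.unusedSectionVars false
open MeasureTheory Filter Topology ProbabilityTheory
open scoped ContDiff ENNReal

namespace Pool.Agent.Helper37.BC

open Pool.Agent.W745.RW (lap dx dy)
open Pool.Agent.N661.BR (MW J0 IsStationary shift meas_eval meas_shift IsGaussianLaw lin)

noncomputable section

variable {μ : Measure MW} [IsProbabilityMeasure μ]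

/-- the truncated functions are correlations with a random variable, in each variable -/
theorem trunc_rep (hs : IsStationary μ) (h0 : FiniteMoments μ) {n : ℕ} (z : Fin (n + 1) → ℂ)
    (j : Fin (n + 1)) : ∃ Q : MW → ℝ, AllMom μ Q ∧ ∀ y : ℂ,
      trunc μ (Function.update z j y) = UU μ Q y := by
  obtain ⟨Q, hQ, h⟩ := cum_rep (μ := μ) (X := fun (j : Fin (n + 1)) (f : MW) => f (z j))
    (fun k => eval_mom hs h0 (z k)) (i := 0) (j := j) _ (Finset.univ.erase 0) rfl (by simp)
    (by simp)
  refine ⟨Q, hQ, fun y => ?_⟩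
  unfold trunc UU
  rw [← h _ (eval_mom hs h0 y)]
  congr 1
  funext k f
  by_cases hk : k = j
  · subst hk; simp
  · rw [Function.update_of_ne hk, Function.update_of_ne hk]

theorem trunc_cont (hs : IsStationary μ) (h0 : FiniteMoments μ) {n : ℕ} :
    Continuous fun z : Fin (n + 1) → ℂ => trunc μ z :=
  cum_cont hs h0 0 _ _ rfl

/-- **the truncated functions of clustering waves vanish** -/
theorem trunc_zero (hs : IsStationary μ) (h0 : FiniteMoments μ) {n : ℕ} (hc : Clusters μ n)
    (z : Fin (n + 1) → ℂ) : trunc μ z = 0 := by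
  have h1 : ∀ᵐ z : Fin n → ℂ, ∀ y : ℂ, trunc μ (Fin.snoc z y : Fin (n + 1) → ℂ) = 0 := by
    filter_upwards [hc] with z hz y
    obtain ⟨Q, hQ, h⟩ := trunc_rep hs h0 (Fin.snoc z 0 : Fin (n + 1) → ℂ) (Fin.last n)
    have h2 : ∀ y : ℂ, trunc μ (Fin.snoc z y : Fin (n + 1) → ℂ) = UU μ Q y := by
      intro y
      rw [← h y, Fin.update_snoc_last]
    have h3 : Dec (UU μ Q) := by
      intro ε hε
      refine (hz ε hε).mono fun R hR => ?_
      simp only [h2] at hR
      exact hR
    rw [h2]
    exact UU_zero hs (h0 2) hQ.two h3 y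
  have hcl : IsClosed {z : Fin n → ℂ | ∀ y : ℂ, trunc μ (Fin.snoc z y : Fin (n + 1) → ℂ) = 0} := by
    have : {z : Fin n → ℂ | ∀ y : ℂ, trunc μ (Fin.snoc z y : Fin (n + 1) → ℂ) = 0} =
        ⋂ y : ℂ, {z : Fin n → ℂ | trunc μ (Fin.snoc z y : Fin (n + 1) → ℂ) = 0} := by
      ext z; simp
    rw [this]
    refine isClosed_iInter fun y => isClosed_eq ((trunc_cont hs h0).comp ?_) continuous_const
    exact Continuous.finSnoc continuous_id continuous_const
  have h4 : Dense {z : Fin n → ℂ | ∀ y : ℂ, trunc μ (Fin.snoc z y : Fin (n + 1) → ℂ) = 0} :=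
    Measure.dense_of_ae h1
  have h5 : (Fin.init z : Fin n → ℂ) ∈
      {z : Fin n → ℂ | ∀ y : ℂ, trunc μ (Fin.snoc z y : Fin (n + 1) → ℂ) = 0} := by
    rw [hcl.closure_eq.symm.trans h4.closure_eq]
    trivial
  have h6 := h5 (z (Fin.last n))
  rwa [Fin.snoc_init_self] at h6

/-- the mean of a stationary wave is zero -/
theorem mean_zero (hs : IsStationary μ) (h0 : FiniteMoments μ) (w : ℂ) :
    ∫ f : MW, f w ∂μ = 0 := by
  have hconst : ∀ y : ℂ, ∫ f : MW, f y ∂μ = ∫ f : MW, f 0 ∂μ := by
    intro y
    rw [← int_shift hs (F := fun f : MW => f 0) (meas_eval 0) y]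
    refine integral_congr_ae (Eventually.of_forall fun f => ?_)
    show f y = (shift y f) 0
    rw [shift_apply, zero_add]
  rw [hconst]
  by_contra hne
  set m := ∫ f : MW, f 0 ∂μ with hm
  -- the circular means
  have h1 : ∀ r : ℝ, 0 ≤ r → J0 r = 1 := by
    intro r hr
    obtain ⟨C, hC, hb⟩ := GB_bound (ρ := r) hr
    have hj : Integrable (fun p : ℝ × MW => p.2 ((r : ℂ) * ee p.1))
        ((volume.restrict (Set.Ioc 0 (2 * Real.pi))).prod μ) := by
      have hG : Integrable (fun f : MW => C * GB r f) μ := ((GB_mom hs h0 hr).cmul C).int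
      have h1' : Integrable (fun _ : ℝ => (1:ℝ)) (volume.restrict (Set.Ioc 0 (2 * Real.pi))) := by
        have : IsFiniteMeasure (volume.restrict (Set.Ioc 0 (2 * Real.pi))) := ⟨by
          rw [Measure.restrict_apply_univ]; exact measure_Ioc_lt_top⟩
        exact integrable_const _
      refine (h1'.mul_prod hG).mono' ?_ (Eventually.of_forall fun p => ?_)
      · exact (meas_ev.comp ((measurable_const.mul (ee_cont.measurable.comp
          measurable_fst)).prodMk measurable_snd)).aestronglyMeasurable
      · rw [Real.norm_eq_abs, one_mul]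
        refine hb _ _ ?_
        rw [norm_mul, ee_norm, mul_one, Complex.norm_real, Real.norm_eq_abs, abs_of_nonneg hr]
    have h2 := integral_integral_swap (f := fun (θ : ℝ) (f : MW) => f ((r : ℂ) * ee θ)) hj
    have h3 : ∀ f : MW, ∫ θ in Set.Ioc 0 (2 * Real.pi), f ((r : ℂ) * ee θ) =
        2 * Real.pi * J0 r * f 0 := by
      intro f
      have := AA_eq f.2.1 f.2.2 0 hr
      unfold AA at this
      rw [intervalIntegral.integral_of_le (by positivity)] at this
      rw [← this]
      simp only [zero_add]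
    simp only [h3, hconst] at h2
    rw [integral_const_mul, integral_const, ← hm] at h2
    simp only [measureReal_def, Measure.restrict_apply_univ, Real.volume_Ioc, sub_zero,
      smul_eq_mul] at h2
    rw [ENNReal.toReal_ofReal (by positivity)] at h2
    have hpi := Real.pi_pos
    have h4 : (2 * Real.pi * m) * (1 - J0 r) = 0 := by linarith
    rcases mul_eq_zero.1 h4 with h5 | h5
    · exact absurd (by simpa [hpi.ne'] using h5) hne
    · linarith
  -- contradiction with the Bessel equation
  have h2 : ∀ r : ℝ, 0 < r → J0' r = 0 := by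
    intro r hr
    have e : J0 =ᶠ[𝓝 r] fun _ => 1 := by
      filter_upwards [lt_mem_nhds hr] with x hx
      exact h1 x hx.le
    exact (J0_deriv r).unique ((hasDerivAt_const r (1:ℝ)).congr_of_eventuallyEq e)
  have h3 : J0'' 1 = 0 := by
    have e : J0' =ᶠ[𝓝 1] fun _ => 0 := by
      filter_upwards [lt_mem_nhds (one_pos : (0:ℝ) < 1)] with x hx
      exact h2 x hx
    exact (J0'_deriv 1).unique ((hasDerivAt_const 1 (0:ℝ)).congr_of_eventuallyEq e)
  have h4 := J0_ode 1
  rw [h3, h2 1 one_pos, h1 1 zero_le_one] at h4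
  norm_num at h4

/-- **clustering waves are Gaussian** -/
theorem gauss_of_trunc (hs : IsStationary μ) (h0 : FiniteMoments μ) {N : ℕ}
    (h : ∀ n, N ≤ n → ∀ z : Fin (n + 1) → ℂ, trunc μ z = 0) : IsGaussianLaw μ := by
  intro k w t
  set Y : MW → ℝ := fun f => ∑ a ∈ Finset.univ, t a * f (w a) with hY
  have hYl : lin w t = Y := rfl
  rw [hYl]
  have hYm : AllMom μ Y := AllMom.sum _ fun a _ => (eval_mom hs h0 (w a)).cmul _
  refine marcin hYm ?_ (N := N) fun n hn => ?_
  · rw [hY]
    rw [integral_finsetSum _ fun a _ => ((eval_mom hs h0 (w a)).cmul _).int]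
    refine Finset.sum_eq_zero fun a _ => ?_
    rw [integral_const_mul, mean_zero hs h0, mul_zero]
  · have hcard : (Finset.univ.erase (0 : Fin (n + 1))).card = n := by
      rw [Finset.card_erase_of_mem (Finset.mem_univ _), Finset.card_univ, Fintype.card_fin]
      rfl
    rw [← cum_const (μ := μ) Y (i := (0 : Fin (n + 1))) n (Finset.univ.erase 0) hcard (by simp)]
    refine cum_lin (μ := μ) (B := Set.range fun (z : ℂ) (f : MW) => f z) ?_ (by simp) ?_
      Finset.univ t (fun (a : Fin k) (f : MW) => f (w a)) (fun a _ => ⟨w a, rfl⟩)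
    · rintro _ ⟨z, rfl⟩
      exact eval_mom hs h0 z
    · intro X hX _
      have hX' : ∀ j : Fin (n + 1), ∃ z : ℂ, (fun f : MW => f z) = X j := fun j => by
        have := hX j (by simp)
        exact this
      choose z hz using hX'
      have h1 := h n hn z
      unfold trunc at h1
      have h2 : X = fun (j : Fin (n + 1)) (f : MW) => f (z j) := funext fun j => (hz j).symm
      rw [h2]
      exact h1

end

end Pool.Agent.Helper37.BC
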