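import Pool.Agent.Helper37.BC.Cont

/-!
# Decay of correlations of stationary waves (MP_6b977f_mp)
-/

set_option autoImplicit false
set_option linter.unusedSectionVars false
open MeasureTheory Filter Topology ProbabilityTheory
open scoped ContDiff ENNReal

namespace Pool.Agent.Helper37.BC

open Pool.Agent.W745.RW (lap dx dy)
open Pool.Agent.N661.BR (MW J0 IsStationary shift meas_eval meas_shift)

noncomputable section

variable {μ : Measure MW} [IsProbabilityMeasure μ]

/-- the function `y ↦ E [f(y) Q]` -/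
def UU (μ : Measure MW) (Q : MW → ℝ) (y : ℂ) : ℝ := ∫ f : MW, f y * Q f ∂μ

theorem UU_cont (hs : IsStationary μ) (h2 : Integrable (fun f : MW => f 0 ^ 2) μ)
    {Q : MW → ℝ} (hQ : MemLp Q 2 μ) : Continuous (UU μ Q) := by
  rw [continuous_iff_continuousAt]
  intro z₀
  obtain ⟨C, hC, hb⟩ := GB_bound (ρ := ‖z₀‖ + 1) (by positivity)
  unfold UU
  refine continuousAt_of_dominated (bound := fun f => |C * GB (‖z₀‖ + 1) f * Q f|) ?_ ?_ ?_ ?_
  · exact Eventually.of_forall fun z => (meas_eval z).aestronglyMeasurable.mul hQ.1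
  · filter_upwards [Metric.ball_mem_nhds z₀ one_pos] with z hz
    refine Eventually.of_forall fun f => ?_
    rw [mem_ball_iff_norm] at hz
    have h1 : |f z| ≤ C * GB (‖z₀‖ + 1) f := by
      refine hb f z ?_
      calc ‖z‖ = ‖(z - z₀) + z₀‖ := by rw [sub_add_cancel]
        _ ≤ ‖z - z₀‖ + ‖z₀‖ := norm_add_le _ _
        _ ≤ ‖z₀‖ + 1 := by linarith
    rw [Real.norm_eq_abs, abs_mul, abs_mul (C * GB (‖z₀‖ + 1) f)]
    exact mul_le_mul_of_nonneg_right (h1.trans (le_abs_self _)) (abs_nonneg _)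
  · exact (MemLp.integrable_mul ((GB_two hs h2 (by positivity)).const_mul C) hQ).abs
  · exact Eventually.of_forall fun f => (f.2.1.continuous.mul continuous_const).continuousAt

theorem KK_zero {R : ℝ} {y : ℂ} (h : y ∉ Metric.ball (0:ℂ) R) : KK R y = 0 := by
  unfold KK
  rw [Set.indicator_of_notMem h]

/-- the reproducing property for correlations -/
theorem UU_rep (hs : IsStationary μ) (h2 : Integrable (fun f : MW => f 0 ^ 2) μ)
    {Q : MW → ℝ} (hQ : MemLp Q 2 μ) {R : ℝ} (hR : 1 ≤ R) (w : ℂ) :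
    ∫ x, KK R x * UU μ Q (w + x) = UU μ Q w := by
  have hF := FF_pos hR
  -- joint integrability
  have hm : AEStronglyMeasurable (fun p : ℂ × MW => KK R p.1 * (p.2 (w + p.1) * Q p.2))
      (volume.prod μ) := by
    refine ((KK_meas R).comp measurable_fst).aestronglyMeasurable.mul
      (AEStronglyMeasurable.mul ?_ (hQ.1.comp_snd))
    exact (meas_ev.comp (((measurable_const.add measurable_fst)).prodMk
      measurable_snd)).aestronglyMeasurable
  obtain ⟨C, hC, hb⟩ := GB_bound (ρ := ‖w‖ + R) (by positivity)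
  have hG : Integrable (fun f : MW => C * GB (‖w‖ + R) f * |Q f|) μ :=
    MemLp.integrable_mul (f := fun f => C * GB (‖w‖ + R) f) (g := fun f => |Q f|)
      ((GB_two hs h2 (by positivity)).const_mul C) hQ.abs
  have hB : Integrable ((Metric.ball (0:ℂ) R).indicator fun _ : ℂ => 1 / (Real.pi * FF R)) :=
    (integrable_indicator_iff Metric.isOpen_ball.measurableSet).2
      (integrableOn_const (ball_fin R))
  have hj : Integrable (fun p : ℂ × MW => KK R p.1 * (p.2 (w + p.1) * Q p.2)) (volume.prod μ) := by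
    refine (hB.mul_prod hG).mono' hm (Eventually.of_forall fun p => ?_)
    rw [Real.norm_eq_abs, abs_mul, abs_mul]
    by_cases hx : p.1 ∈ Metric.ball (0:ℂ) R
    · rw [Set.indicator_of_mem hx]
      rw [mem_ball_zero_iff] at hx
      have h1 : |p.2 (w + p.1)| ≤ C * GB (‖w‖ + R) p.2 :=
        hb _ _ ((norm_add_le _ _).trans (by linarith))
      have h2 := KK_bound hR p.1
      have h3 : 0 ≤ C * GB (‖w‖ + R) p.2 := mul_nonneg hC (GB_nonneg _ _)
      exact mul_le_mul h2 (mul_le_mul_of_nonneg_right h1 (abs_nonneg _)) (by positivity)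
        (by positivity)
    · rw [Set.indicator_of_notMem hx, KK_zero hx]
      simp
  have h1 : ∀ x : ℂ, KK R x * UU μ Q (w + x) = ∫ f : MW, KK R x * (f (w + x) * Q f) ∂μ := by
    intro x
    unfold UU
    rw [integral_const_mul]
  simp_rw [h1]
  rw [integral_integral_swap hj]
  unfold UU
  refine integral_congr_ae (Eventually.of_forall fun f => ?_)
  show ∫ x, KK R x * (f (w + x) * Q f) = f w * Q f
  have h3 := KK_rep f.2.1 f.2.2 hR w
  rw [← h3, ← integral_mul_const]
  congr 1
  funext x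
  ring

/-- a lower bound for the mass of correlations -/
theorem UU_sq (hs : IsStationary μ) (h2 : Integrable (fun f : MW => f 0 ^ 2) μ)
    {Q : MW → ℝ} (hQ : MemLp Q 2 μ) {R : ℝ} (hR : 1 ≤ R) (w : ℂ) :
    Real.pi * FF R * UU μ Q w ^ 2 ≤ ∫ y in Metric.ball (0:ℂ) (‖w‖ + R), UU μ Q y ^ 2 := by
  have hF := FF_pos hR
  have hc := UU_cont hs h2 hQ
  set B := Metric.ball (0:ℂ) R with hB
  have hBm : MeasurableSet B := Metric.isOpen_ball.measurableSet
  set u : ℂ → ℝ := fun x => UU μ Q (w + x) with hu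
  have hcu : Continuous u := hc.comp (by fun_prop)
  have h1 : UU μ Q w = ∫ x in B, KK R x * u x := by
    rw [← UU_rep hs h2 hQ hR w, ← integral_indicator hBm]
    congr 1
    funext x
    by_cases hx : x ∈ B
    · rw [Set.indicator_of_mem hx]
    · rw [Set.indicator_of_notMem hx, KK_zero hx, zero_mul]
  -- Cauchy-Schwarz
  have hKc : ∀ x ∈ B, KK R x = J0 ‖x‖ / (Real.pi * FF R) := fun x hx => by
    unfold KK; rw [Set.indicator_of_mem hx]
  have iK : IntegrableOn (fun x => KK R x ^ 2) B := by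
    refine (cont_ball (((J0_cont.comp continuous_norm).div_const (Real.pi * FF R)).pow 2)
      R).congr_fun (fun x hx => ?_) hBm
    show (J0 ‖x‖ / (Real.pi * FF R)) ^ 2 = KK R x ^ 2
    rw [hKc x hx]
  have iU : IntegrableOn (fun x => u x ^ 2) B := cont_ball (hcu.pow 2) R
  have iKU : IntegrableOn (fun x => KK R x * u x) B := by
    refine (cont_ball (((J0_cont.comp continuous_norm).div_const (Real.pi * FF R)).mul hcu)
      R).congr_fun (fun x hx => ?_) hBm
    show J0 ‖x‖ / (Real.pi * FF R) * u x = KK R x * u x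
    rw [hKc x hx]
  have sK : ∫ x in B, KK R x ^ 2 = 1 / (Real.pi * FF R) := by
    rw [← KK_sq hR, ← integral_indicator hBm]
    congr 1
    funext x
    by_cases hx : x ∈ B
    · rw [Set.indicator_of_mem hx]
    · rw [Set.indicator_of_notMem hx, KK_zero hx]; ring
  have h2 : (∫ x in B, KK R x * u x) ^ 2 ≤ (∫ x in B, KK R x ^ 2) * ∫ x in B, u x ^ 2 := by
    -- the discriminant
    have hq : ∀ t : ℝ, 0 ≤ (∫ x in B, KK R x ^ 2) * (t * t) + (-2 * ∫ x in B, KK R x * u x) * t +
        ∫ x in B, u x ^ 2 := by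
      intro t
      have e : (∫ x in B, KK R x ^ 2) * (t * t) + (-2 * ∫ x in B, KK R x * u x) * t +
          ∫ x in B, u x ^ 2 = ∫ x in B, (t * KK R x - u x) ^ 2 := by
        have e1 : ∀ x, (t * KK R x - u x) ^ 2 =
            (t * t) * KK R x ^ 2 + (-2 * t) * (KK R x * u x) + u x ^ 2 := fun x => by ring
        simp_rw [e1]
        have a1 : IntegrableOn (fun x => (t * t) * KK R x ^ 2) B := iK.const_mul _
        have a2 : IntegrableOn (fun x => (-2 * t) * (KK R x * u x)) B := iKU.const_mul _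
        have a12 : IntegrableOn (fun x => (t * t) * KK R x ^ 2 + (-2 * t) * (KK R x * u x)) B :=
          a1.add a2
        rw [integral_add a12 iU, integral_add a1 a2, integral_const_mul, integral_const_mul]
        ring
      rw [e]
      exact integral_nonneg fun x => sq_nonneg _
    have := discrim_le_zero hq
    unfold discrim at this
    nlinarith
  rw [← h1, sK] at h2
  have h3 : ∫ x in B, u x ^ 2 ≤ ∫ y in Metric.ball (0:ℂ) (‖w‖ + R), UU μ Q y ^ 2 := by
    have e1 : ∫ x in B, u x ^ 2 = ∫ y in Metric.ball w R, UU μ Q y ^ 2 := by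
      rw [← integral_indicator hBm, ← integral_indicator Metric.isOpen_ball.measurableSet,
        ← integral_add_left_eq_self
          ((Metric.ball w R).indicator (fun y => UU μ Q y ^ 2)) w]
      congr 1
      funext x
      by_cases hx : x ∈ B
      · rw [Set.indicator_of_mem hx, Set.indicator_of_mem]
        rw [mem_ball_iff_norm, add_sub_cancel_left]
        rwa [hB, mem_ball_zero_iff] at hx
      · rw [Set.indicator_of_notMem hx, Set.indicator_of_notMem]
        rw [mem_ball_iff_norm, add_sub_cancel_left]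
        rwa [hB, mem_ball_zero_iff] at hx
    rw [e1]
    refine setIntegral_mono_set (cont_ball (hc.pow 2) _)
      (Eventually.of_forall fun x => sq_nonneg _) (Eventually.of_forall ?_)
    intro x hx
    have hx' : x ∈ Metric.ball w R := hx
    rw [mem_ball_iff_norm] at hx'
    show x ∈ Metric.ball (0:ℂ) (‖w‖ + R)
    rw [mem_ball_zero_iff]
    calc ‖x‖ = ‖(x - w) + w‖ := by rw [sub_add_cancel]
      _ ≤ ‖x - w‖ + ‖w‖ := norm_add_le _ _
      _ < ‖w‖ + R := by linarith
  calc Real.pi * FF R * UU μ Q w ^ 2 ≤ Real.pi * FF R * (1 / (Real.pi * FF R) * ∫ x in B, u x ^ 2) := by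
        gcongr
    _ = ∫ x in B, u x ^ 2 := by field_simp
    _ ≤ _ := h3

/-- the mean square decay condition -/
def Dec (u : ℂ → ℝ) : Prop :=
  ∀ ε : ℝ, 0 < ε → ∃ᶠ R in atTop, ∫ y in Metric.ball (0:ℂ) R, u y ^ 2 ≤ ε * R

/-- correlations which decay faster than the Bessel function vanish -/
theorem UU_zero (hs : IsStationary μ) (h2 : Integrable (fun f : MW => f 0 ^ 2) μ)
    {Q : MW → ℝ} (hQ : MemLp Q 2 μ) (hd : Dec (UU μ Q)) (w : ℂ) : UU μ Q w = 0 := by
  obtain ⟨c, hc, hl⟩ := FF_lower
  by_contra hne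
  have hp : 0 < UU μ Q w ^ 2 := by positivity
  have hpi := Real.pi_pos
  obtain ⟨R, hR1, hR2⟩ := ((hd (Real.pi * c * UU μ Q w ^ 2 / 4) (by positivity)).and_eventually
    (eventually_ge_atTop (2 * (‖w‖ + 1)))).exists
  have hw := norm_nonneg w
  have h1 := UU_sq hs h2 hQ (R := R - ‖w‖) (by linarith) w
  rw [add_sub_cancel] at h1
  have h2 := hl (R - ‖w‖) (by linarith)
  have h3 : Real.pi * (c * (R - ‖w‖)) * UU μ Q w ^ 2 ≤ Real.pi * FF (R - ‖w‖) * UU μ Q w ^ 2 := by
    gcongr
  have h4 : R / 2 ≤ R - ‖w‖ := by linarith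
  have h5 : Real.pi * (c * (R / 2)) * UU μ Q w ^ 2 ≤ Real.pi * (c * (R - ‖w‖)) * UU μ Q w ^ 2 := by
    gcongr
  have h6 : 0 < Real.pi * c * UU μ Q w ^ 2 * R := by
    have : 0 < R := by linarith
    positivity
  nlinarith

end

end Pool.Agent.Helper37.BC
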