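import Pool.Agent.Helper37.BC.Far

/-!
# The truncated functions of Gaussian waves (MP_6b977f_mp)
-/

set_option autoImplicit false
set_option linter.unusedSectionVars false
open MeasureTheory Filter Topology ProbabilityTheory
open scoped ContDiff ENNReal

namespace Pool.Agent.Helper37.BC

open Pool.Agent.W745.RW (lap dx dy)
open Pool.Agent.N661.BR (MW J0 IsStationary shift meas_eval meas_shift IsGaussianLaw lin meas_lin)
open Complex (I)

noncomputable section

variable {μ : Measure MW} [IsProbabilityMeasure μ]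

/-- Gaussian waves have finite moments -/
theorem gauss_moments (hG : IsGaussianLaw μ) : FiniteMoments μ := by
  intro k
  have h := hG 1 (fun _ => 0) (fun _ => 1)
  have hl : lin (fun _ : Fin 1 => (0:ℂ)) (fun _ => (1:ℝ)) = fun f : MW => f 0 := by
    funext f
    simp [lin]
  rw [hl] at h
  have h1 : MemLp (id : ℝ → ℝ) (k : NNReal) (μ.map fun f : MW => f 0) := by
    rw [h]
    exact memLp_id_gaussianReal (k : NNReal)
  have h2 : MemLp (fun f : MW => f 0) (k : NNReal) μ := by
    have := (memLp_map_measure_iff measurable_id.aestronglyMeasurable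
      (meas_eval 0).aemeasurable).1 h1
    exact this
  have h3 := h2.integrable_norm_rpow'
  refine (h3.mono' ((meas_eval 0).pow_const k).aestronglyMeasurable
    (Eventually.of_forall fun f => ?_))
  have : ((((k : NNReal) : ℝ≥0∞)).toReal) = (k : ℝ) := by simp
  rw [this, Real.rpow_natCast, norm_pow]

/-- differentiation of weighted characteristic functions -/
theorem psi_deriv {G X Y : MW → ℝ} (hG : AllMom μ G) (hY : AllMom μ Y) (hmG : Measurable G)
    (hmX : Measurable X) (hmY : Measurable Y) (s : ℝ) :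
    HasDerivAt (fun s : ℝ => ∫ f : MW, (G f : ℂ) * Complex.exp (I * ((X f + s * Y f : ℝ) : ℂ)) ∂μ)
      (I * ∫ f : MW, ((G f * Y f : ℝ) : ℂ) * Complex.exp (I * ((X f + s * Y f : ℝ) : ℂ)) ∂μ) s := by
  have hm : ∀ s : ℝ, Measurable fun f : MW => Complex.exp (I * ((X f + s * Y f : ℝ) : ℂ)) := by
    intro s
    exact Complex.measurable_exp.comp ((Complex.measurable_ofReal.comp
      (hmX.add (hmY.const_mul s))).const_mul I)
  rw [← integral_const_mul]
  refine (hasDerivAt_integral_of_dominated_loc_of_deriv_le (μ := μ)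
    (F := fun (s : ℝ) (f : MW) => (G f : ℂ) * Complex.exp (I * ((X f + s * Y f : ℝ) : ℂ)))
    (F' := fun (s : ℝ) (f : MW) => I * (((G f * Y f : ℝ) : ℂ) *
      Complex.exp (I * ((X f + s * Y f : ℝ) : ℂ))))
    (bound := fun f => |G f * Y f|) (Metric.ball_mem_nhds s one_pos) ?_ ?_ ?_ ?_ ?_ ?_).2
  · exact Eventually.of_forall fun s =>
      ((Complex.measurable_ofReal.comp hmG).mul (hm s)).aestronglyMeasurable
  · refine hG.int.norm.mono' ((Complex.measurable_ofReal.comp hmG).mul (hm s)).aestronglyMeasurable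
      (Eventually.of_forall fun f => ?_)
    rw [norm_mul, mul_comm I, Complex.norm_exp_ofReal_mul_I, mul_one, Complex.norm_real]
  · exact (((Complex.measurable_ofReal.comp (hmG.mul hmY)).mul (hm s)).const_mul I).aestronglyMeasurable
  · refine Eventually.of_forall fun f s' _ => ?_
    rw [norm_mul, norm_mul, Complex.norm_I, one_mul, Complex.norm_real, mul_comm I,
      Complex.norm_exp_ofReal_mul_I, mul_one, Real.norm_eq_abs]
  · exact (hG.mul hY).int.abs
  · refine Eventually.of_forall fun f s' _ => ?_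
    have h1 : HasDerivAt (fun s : ℝ => ((X f + s * Y f : ℝ) : ℂ)) ((Y f : ℝ) : ℂ) s' := by
      have := (((hasDerivAt_id' s').mul_const (Y f)).const_add (X f)).ofReal_comp
      simpa using this
    have h2 := ((h1.const_mul I).cexp).const_mul (G f : ℂ)
    refine h2.congr_deriv ?_
    push_cast
    ring

/-- the moments with an exponential weight -/
def EM (μ : Measure MW) {ι : Type*} (z : ι → ℂ) (S : Finset ι) {k : ℕ} (w : Fin k → ℂ)
    (t : Fin k → ℝ) : ℂ :=
  ∫ f : MW, ((∏ j ∈ S, f (z j) : ℝ) : ℂ) * Complex.exp (I * (lin w t f : ℝ)) ∂μ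

theorem lin_snoc {k : ℕ} (w : Fin k → ℂ) (t : Fin k → ℝ) (y : ℂ) (s : ℝ) (f : MW) :
    lin (Fin.snoc w y : Fin (k + 1) → ℂ) (Fin.snoc t s : Fin (k + 1) → ℝ) f =
      lin w t f + s * f y := by
  show ∑ j, _ = _
  rw [Fin.sum_univ_castSucc]
  simp only [Fin.snoc_castSucc, Fin.snoc_last]
  rfl

/-- the derivative of the weighted moments -/
theorem EM_deriv (hs : IsStationary μ) (h0 : FiniteMoments μ) {ι : Type*} [DecidableEq ι]
    (z : ι → ℂ) (S : Finset ι) {j : ι} (hj : j ∉ S) {k : ℕ} (w : Fin k → ℂ) (t : Fin k → ℝ) :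
    HasDerivAt (fun s : ℝ => EM μ z S (Fin.snoc w (z j) : Fin (k + 1) → ℂ)
      (Fin.snoc t s : Fin (k + 1) → ℝ)) (I * EM μ z (insert j S) w t) 0 := by
  have h1 := psi_deriv (μ := μ) (G := fun f : MW => ∏ j ∈ S, f (z j)) (X := lin w t)
    (Y := fun f : MW => f (z j)) (AllMom.prod S fun j _ => eval_mom hs h0 (z j))
    (eval_mom hs h0 (z j)) (Finset.measurable_prod S fun j _ => meas_eval (z j)) (meas_lin w t)
    (meas_eval (z j)) 0
  have e1 : (fun s : ℝ => EM μ z S (Fin.snoc w (z j) : Fin (k + 1) → ℂ)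
      (Fin.snoc t s : Fin (k + 1) → ℝ)) = fun s : ℝ => ∫ f : MW, ((∏ j ∈ S, f (z j) : ℝ) : ℂ) *
        Complex.exp (I * ((lin w t f + s * f (z j) : ℝ) : ℂ)) ∂μ := by
    funext s
    unfold EM
    simp only [lin_snoc]
  rw [e1]
  refine h1.congr_deriv ?_
  unfold EM
  congr 1
  refine integral_congr_ae (Eventually.of_forall fun f => ?_)
  simp only [Finset.prod_insert hj, zero_mul, add_zero]
  rw [mul_comm (f (z j))]

/-- **Stein's identity** -/
theorem stein (hs : IsStationary μ) (hG : IsGaussianLaw μ) {ι : Type*} [DecidableEq ι]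
    (z : ι → ℂ) {i : ι} (S : Finset ι) (hi : i ∉ S) : ∀ {k : ℕ} (w : Fin k → ℂ) (t : Fin k → ℝ),
    EM μ z (insert i S) w t = (∑ j ∈ S, ((∫ f : MW, f (z i) * f (z j) ∂μ : ℝ) : ℂ) *
      EM μ z (S.erase j) w t) + I * ((∫ f : MW, f (z i) * lin w t f ∂μ : ℝ) : ℂ) * EM μ z S w t := by
  have h0 := gauss_moments hG
  induction S using Finset.induction_on with
  | empty =>
    intro k w t
    have h := excess_gauss hs (h0 2) hG w t (z i)
    unfold excess at h
    unfold EM
    simp only [insert_empty_eq, Finset.prod_singleton, Finset.sum_empty, Finset.prod_empty,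
      Complex.ofReal_one, one_mul, zero_add]
    linear_combination h
  | insert a S ha ih =>
    intro k w t
    rw [Finset.mem_insert] at hi
    push Not at hi
    obtain ⟨hia, hiS⟩ := hi
    have key : ∀ s : ℝ, EM μ z (insert i S) (Fin.snoc w (z a) : Fin (k + 1) → ℂ)
        (Fin.snoc t s : Fin (k + 1) → ℝ) =
        (∑ j ∈ S, ((∫ f : MW, f (z i) * f (z j) ∂μ : ℝ) : ℂ) *
          EM μ z (S.erase j) (Fin.snoc w (z a) : Fin (k + 1) → ℂ)
          (Fin.snoc t s : Fin (k + 1) → ℝ)) +
        I * (((∫ f : MW, f (z i) * lin w t f ∂μ) + s * ∫ f : MW, f (z i) * f (z a) ∂μ : ℝ) : ℂ) *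
          EM μ z S (Fin.snoc w (z a) : Fin (k + 1) → ℂ) (Fin.snoc t s : Fin (k + 1) → ℝ) := by
      intro s
      rw [ih hiS]
      congr 3
      have i1 : Integrable (fun f : MW => f (z i) * lin w t f) μ :=
        MemLp.integrable_mul (eval_two hs (h0 2) (z i)) (lin_two hs (h0 2) w t)
      have i2 : Integrable (fun f : MW => f (z i) * f (z a)) μ :=
        MemLp.integrable_mul (eval_two hs (h0 2) (z i)) (eval_two hs (h0 2) (z a))
      rw [← integral_const_mul, ← integral_add i1 (i2.const_mul s)]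
      congr 1
      refine integral_congr_ae (Eventually.of_forall fun f => ?_)
      simp only [lin_snoc]
      ring
    -- differentiate at `0`
    have d1 := EM_deriv hs h0 z (insert i S) (j := a)
      (by rw [Finset.mem_insert]; push Not; exact ⟨fun e => hia e.symm, ha⟩) w t
    have d2 : HasDerivAt (fun s : ℝ => ∑ j ∈ S, ((∫ f : MW, f (z i) * f (z j) ∂μ : ℝ) : ℂ) *
        EM μ z (S.erase j) (Fin.snoc w (z a) : Fin (k + 1) → ℂ) (Fin.snoc t s : Fin (k + 1) → ℝ))
        (∑ j ∈ S, ((∫ f : MW, f (z i) * f (z j) ∂μ : ℝ) : ℂ) *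
          (I * EM μ z (insert a (S.erase j)) w t)) 0 :=
      HasDerivAt.fun_sum fun j _ => (EM_deriv hs h0 z (S.erase j) (j := a)
        (fun h => ha (Finset.mem_of_mem_erase h)) w t).const_mul _
    have d3 : HasDerivAt (fun s : ℝ => I * (((∫ f : MW, f (z i) * lin w t f ∂μ) +
        s * ∫ f : MW, f (z i) * f (z a) ∂μ : ℝ) : ℂ))
        (I * ((∫ f : MW, f (z i) * f (z a) ∂μ : ℝ) : ℂ)) 0 := by
      have a1 : HasDerivAt (fun s : ℝ => (∫ f : MW, f (z i) * lin w t f ∂μ) +
          s * ∫ f : MW, f (z i) * f (z a) ∂μ) (∫ f : MW, f (z i) * f (z a) ∂μ) 0 := by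
        refine (((hasDerivAt_id' (0:ℝ)).mul_const _).const_add _).congr_deriv ?_
        ring
      exact a1.ofReal_comp.const_mul I
    have d4 := EM_deriv hs h0 z S ha w t
    have d5 := d2.fun_add (d3.fun_mul d4)
    have hfun : (fun s : ℝ => EM μ z (insert i S) (Fin.snoc w (z a) : Fin (k + 1) → ℂ)
        (Fin.snoc t s : Fin (k + 1) → ℝ)) = _ := funext key
    rw [hfun] at d1
    have h1 := d1.unique d5
    -- values at `0`
    have v0 : ∀ T : Finset ι, EM μ z T (Fin.snoc w (z a) : Fin (k + 1) → ℂ)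
        (Fin.snoc t 0 : Fin (k + 1) → ℝ) = EM μ z T w t := by
      intro T
      unfold EM
      simp only [lin_snoc, zero_mul, add_zero]
    rw [v0] at h1
    simp only [zero_mul, add_zero] at h1
    rw [Finset.sum_insert ha, Finset.erase_insert ha, Finset.insert_comm]
    have h2 : ∀ j ∈ S, (insert a S).erase j = insert a (S.erase j) := by
      intro j hj
      rw [Finset.erase_insert_of_ne]
      rintro rfl
      exact ha hj
    rw [Finset.sum_congr rfl fun j hj => by rw [h2 j hj]]
    have h3 : ∑ j ∈ S, ((∫ f : MW, f (z i) * f (z j) ∂μ : ℝ) : ℂ) *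
        (I * EM μ z (insert a (S.erase j)) w t) =
        I * ∑ j ∈ S, ((∫ f : MW, f (z i) * f (z j) ∂μ : ℝ) : ℂ) *
          EM μ z (insert a (S.erase j)) w t := by
      rw [Finset.mul_sum]
      exact Finset.sum_congr rfl fun j _ => by ring
    rw [h3] at h1
    have h4 : I ≠ 0 := Complex.I_ne_zero
    have h5 : I * EM μ z (insert a (insert i S)) w t = I * ((((∫ f : MW, f (z i) * f (z a) ∂μ : ℝ) : ℂ) *
        EM μ z S w t + ∑ j ∈ S, ((∫ f : MW, f (z i) * f (z j) ∂μ : ℝ) : ℂ) *
          EM μ z (insert a (S.erase j)) w t) +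
        I * ((∫ f : MW, f (z i) * lin w t f ∂μ : ℝ) : ℂ) * EM μ z (insert a S) w t) := by
      rw [h1]
      ring
    exact mul_left_cancel₀ h4 h5

/-- **Wick's recursion** -/
theorem wick (hs : IsStationary μ) (hG : IsGaussianLaw μ) {ι : Type*} [DecidableEq ι]
    (z : ι → ℂ) {i : ι} (S : Finset ι) (hi : i ∉ S) :
    mom μ (fun (j : ι) (f : MW) => f (z j)) (insert i S) =
      ∑ j ∈ S, (∫ f : MW, f (z i) * f (z j) ∂μ) *
        mom μ (fun (j : ι) (f : MW) => f (z j)) (S.erase j) := by
  have h := stein hs hG z S hi (k := 0) Fin.elim0 Fin.elim0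
  have e : ∀ T : Finset ι, EM μ z T (Fin.elim0 : Fin 0 → ℂ) Fin.elim0 =
      ((mom μ (fun (j : ι) (f : MW) => f (z j)) T : ℝ) : ℂ) := by
    intro T
    unfold EM mom
    rw [← integral_complex_ofReal]
    refine integral_congr_ae (Eventually.of_forall fun f => ?_)
    simp [lin]
  have e2 : ∫ f : MW, f (z i) * lin (Fin.elim0 : Fin 0 → ℂ) Fin.elim0 f ∂μ = 0 := by
    simp [lin]
  simp only [e, e2] at h
  have h2 : ((mom μ (fun (j : ι) (f : MW) => f (z j)) (insert i S) : ℝ) : ℂ) =
      ((∑ j ∈ S, (∫ f : MW, f (z i) * f (z j) ∂μ) *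
        mom μ (fun (j : ι) (f : MW) => f (z j)) (S.erase j) : ℝ) : ℂ) := by
    rw [h]
    push_cast
    ring
  exact_mod_cast h2

/-- the cumulants of Gaussian waves -/
theorem cum_gauss (hs : IsStationary μ) (hG : IsGaussianLaw μ) {ι : Type*} [DecidableEq ι]
    (z : ι → ℂ) {i : ι} : ∀ (n : ℕ) (S : Finset ι), S.card = n → i ∉ S →
      cum μ (fun (j : ι) (f : MW) => f (z j)) i S =
        if S.card = 1 then ∑ j ∈ S, ∫ f : MW, f (z i) * f (z j) ∂μ else 0 := by
  intro n
  induction n using Nat.strong_induction_on with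
  | _ n ih =>
    intro S hn hi
    rw [cum_eq, wick hs hG z S hi]
    have h1 : ∀ T ∈ S.ssubsets, cum μ (fun (j : ι) (f : MW) => f (z j)) i T *
        mom μ (fun (j : ι) (f : MW) => f (z j)) (S \ T) =
        if T.card = 1 then (∑ j ∈ T, ∫ f : MW, f (z i) * f (z j) ∂μ) *
          mom μ (fun (j : ι) (f : MW) => f (z j)) (S \ T) else 0 := by
      intro T hT
      rw [Finset.mem_ssubsets] at hT
      rw [ih T.card (by rw [← hn]; exact Finset.card_lt_card hT) T rfl (fun h => hi (hT.subset h))]
      split_ifs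
      · rfl
      · rw [zero_mul]
    rw [Finset.sum_congr rfl h1, ← Finset.sum_filter]
    -- the subsets with one element
    by_cases hS : S.card = 1
    · rw [if_pos hS]
      obtain ⟨a, rfl⟩ := Finset.card_eq_one.1 hS
      have h2 : (({a} : Finset ι).ssubsets.filter fun T => T.card = 1) = ∅ := by
        rw [Finset.filter_eq_empty_iff]
        intro T hT
        rw [Finset.mem_ssubsets] at hT
        have := Finset.card_lt_card hT
        rw [Finset.card_singleton] at this
        omega
      rw [h2, Finset.sum_empty, sub_zero, Finset.sum_singleton, Finset.sum_singleton]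
      have : mom μ (fun (j : ι) (f : MW) => f (z j)) (({a} : Finset ι).erase a) = 1 := by
        simp [mom]
      rw [this, mul_one]
    · rw [if_neg hS]
      have h2 : ∑ T ∈ S.ssubsets.filter (fun T => T.card = 1),
          (∑ j ∈ T, ∫ f : MW, f (z i) * f (z j) ∂μ) *
            mom μ (fun (j : ι) (f : MW) => f (z j)) (S \ T) =
          ∑ j ∈ S, (∫ f : MW, f (z i) * f (z j) ∂μ) *
            mom μ (fun (j : ι) (f : MW) => f (z j)) (S.erase j) := by
        symm
        refine Finset.sum_bij (fun j _ => ({j} : Finset ι)) ?_ ?_ ?_ ?_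
        · intro j hj
          rw [Finset.mem_filter, Finset.mem_ssubsets, ssubset_iff_subset_ne]
          refine ⟨⟨Finset.singleton_subset_iff.2 hj, ?_⟩, Finset.card_singleton _⟩
          rintro rfl
          exact hS (Finset.card_singleton _)
        · intro a _ b _ hab
          exact Finset.singleton_injective hab
        · intro T hT
          rw [Finset.mem_filter, Finset.mem_ssubsets] at hT
          obtain ⟨a, rfl⟩ := Finset.card_eq_one.1 hT.2
          exact ⟨a, hT.1.subset (Finset.mem_singleton_self a), rfl⟩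
        · intro j _
          rw [Finset.sum_singleton, Finset.sdiff_singleton_eq_erase]
      rw [h2, sub_self]

/-- **the truncated functions of order larger than two of Gaussian waves vanish** -/
theorem trunc_gauss (hs : IsStationary μ) (hG : IsGaussianLaw μ) {n : ℕ} (hn : 2 ≤ n)
    (z : Fin (n + 1) → ℂ) : trunc μ z = 0 := by
  unfold trunc
  have hcard : (Finset.univ.erase (0 : Fin (n + 1))).card = n := by
    rw [Finset.card_erase_of_mem (Finset.mem_univ _), Finset.card_univ, Fintype.card_fin]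
    rfl
  rw [cum_gauss hs hG z _ _ rfl (by simp), if_neg (by rw [hcard]; omega)]

theorem clusters_gauss (hs : IsStationary μ) (hG : IsGaussianLaw μ) {n : ℕ} (hn : 2 ≤ n) :
    Clusters μ n := by
  refine Eventually.of_forall fun z ε hε => Eventually.frequently ?_
  filter_upwards [eventually_ge_atTop 0] with R hR
  simp only [trunc_gauss hs hG hn]
  simp
  positivity

end

end Pool.Agent.Helper37.BC
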